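import Mathlib

/-!
Counting of the values of finitely many injective maps of quadratic growth.
-/

set_option autoImplicit false

namespace Pool.Agent.Y887.QE

open Finset Filter

theorem count_map3 {E : Type} [Fintype E] [Nonempty E] (Cb K1 : ℕ) (hCb : 1 ≤ Cb)
    (ν : E → ℕ → ℕ) (hinj : ∀ e m m', 1 ≤ m → 1 ≤ m' → ν e m = ν e m' → m = m')
    (hν : ∀ e m, 1 ≤ m → ν e m ≤ Cb * m ^ 2) (G P : ℕ → ℕ → Prop)
    (hSc : ∀ᶠ X : ℕ in atTop, (X : ℝ) / Real.log X ^ K1 ≤
      ({m : ℕ | 1 ≤ m ∧ m ≤ X ∧ G X m}.ncard : ℝ))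
    (hG : ∀ᶠ X : ℕ in atTop, ∀ m, 1 ≤ m → m ≤ X → G X m →
      ∃ e, ∀ X', X' < 4 * Cb * X ^ 2 → P X' (ν e m)) :
    ∀ᶠ X : ℕ in atTop, √(X : ℝ) / Real.log X ^ (K1 + 1) ≤
      ({n : ℕ | n ≤ X ∧ P X n}.ncard : ℝ) := by
  classical
  have hdiv : Tendsto (fun X : ℕ => Nat.sqrt (X / Cb)) atTop atTop := by
    rw [tendsto_atTop]
    intro c
    filter_upwards [eventually_ge_atTop (c * c * Cb)] with X hX
    rw [Nat.le_sqrt]
    exact (Nat.le_div_iff_mul_le (by omega)).2 hX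
  have hlogX : Tendsto (fun X : ℕ => Real.log (X : ℝ)) atTop atTop :=
    Real.tendsto_log_atTop.comp tendsto_natCast_atTop_atTop
  have hlogX' : Tendsto (fun X : ℕ => Real.log ((Nat.sqrt (X / Cb) : ℕ) : ℝ)) atTop atTop :=
    hlogX.comp hdiv
  have hE1 : 1 ≤ Fintype.card E := Fintype.card_pos
  filter_upwards [hdiv.eventually hSc, hdiv.eventually hG, hlogX'.eventually_ge_atTop 1,
    hlogX.eventually_ge_atTop (2 * Cb * (Fintype.card E)), hdiv.eventually_ge_atTop 1]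
    with X h1 hGX h2 h3 h4
  set X' := Nat.sqrt (X / Cb) with hX'
  have hCbr : (1 : ℝ) ≤ Cb := by exact_mod_cast hCb
  have hkr : (1 : ℝ) ≤ (Fintype.card E : ℝ) := by exact_mod_cast hE1
  have hX'1n : 1 ≤ X' := h4
  have hX'sq : X' * X' ≤ X / Cb := Nat.sqrt_le (X / Cb)
  have hCX' : Cb * X' ^ 2 ≤ X := by
    calc Cb * X' ^ 2 = Cb * (X' * X') := by ring
      _ ≤ Cb * (X / Cb) := Nat.mul_le_mul_left _ hX'sq
      _ ≤ X := Nat.mul_div_le X Cb
  have hXX' : X < 4 * Cb * X' ^ 2 := by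
    have h5 : X < Cb * (X / Cb + 1) := Nat.lt_mul_div_succ X (by omega)
    have h6 : X / Cb < (X' + 1) * (X' + 1) := Nat.lt_succ_sqrt (X / Cb)
    have h7 : Cb * (X / Cb + 1) ≤ Cb * ((X' + 1) * (X' + 1)) := Nat.mul_le_mul_left _ h6
    have h8 : (X' + 1) * (X' + 1) ≤ 4 * X' ^ 2 := by nlinarith
    have h9 : Cb * ((X' + 1) * (X' + 1)) ≤ Cb * (4 * X' ^ 2) := Nat.mul_le_mul_left _ h8
    calc X < Cb * (X / Cb + 1) := h5
      _ ≤ _ := h7.trans h9
      _ = _ := by ring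
  have hex : ∀ m : ℕ, ∃ e : E, 1 ≤ m → m ≤ X' → G X' m → P X (ν e m) := by
    intro m
    by_cases h : 1 ≤ m ∧ m ≤ X' ∧ G X' m
    · obtain ⟨e, he⟩ := hGX m h.1 h.2.1 h.2.2
      exact ⟨e, fun _ _ _ => he X hXX'⟩
    · exact ⟨Classical.arbitrary E, fun h1 h2 h3 => absurd ⟨h1, h2, h3⟩ h⟩
  choose q hq using hex
  set S : Finset ℕ := (Icc 1 X').filter (fun m => G X' m) with hS
  have hSset : {m : ℕ | 1 ≤ m ∧ m ≤ X' ∧ G X' m} = (S : Set ℕ) := by
    ext m
    rw [hS, mem_coe, mem_filter, mem_Icc, Set.mem_ofPred_eq, and_assoc]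
  rw [hSset, Set.ncard_coe_finset] at h1
  have hcard : S.card ≤ Fintype.card E * (S.image (fun m => ν (q m) m)).card := by
    apply card_le_mul_card_image
    intro v _
    calc (S.filter (fun m => ν (q m) m = v)).card ≤ (univ : Finset E).card := by
          apply card_le_card_of_injOn q
          · intro m _
            exact mem_coe.2 (mem_univ _)
          · intro m hm m' hm' hqq
            rw [mem_coe, mem_filter, hS, mem_filter, mem_Icc] at hm hm'
            have e1 : ν (q m) m = ν (q m') m' := by rw [hm.2, hm'.2]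
            rw [hqq] at e1
            exact hinj _ _ _ hm.1.1.1 hm'.1.1.1 e1
      _ = Fintype.card E := card_univ
  set W : Set ℕ := {n : ℕ | n ≤ X ∧ P X n} with hW
  have hWfin : W.Finite := (Set.finite_Iic X).subset fun n hn => hn.1
  have hsub : ((S.image (fun m => ν (q m) m) : Finset ℕ) : Set ℕ) ⊆ W := by
    intro n hn
    rw [mem_coe, mem_image] at hn
    obtain ⟨m, hm, rfl⟩ := hn
    rw [hS, mem_filter, mem_Icc] at hm
    have e3 : ν (q m) m ≤ X := by
      refine (hν (q m) m hm.1.1).trans ?_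
      calc Cb * m ^ 2 ≤ Cb * X' ^ 2 := Nat.mul_le_mul_left _ (Nat.pow_le_pow_left hm.1.2 2)
        _ ≤ X := hCX'
    exact ⟨e3, hq m hm.1.1 hm.1.2 hm.2⟩
  have hWc : (S.image (fun m => ν (q m) m)).card ≤ W.ncard := by
    rw [← Set.ncard_coe_finset]
    exact Set.ncard_le_ncard hsub hWfin
  have hfin : (S.card : ℝ) ≤ (Fintype.card E) * (W.ncard : ℝ) := by
    have : S.card ≤ Fintype.card E * W.ncard := hcard.trans (Nat.mul_le_mul_left _ hWc)
    exact_mod_cast this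
  have hX'1 : (1 : ℝ) ≤ X' := by exact_mod_cast hX'1n
  have hXr : √(X : ℝ) ≤ 2 * Cb * X' := by
    rw [Real.sqrt_le_left (by positivity)]
    have h6 : (X : ℝ) < 4 * Cb * X' ^ 2 := by exact_mod_cast hXX'
    have h7 : (Cb : ℝ) ≤ Cb ^ 2 := by nlinarith
    have h8 : (0 : ℝ) ≤ (X' : ℝ) ^ 2 := by positivity
    nlinarith
  have hX'X : (X' : ℝ) ≤ X := by
    have : X' ≤ X := by
      calc X' ≤ X' ^ 2 := Nat.le_self_pow (by norm_num) _
        _ ≤ Cb * X' ^ 2 := Nat.le_mul_of_pos_left _ hCb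
        _ ≤ X := hCX'
    exact_mod_cast this
  have hlog : Real.log X' ≤ Real.log X := Real.log_le_log (by linarith) hX'X
  have hl1 : 1 ≤ Real.log X := h2.trans hlog
  have hs0 : (0 : ℝ) ≤ √(X : ℝ) := Real.sqrt_nonneg _
  have hstep : √(X : ℝ) / Real.log X ^ (K1 + 1) * (Fintype.card E) ≤ X' / Real.log X' ^ K1 := by
    calc √(X : ℝ) / Real.log X ^ (K1 + 1) * (Fintype.card E) =
          √(X : ℝ) * (Fintype.card E) / (Real.log X * Real.log X ^ K1) := by
          rw [pow_succ]; ring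
      _ ≤ √(X : ℝ) * (Fintype.card E) / ((2 * Cb * (Fintype.card E)) * Real.log X' ^ K1) := by
          apply div_le_div_of_nonneg_left (by positivity) (by positivity)
          apply mul_le_mul h3 (pow_le_pow_left₀ (by linarith) hlog _) (by positivity) (by linarith)
      _ = √(X : ℝ) / (2 * Cb) / Real.log X' ^ K1 := by
          field_simp
      _ ≤ X' / Real.log X' ^ K1 := by
          apply div_le_div_of_nonneg_right _ (by positivity)
          rw [div_le_iff₀ (by positivity)]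
          linarith
  have h8 : √(X : ℝ) / Real.log X ^ (K1 + 1) * (Fintype.card E) ≤
      (W.ncard : ℝ) * (Fintype.card E) := by
    calc _ ≤ _ := hstep
      _ ≤ (S.card : ℝ) := h1
      _ ≤ (Fintype.card E) * (W.ncard : ℝ) := hfin
      _ = _ := by ring
  exact le_of_mul_le_mul_right h8 (by positivity)

end Pool.Agent.Y887.QE
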