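import Mathlib
import Pool.Agent.Y887.TD.SieveD

/-!
Systems of value functions with at most two roots modulo every prime: basic facts for the sieve.
-/

set_option autoImplicit false

namespace Pool.Agent.Y887.QE

open Finset Pool.Agent.H373R2.T7 Pool.Agent.Y887.TD

variable {ι : Type} [Fintype ι]

/-- the prime `p` divides some value at `n` -/
def QV (v : ι → ℕ → ℕ) (p n : ℕ) : Prop := p.Prime ∧ ∃ h, p ∣ v h n

open Classical in
/-- divisibility by a prime is periodic, and there are at most two roots -/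
structure Good (v : ι → ℕ → ℕ) : Prop where
  per : ∀ h p n, p.Prime → (p ∣ v h n ↔ p ∣ v h (n % p))
  few : ∀ h p, p.Prime → ((range p).filter (fun r => p ∣ v h r)).card ≤ 2

theorem Good.perQ {v : ι → ℕ → ℕ} (hv : Good v) (p n : ℕ) : QV v p n ↔ QV v p (n % p) := by
  unfold QV
  constructor
  · rintro ⟨hp, h, hd⟩
    exact ⟨hp, h, (hv.per h p n hp).1 hd⟩
  · rintro ⟨hp, h, hd⟩
    exact ⟨hp, h, (hv.per h p n hp).2 hd⟩

theorem perQV {v : ι → ℕ → ℕ} (hv : Good v) : PerB (QV v) (2 * Fintype.card ι) := by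
  classical
  refine ⟨fun p n => hv.perQ p n, fun p hp => ?_⟩
  unfold nuB
  calc ((range p).filter (fun r => QV v p r)).card
      ≤ ((univ : Finset ι).biUnion fun h => (range p).filter (fun r => p ∣ v h r)).card := by
        apply card_le_card
        intro r hr
        rw [mem_filter] at hr
        obtain ⟨h1, -, h, h2⟩ := hr
        exact mem_biUnion.2 ⟨h, mem_univ _, mem_filter.2 ⟨h1, h2⟩⟩
    _ ≤ ∑ h : ι, ((range p).filter (fun r => p ∣ v h r)).card := card_biUnion_le
    _ ≤ ∑ _h : ι, 2 := sum_le_sum fun h _ => by convert hv.few h p hp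
    _ = _ := by simp [mul_comm]

/-- the system seen from the progression `q n + r`, restricted to primes at most `y` -/
def QW (v : ι → ℕ → ℕ) (y q r : ℕ) (p n : ℕ) : Prop := p ≤ y ∧ QV v p (q * n + r)

theorem nuB_QW {v : ι → ℕ → ℕ} (hv : Good v) {y q r p : ℕ} (hp : p.Prime) (hq : q.Prime)
    (hpy : p ≤ y) (hyq : y < q) : nuB (QW v y q r) p = nuB (QV v) p := by
  classical
  unfold nuB
  have : Fact p.Prime := ⟨hp⟩
  have hpq : ((q : ℕ) : ZMod p) ≠ 0 := by
    intro h
    have h1 : p ∣ q := (ZMod.natCast_eq_zero_iff q p).1 h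
    have := (Nat.prime_dvd_prime_iff_eq hp hq).1 h1
    omega
  have hper : ∀ n, QV v p n ↔ QV v p (n % p) := fun n => hv.perQ p n
  apply card_bij (fun n _ => (q * n + r) % p)
  · intro n hn
    rw [mem_filter, mem_range] at hn ⊢
    exact ⟨Nat.mod_lt _ hp.pos, (hper _).1 hn.2.2⟩
  · intro n hn m hm hnm
    rw [mem_filter, mem_range] at hn hm
    have h1 : q * n + r ≡ q * m + r [MOD p] := hnm
    have h2 := Nat.ModEq.add_right_cancel' r h1
    have h3 : n ≡ m [MOD p] := Nat.ModEq.cancel_left_of_coprime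
      ((Nat.coprime_primes hp hq).2 (by omega)) h2
    have h4 : n % p = m % p := h3
    rwa [Nat.mod_eq_of_lt hn.1, Nat.mod_eq_of_lt hm.1] at h4
  · intro m hm
    rw [mem_filter, mem_range] at hm
    have hv : ((q * (((m : ZMod p) - r) * (q : ZMod p)⁻¹).val + r : ℕ) : ZMod p) = m := by
      push_cast
      rw [ZMod.natCast_zmod_val]
      field_simp
      ring
    have hv2 : (q * (((m : ZMod p) - r) * (q : ZMod p)⁻¹).val + r) % p = m := by
      have h1 := (ZMod.natCast_eq_natCast_iff' _ _ _).1 hv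
      rwa [Nat.mod_eq_of_lt hm.1] at h1
    refine ⟨(((m : ZMod p) - r) * (q : ZMod p)⁻¹).val, ?_, hv2⟩
    rw [mem_filter, mem_range]
    refine ⟨ZMod.val_lt _, hpy, (hper _).2 ?_⟩
    rw [hv2]
    exact hm.2

theorem perQW {v : ι → ℕ → ℕ} (hv : Good v) {y q r : ℕ} (hq : q.Prime)
    (hyq : y < q) : PerB (QW v y q r) (2 * Fintype.card ι) := by
  classical
  refine ⟨fun p n => ?_, fun p hp => ?_⟩
  · unfold QW
    apply and_congr Iff.rfl
    have hper : ∀ n, QV v p n ↔ QV v p (n % p) := fun n => hv.perQ p n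
    rw [hper, hper (q * (n % p) + r)]
    have : (q * n + r) % p = (q * (n % p) + r) % p :=
      Nat.ModEq.add_right _ (Nat.ModEq.mul_left _ (Nat.mod_modEq n p).symm)
    rw [this]
  · rcases Nat.lt_or_ge y p with h | h
    · have : nuB (QW v y q r) p = 0 := by
        unfold nuB
        rw [card_eq_zero, filter_eq_empty_iff]
        intro n _ hn
        have := hn.1
        omega
      rw [this]
      exact Nat.zero_le _
    · rw [nuB_QW hv hp hq h hyq]
      exact (perQV hv).few p hp

open Classical in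
/-- the rough arguments in a residue class modulo `q` -/
theorem count_class (v : ι → ℕ → ℕ) {y q : ℕ} (r X : ℕ) (hr : r < q) :
    ((Icc 1 X).filter (fun m => (∀ p ∈ pz y, ¬ QV v p m) ∧ m % q = r)).card ≤
      1 + ((Icc 1 (X / q)).filter (fun n => ∀ p ∈ pz y, ¬ QW v y q r p n)).card := by
  set W := (Icc 1 X).filter (fun m => (∀ p ∈ pz y, ¬ QV v p m) ∧ m % q = r) with hW
  have hmod : ∀ m ∈ W, m = q * (m / q) + r := by
    intro m hm
    rw [hW, mem_filter] at hm
    have h1 := (Nat.div_add_mod m q).symm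
    rwa [hm.2.2] at h1
  calc W.card ≤ (insert 0 ((Icc 1 (X / q)).filter
        (fun n => ∀ p ∈ pz y, ¬ QW v y q r p n))).card := by
        apply card_le_card_of_injOn (fun m => m / q)
        · intro m hm
          have h1 := hmod m hm
          rw [mem_coe, hW, mem_filter, mem_Icc] at hm
          rw [mem_coe, mem_insert]
          rcases Nat.eq_zero_or_pos (m / q) with h0 | h0
          · exact Or.inl h0
          · right
            rw [mem_filter, mem_Icc]
            refine ⟨⟨h0, Nat.div_le_div_right hm.1.2⟩, fun p hp hQ => ?_⟩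
            apply hm.2.1 p hp
            have := hQ.2
            rwa [← h1] at this
        · intro m hm n hn hmn
          have h1 := hmod m hm
          have h2 := hmod n hn
          simp only at hmn
          rw [h1, h2, hmn]
    _ ≤ _ := by
        rw [add_comm]
        exact card_insert_le _ _

open Classical in
/-- the rough arguments for which the value `h` is divisible by `q` -/
theorem count_root {v : ι → ℕ → ℕ} (hv : Good v) {y q : ℕ} (hq : q.Prime)
    (X : ℕ) (h : ι) (Bd : ℝ) (hBd0 : 0 ≤ Bd)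
    (hBd : ∀ r, 1 + (((Icc 1 (X / q)).filter (fun n => ∀ p ∈ pz y, ¬ QW v y q r p n)).card : ℝ) ≤
      Bd) :
    (((Icc 1 X).filter (fun m => (∀ p ∈ pz y, ¬ QV v p m) ∧ q ∣ v h m)).card : ℝ) ≤ 2 * Bd := by
  have h1 : (Icc 1 X).filter (fun m => (∀ p ∈ pz y, ¬ QV v p m) ∧ q ∣ v h m) ⊆
      ((range q).filter (fun r => q ∣ v h r)).biUnion fun r =>
        (Icc 1 X).filter (fun m => (∀ p ∈ pz y, ¬ QV v p m) ∧ m % q = r) := by
    intro m hm
    rw [mem_filter] at hm
    rw [mem_biUnion]
    refine ⟨m % q, ?_, ?_⟩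
    · rw [mem_filter, mem_range]
      exact ⟨Nat.mod_lt _ hq.pos, (hv.per h q m hq).1 hm.2.2⟩
    · rw [mem_filter]
      exact ⟨hm.1, hm.2.1, rfl⟩
  have h2 : (((Icc 1 X).filter (fun m => (∀ p ∈ pz y, ¬ QV v p m) ∧ q ∣ v h m)).card : ℝ) ≤
      ∑ r ∈ (range q).filter (fun r => q ∣ v h r),
        (((Icc 1 X).filter (fun m => (∀ p ∈ pz y, ¬ QV v p m) ∧ m % q = r)).card : ℝ) := by
    exact_mod_cast (card_le_card h1).trans card_biUnion_le
  refine h2.trans ?_
  calc ∑ r ∈ (range q).filter (fun r => q ∣ v h r),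
        (((Icc 1 X).filter (fun m => (∀ p ∈ pz y, ¬ QV v p m) ∧ m % q = r)).card : ℝ)
      ≤ ∑ _r ∈ (range q).filter (fun r => q ∣ v h r), Bd := by
        apply sum_le_sum
        intro r hr
        rw [mem_filter, mem_range] at hr
        refine le_trans ?_ (hBd r)
        exact_mod_cast count_class v r X hr.1
    _ = (((range q).filter (fun r => q ∣ v h r)).card : ℝ) * Bd := by
        rw [sum_const, nsmul_eq_mul]
    _ ≤ 2 * Bd := by
        apply mul_le_mul_of_nonneg_right _ hBd0
        exact_mod_cast hv.few h q hq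

/-- few prime factors above the square root -/
theorem few_large6 {n X : ℕ} (hn : n ≠ 0) (hX : n ≤ X ^ 3) :
    (n.primeFactors.filter (fun q => Nat.sqrt X < q)).card ≤ 6 := by
  classical
  by_contra hcon
  push Not at hcon
  set U := n.primeFactors.filter (fun q => Nat.sqrt X < q) with hU
  set s := Nat.sqrt X with hs
  have h1 : (s + 1) ^ U.card ≤ ∏ q ∈ U, q := pow_card_le_prod _ _ _ (fun q hq => by
    rw [hU, mem_filter] at hq
    exact hq.2)
  have h2 : ∏ q ∈ U, q ≤ ∏ q ∈ n.primeFactors, q :=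
    prod_le_prod_of_subset_of_one_le' (filter_subset _ _)
      (fun q hq _ => (Nat.prime_of_mem_primeFactors hq).one_lt.le)
  have h3 : ∏ q ∈ n.primeFactors, q ≤ n :=
    Nat.le_of_dvd (Nat.pos_of_ne_zero hn) (Nat.prod_primeFactors_dvd n)
  have h4 : (s + 1) ^ 6 ≤ (s + 1) ^ U.card := Nat.pow_le_pow_right (Nat.succ_pos _) (by omega)
  have h5 : (s + 1) ^ 6 ≤ n := by omega
  have h6 : X < (s + 1) ^ 2 := by
    rw [pow_two]
    exact Nat.lt_succ_sqrt X
  have h7 : X ^ 3 < ((s + 1) ^ 2) ^ 3 := Nat.pow_lt_pow_left h6 (by norm_num)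
  have h9 : ((s + 1) ^ 2) ^ 3 = (s + 1) ^ 6 := by ring
  omega

end Pool.Agent.Y887.QE
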