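import Mathlib
import Pool.Agent.Y887.QE.SvA
import Pool.Agent.Y887.DE.Rs

/-!
Basic facts on the values `|x ^ 2 - D|` for a nonsquare `D`.
-/

set_option autoImplicit false

namespace Pool.Agent.Y887.QE

open Finset Filter
open Pool.Agent.Y887.DE (fac_eq)

/-- the absolute value of `x ^ 2 - D` -/
def vq (D : ℤ) (x : ℕ) : ℕ := ((x : ℤ) ^ 2 - D).natAbs

theorem dvd_vq {D : ℤ} {c x : ℕ} : c ∣ vq D x ↔ (c : ℤ) ∣ (x : ℤ) ^ 2 - D := by
  unfold vq
  exact Int.natCast_dvd.symm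

theorem sub_dvd_vq {D : ℤ} {c x x' : ℕ} (h : x ≡ x' [MOD c]) :
    (c : ℤ) ∣ ((x : ℤ) ^ 2 - D) - ((x' : ℤ) ^ 2 - D) := by
  have h1 : (c : ℤ) ∣ (x : ℤ) - x' := (Nat.modEq_iff_dvd).1 h.symm
  have e : ((x : ℤ) ^ 2 - D) - ((x' : ℤ) ^ 2 - D) = ((x : ℤ) - x') * (x + x') := by ring
  rw [e]
  exact h1.mul_right _

theorem vq_congr {D : ℤ} {c x x' : ℕ} (h : x ≡ x' [MOD c]) : c ∣ vq D x ↔ c ∣ vq D x' := by
  rw [dvd_vq, dvd_vq]
  have h1 := sub_dvd_vq (D := D) h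
  constructor
  · intro h2
    have := dvd_sub h2 h1
    rwa [sub_sub_cancel] at this
  · intro h2
    have := dvd_add h1 h2
    rwa [sub_add_cancel] at this

theorem vq_pos {D : ℤ} (hD : ¬ IsSquare D) (x : ℕ) : 0 < vq D x := by
  unfold vq
  rw [Int.natAbs_pos]
  intro h
  apply hD
  exact ⟨x, by linarith [sq (x : ℤ)]⟩

theorem vq_le (D : ℤ) (x : ℕ) : vq D x ≤ x ^ 2 + D.natAbs := by
  unfold vq
  refine (Int.natAbs_sub_le _ _).trans ?_
  rw [Int.natAbs_pow, Int.natAbs_natCast]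

/-- the composition -/
theorem vq_comp {D : ℤ} {x y h : ℕ} (hh : 0 < h) (hxy : x = y + h) (hd : h ∣ vq D y) :
    ∃ N : ℤ, (x : ℤ) * y - D = h * N ∧
      (N ^ 2 - D).natAbs * h ^ 2 = vq D x * vq D y := by
  rw [dvd_vq] at hd
  obtain ⟨c, hc⟩ := hd
  refine ⟨c + y, ?_, ?_⟩
  · rw [hxy]
    push_cast
    linear_combination hc
  · have h1 : (((c + y) ^ 2 - D) * (h : ℤ) ^ 2 : ℤ) = ((x : ℤ) ^ 2 - D) * ((y : ℤ) ^ 2 - D) := by
      have h2 : (h : ℤ) * (c + y) = (x : ℤ) * y - D := by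
        rw [hxy]
        push_cast
        linear_combination -hc
      have h3 : ((c + y) ^ 2 - D) * (h : ℤ) ^ 2 = ((h : ℤ) * (c + y)) ^ 2 - D * h ^ 2 := by ring
      rw [h3, h2, hxy]
      push_cast
      ring
    unfold vq
    rw [← Int.natAbs_mul, ← h1, Int.natAbs_mul, Int.natAbs_pow, Int.natAbs_natCast]

/-- a root modulo an odd prime lifts -/
theorem hensel {D : ℤ} {p : ℕ} (hp : p.Prime) (hp2 : p ≠ 2) (hpD : ¬ (p : ℤ) ∣ D)
    (h0 : ∃ θ : ℕ, p ∣ vq D θ) (k : ℕ) : ∃ θ : ℕ, p ^ (k + 1) ∣ vq D θ := by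
  have hpp : Prime (p : ℤ) := Nat.prime_iff_prime_int.1 hp
  induction k with
  | zero =>
    obtain ⟨θ, hθ⟩ := h0
    exact ⟨θ, by simpa using hθ⟩
  | succ k ih =>
    obtain ⟨θ, hθ⟩ := ih
    rw [dvd_vq] at hθ
    push_cast at hθ
    obtain ⟨c, hc⟩ := hθ
    have hpθ : ¬ (p : ℤ) ∣ 2 * θ := by
      intro h
      rcases hpp.dvd_or_dvd h with h1 | h1
      · have h2 : p ∣ 2 := by exact_mod_cast h1
        exact hp2 ((Nat.prime_dvd_prime_iff_eq hp Nat.prime_two).1 h2)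
      · apply hpD
        have h2 : (p : ℤ) ∣ (θ : ℤ) ^ 2 := dvd_pow h1 (by norm_num)
        have h3 : (p : ℤ) ∣ (θ : ℤ) ^ 2 - D := by
          rw [hc]
          exact (dvd_pow_self (p : ℤ) (by omega)).mul_right _
        have h4 := dvd_sub h2 h3
        rwa [sub_sub_cancel] at h4
    have hcop : IsCoprime (p : ℤ) (2 * θ) := (Prime.coprime_iff_not_dvd hpp).2 hpθ
    obtain ⟨a, b, hab⟩ := hcop
    -- t ≡ - b c modulo p
    obtain ⟨t, ht⟩ : ∃ t : ℕ, (p : ℤ) ∣ (t : ℤ) - (-(b * c)) := by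
      refine ⟨((-(b * c)) % p).toNat, ?_⟩
      have hp0 : (p : ℤ) ≠ 0 := by exact_mod_cast hp.ne_zero
      rw [Int.toNat_of_nonneg (Int.emod_nonneg _ hp0)]
      have := Int.dvd_self_sub_emod (x := -(b * c)) (m := (p : ℤ))
      have h2 := (dvd_neg).2 this
      rwa [neg_sub] at h2
    refine ⟨θ + p ^ (k + 1) * t, ?_⟩
    rw [dvd_vq]
    push_cast
    obtain ⟨s, hs⟩ := ht
    have h1 : (t : ℤ) = p * s - b * c := by linarith
    have e1 : (((θ : ℤ) + p ^ (k + 1) * t) ^ 2 - D) =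
        (p : ℤ) ^ (k + 1) * (c + 2 * θ * t) + (p : ℤ) ^ (k + 1 + 1) * ((p : ℤ) ^ k * t ^ 2) := by
      have : ((θ : ℤ) + p ^ (k + 1) * t) ^ 2 - D = ((θ : ℤ) ^ 2 - D) + 2 * θ * (p ^ (k + 1) * t) +
          (p : ℤ) ^ (k + 1 + 1) * ((p : ℤ) ^ k * t ^ 2) := by ring
      rw [this, hc]
      ring
    rw [e1]
    apply dvd_add _ (dvd_mul_right _ _)
    rw [pow_succ]
    apply mul_dvd_mul_left
    rw [h1]
    refine ⟨a * c + 2 * θ * s, ?_⟩
    have : b * (2 * θ) = 1 - a * p := by linarith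
    calc c + 2 * θ * (p * s - b * c) = c - (b * (2 * θ)) * c + p * (2 * θ * s) := by ring
      _ = _ := by rw [this]; ring

/-- exact exponents at two arguments with difference `h` -/
theorem exact_two {D : ℤ} {p : ℕ} (hp : p.Prime) (hp2 : p ≠ 2) (hpD : ¬ (p : ℤ) ∣ D)
    (h0 : ∃ θ : ℕ, p ∣ vq D θ) {h : ℕ} (hh : p ∣ h) (hh2 : ¬ p ^ 2 ∣ h) (w : ℕ) :
    ∃ x0 : ℕ, ∀ x y : ℕ, x ≡ x0 [MOD p ^ (w + 2)] → x = y + h →
      (vq D x).factorization p = w + 1 ∧ (vq D y).factorization p = 1 := by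
  have hpp : Prime (p : ℤ) := Nat.prime_iff_prime_int.1 hp
  have hpz : (p : ℤ) ≠ 0 := hpp.ne_zero
  obtain ⟨θ, hθ⟩ := hensel hp hp2 hpD h0 (w + 1)
  rw [dvd_vq] at hθ
  push_cast at hθ
  obtain ⟨c, hc⟩ := hθ
  obtain ⟨h', rfl⟩ := hh
  have hh' : ¬ (p : ℤ) ∣ (h' : ℤ) := by
    intro h1
    apply hh2
    rw [pow_two]
    exact Nat.mul_dvd_mul_left p (by exact_mod_cast h1)
  have hp2' : ¬ (p : ℤ) ∣ 2 := by
    intro h1
    have h2 : p ∣ 2 := by exact_mod_cast h1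
    exact hp2 ((Nat.prime_dvd_prime_iff_eq hp Nat.prime_two).1 h2)
  have hpθ : ¬ (p : ℤ) ∣ θ := by
    intro h1
    apply hpD
    have h2 : (p : ℤ) ∣ (θ : ℤ) ^ 2 := dvd_pow h1 (by norm_num)
    have h3 : (p : ℤ) ∣ (θ : ℤ) ^ 2 - D := by
      rw [hc]
      exact (dvd_pow_self (p : ℤ) (by omega)).mul_right _
    have h4 := dvd_sub h2 h3
    rwa [sub_sub_cancel] at h4
  -- the sign
  obtain ⟨t, ht, htp, hth⟩ : ∃ t : ℕ, t < p ∧ ¬ (p : ℤ) ∣ (t : ℤ) ∧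
      (w = 0 → ¬ (p : ℤ) ∣ (t : ℤ) - h') := by
    by_cases h1 : (p : ℤ) ∣ (1 : ℤ) - h'
    · refine ⟨2, ?_, by exact_mod_cast hp2', fun _ h2 => ?_⟩
      · have := hp.two_le
        omega
      · have h3 := dvd_sub h2 h1
        have e : ((2 : ℕ) : ℤ) - h' - (1 - h') = 1 := by push_cast; ring
        rw [e] at h3
        exact hpp.not_isUnit (isUnit_of_dvd_one h3)
    · refine ⟨1, hp.one_lt, fun h2 => ?_, fun _ => by push_cast; exact h1⟩
      have : (p : ℤ) ∣ 1 := by exact_mod_cast h2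
      exact hpp.not_isUnit (isUnit_of_dvd_one this)
  refine ⟨θ + p ^ (w + 1) * t, fun x y hx hxy => ?_⟩
  have hxd : (p : ℤ) ^ (w + 2) ∣ (x : ℤ) - (θ + p ^ (w + 1) * t) := by
    have := (Nat.modEq_iff_dvd).1 hx.symm
    push_cast at this
    exact this
  obtain ⟨s, hs⟩ := hxd
  have hx' : (x : ℤ) = θ + p ^ (w + 1) * t + p ^ (w + 2) * s := by linarith
  -- the first value
  have e1 : (x : ℤ) ^ 2 - D = (p : ℤ) ^ (w + 1) * (2 * θ * t) + (p : ℤ) ^ (w + 2) *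
      (c + (p : ℤ) ^ w * t ^ 2 + 2 * θ * s + 2 * p ^ (w + 1) * t * s + p ^ (w + 2) * s ^ 2) := by
    have : (x : ℤ) ^ 2 - D = ((θ : ℤ) ^ 2 - D) + (p : ℤ) ^ (w + 1) * (2 * θ * t) +
        (p : ℤ) ^ (w + 2) * ((p : ℤ) ^ w * t ^ 2 + 2 * θ * s + 2 * p ^ (w + 1) * t * s +
          p ^ (w + 2) * s ^ 2) := by
      rw [hx']
      ring
    rw [this, hc]
    ring
  obtain ⟨z, hz⟩ : ∃ z : ℤ, z = c + (p : ℤ) ^ w * t ^ 2 + 2 * θ * s + 2 * p ^ (w + 1) * t * s +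
    p ^ (w + 2) * s ^ 2 := ⟨_, rfl⟩
  rw [← hz] at e1
  have hnot : ∀ a : ℤ, ¬ (p : ℤ) ∣ a → ∀ k : ℕ, ∀ b : ℤ,
      ¬ (p : ℤ) ^ (k + 1) ∣ (p : ℤ) ^ k * a + (p : ℤ) ^ (k + 1) * b := by
    intro a ha k b hd
    have h1 : (p : ℤ) ^ (k + 1) ∣ (p : ℤ) ^ k * a := (dvd_add_left (dvd_mul_right _ _)).1 hd
    rw [pow_succ] at h1
    exact ha ((mul_dvd_mul_iff_left (pow_ne_zero _ hpz)).1 h1)
  have hfirst : (vq D x).factorization p = w + 1 := by
    apply fac_eq hp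
    · rw [dvd_vq, e1]
      push_cast
      exact dvd_add (dvd_mul_right _ _) ((pow_dvd_pow _ (by omega)).mul_right _)
    · rw [dvd_vq, e1]
      push_cast
      apply hnot
      intro hd
      rcases hpp.dvd_or_dvd hd with h1 | h1
      · rcases hpp.dvd_or_dvd h1 with h2 | h2
        · exact hp2' h2
        · exact hpθ h2
      · exact htp h1
  refine ⟨hfirst, ?_⟩
  -- the second value
  have hyx : (y : ℤ) = x - p * h' := by
    have : (x : ℤ) = ((y + p * h' : ℕ) : ℤ) := by rw [hxy]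
    push_cast at this
    linarith
  have e2 : (y : ℤ) ^ 2 - D = ((x : ℤ) ^ 2 - D) + (p : ℤ) ^ 1 * (-(2 * x * h')) +
      (p : ℤ) ^ (1 + 1) * h' ^ 2 := by
    rw [hyx]
    ring
  have hxp : ¬ (p : ℤ) ∣ (x : ℤ) := by
    intro h1
    apply hpθ
    have h2 : (θ : ℤ) = x - p * (p ^ w * t + p ^ (w + 1) * s) := by rw [hx']; ring
    rw [h2]
    exact dvd_sub h1 (dvd_mul_right _ _)
  apply fac_eq hp
  · rw [dvd_vq, e2, e1]
    push_cast
    refine dvd_add (dvd_add (dvd_add ?_ ?_) (dvd_mul_right _ _)) ?_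
    · exact (pow_dvd_pow _ (by omega)).mul_right _
    · exact (pow_dvd_pow _ (by omega)).mul_right _
    · exact (pow_dvd_pow _ (by omega)).mul_right _
  · rw [dvd_vq, e2]
    push_cast
    rcases Nat.eq_zero_or_pos w with hw | hw
    · subst hw
      have e3 : ((x : ℤ) ^ 2 - D) + (p : ℤ) ^ 1 * (-(2 * x * h')) + (p : ℤ) ^ (1 + 1) * h' ^ 2 =
          (p : ℤ) ^ 1 * (2 * θ * (t - h')) + (p : ℤ) ^ (1 + 1) *
          (z - 2 * h' * (t + p * s) + h' ^ 2) := by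
        rw [e1, hx']
        ring
      rw [e3]
      apply hnot
      intro hd
      rcases hpp.dvd_or_dvd hd with h1 | h1
      · rcases hpp.dvd_or_dvd h1 with h2 | h2
        · exact hp2' h2
        · exact hpθ h2
      · exact hth rfl h1
    · obtain ⟨w', rfl⟩ : ∃ w', w = w' + 1 := ⟨w - 1, by omega⟩
      have e3 : ((x : ℤ) ^ 2 - D) + (p : ℤ) ^ 1 * (-(2 * x * h')) + (p : ℤ) ^ (1 + 1) * h' ^ 2 =
          (p : ℤ) ^ 1 * (-(2 * x * h')) + (p : ℤ) ^ (1 + 1) *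
          (p ^ w' * (2 * θ * t) + p ^ (w' + 1) * z + h' ^ 2) := by
        rw [e1]
        ring
      rw [e3]
      apply hnot
      intro hd
      rw [dvd_neg] at hd
      rcases hpp.dvd_or_dvd hd with h1 | h1
      · rcases hpp.dvd_or_dvd h1 with h2 | h2
        · exact hp2' h2
        · exact hxp h2
      · exact hh' h1

/-- exact exponent at one argument -/
theorem exact_one {D : ℤ} {p : ℕ} (hp : p.Prime) (hp2 : p ≠ 2) (hpD : ¬ (p : ℤ) ∣ D)
    (h0 : ∃ θ : ℕ, p ∣ vq D θ) (w : ℕ) :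
    ∃ x0 : ℕ, ∀ x : ℕ, x ≡ x0 [MOD p ^ (w + 2)] → (vq D x).factorization p = w + 1 := by
  have hpp : Prime (p : ℤ) := Nat.prime_iff_prime_int.1 hp
  obtain ⟨x0, hx0⟩ := exact_two hp hp2 hpD h0 (dvd_refl p) (by
    intro h1
    have h2 := Nat.le_of_dvd hp.pos h1
    have h3 := hp.one_lt
    nlinarith) w
  refine ⟨x0, fun x hx => ?_⟩
  have h1 := (hx0 (x + p * p ^ (w + 2)) (x + p * p ^ (w + 2) - p) (by
    have : p * p ^ (w + 2) ≡ 0 [MOD p ^ (w + 2)] :=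
      (Nat.modEq_zero_iff_dvd).2 (dvd_mul_left _ _)
    simpa using hx.add this) (by
    have h2 : p ≤ p * p ^ (w + 2) := Nat.le_mul_of_pos_right _ (pow_pos hp.pos _)
    omega)).1
  have hmod : x ≡ x + p * p ^ (w + 2) [MOD p ^ (w + 2)] := by
    have : p * p ^ (w + 2) ≡ 0 [MOD p ^ (w + 2)] :=
      (Nat.modEq_zero_iff_dvd).2 (dvd_mul_left _ _)
    simpa using ((Nat.ModEq.refl x).add this).symm
  have hv0 : vq D (x + p * p ^ (w + 2)) ≠ 0 := by
    intro h2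
    rw [h2] at h1
    simp at h1
  have hd1 : p ^ (w + 1) ∣ vq D (x + p * p ^ (w + 2)) := by
    rw [← h1]
    exact Nat.ordProj_dvd _ _
  have hd2 : ¬ p ^ (w + 2) ∣ vq D (x + p * p ^ (w + 2)) := by
    intro h2
    have := (hp.pow_dvd_iff_le_factorization hv0).1 h2
    omega
  apply fac_eq hp
  · exact (vq_congr (hmod.of_dvd (pow_dvd_pow _ (by omega)))).2 hd1
  · intro h2
    exact hd2 ((vq_congr hmod).1 h2)

/-- infinitely many primes for which `D` is a nonzero square -/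
theorem split_infinite {D : ℤ} (hD : ¬ IsSquare D) (B : ℕ) :
    ∃ p : ℕ, p.Prime ∧ B < p ∧ ¬ (p : ℤ) ∣ D ∧ ∃ θ : ℕ, p ∣ vq D θ := by
  have hD0 : D ≠ 0 := by
    rintro rfl
    exact hD ⟨0, by simp⟩
  obtain ⟨B1, hB1⟩ : ∃ B1 : ℕ, B1 = B + D.natAbs + 3 := ⟨_, rfl⟩
  obtain ⟨F, hF⟩ : ∃ F : ℕ, F = B1.factorial := ⟨_, rfl⟩
  have hF3 : B1 ≤ F := by rw [hF]; exact Nat.self_le_factorial B1
  -- `D F ^ 2 - 1`
  obtain ⟨M, hM⟩ : ∃ M : ℕ, M = (D * (F : ℤ) ^ 2 - 1).natAbs := ⟨_, rfl⟩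
  have hM1 : M ≠ 1 := by
    intro h1
    have h2 : (2 : ℤ) < (F : ℤ) := by
      have : 2 < F := by omega
      exact_mod_cast this
    have h3 : |D * (F : ℤ) ^ 2 - 1| = 1 := by
      rw [Int.abs_eq_natAbs, ← hM, h1]
      rfl
    have h4 : 1 ≤ |D| := Int.one_le_abs hD0
    have h5 : |D * (F : ℤ) ^ 2| ≤ 2 := by
      have := abs_add_le (D * (F : ℤ) ^ 2 - 1) 1
      rw [sub_add_cancel, h3, abs_one] at this
      exact this
    rw [abs_mul, abs_of_nonneg (show (0 : ℤ) ≤ (F : ℤ) ^ 2 by positivity)] at h5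
    nlinarith
  obtain ⟨p, hp, hpM⟩ := Nat.exists_prime_and_dvd hM1
  have hpz : (p : ℤ) ∣ D * (F : ℤ) ^ 2 - 1 := by
    rw [hM] at hpM
    exact Int.natCast_dvd.2 hpM
  have hpp : Prime (p : ℤ) := Nat.prime_iff_prime_int.1 hp
  have hpF : ¬ p ∣ F := by
    intro h1
    have h2 : (p : ℤ) ∣ D * (F : ℤ) ^ 2 :=
      (dvd_pow (by exact_mod_cast h1 : (p : ℤ) ∣ (F : ℤ)) (by norm_num)).mul_left _
    have h3 := dvd_sub h2 hpz
    rw [sub_sub_cancel] at h3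
    exact hpp.not_isUnit (isUnit_of_dvd_one h3)
  have hpB : B1 < p := by
    by_contra hle
    exact hpF (by rw [hF]; exact (hp.dvd_factorial).2 (not_lt.1 hle))
  refine ⟨p, hp, by omega, ?_, ?_⟩
  · intro h1
    have h2 := Int.natCast_dvd.1 h1
    have h3 := Nat.le_of_dvd (Int.natAbs_pos.2 hD0) h2
    omega
  · have : Fact p.Prime := ⟨hp⟩
    have hF0 : (F : ZMod p) ≠ 0 := by
      intro h1
      exact hpF ((ZMod.natCast_eq_zero_iff F p).1 h1)
    have h1 : (D : ZMod p) * (F : ZMod p) ^ 2 = 1 := by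
      have h2 := (ZMod.intCast_zmod_eq_zero_iff_dvd (D * (F : ℤ) ^ 2 - 1) p).2 hpz
      push_cast at h2
      linear_combination h2
    refine ⟨((F : ZMod p)⁻¹).val, ?_⟩
    rw [dvd_vq]
    rw [← ZMod.intCast_zmod_eq_zero_iff_dvd]
    push_cast
    rw [ZMod.natCast_val, ZMod.cast_id]
    have h2 : (D : ZMod p) = ((F : ZMod p)⁻¹) ^ 2 := by
      field_simp
      exact h1
    rw [h2]
    simp

open Classical in
/-- the quotients of the values of a quadratic along a progression -/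
theorem good_quad {ι : Type} (D : ι → ℤ) (Q : ℕ) (u c : ι → ℕ) (hQ : 0 < Q)
    (hc : ∀ h m, c h ∣ vq (D h) (Q * m + u h)) (hcQ : ∀ h p, p.Prime → p ∣ c h → p ∣ Q)
    (hc0 : ∀ h, 0 < c h)
    (hn : ∀ h m p, p.Prime → p ∣ Q → ¬ p ∣ vq (D h) (Q * m + u h) / c h) :
    Good (fun h m => vq (D h) (Q * m + u h) / c h) := by
  have key : ∀ h p m, p.Prime → ¬ p ∣ Q →
      (p ∣ vq (D h) (Q * m + u h) / c h ↔ p ∣ vq (D h) (Q * m + u h)) := by
    intro h p m hp hpQ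
    constructor
    · intro h1
      exact h1.trans (Nat.div_dvd_of_dvd (hc h m))
    · intro h1
      rw [← Nat.div_mul_cancel (hc h m)] at h1
      rcases (hp.dvd_mul).1 h1 with h2 | h2
      · exact h2
      · exact absurd (hcQ h p hp h2) hpQ
  constructor
  · intro h p n hp
    show p ∣ vq (D h) (Q * n + u h) / c h ↔ p ∣ vq (D h) (Q * (n % p) + u h) / c h
    by_cases hpQ : p ∣ Q
    · exact ⟨fun h1 => absurd h1 (hn h n p hp hpQ), fun h1 => absurd h1 (hn h _ p hp hpQ)⟩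
    · rw [key h p n hp hpQ, key h p (n % p) hp hpQ]
      apply vq_congr
      exact (Nat.ModEq.mul_left _ (Nat.mod_modEq n p).symm).add_right _
  · intro h p hp
    show ((range p).filter (fun r => p ∣ vq (D h) (Q * r + u h) / c h)).card ≤ 2
    by_cases hpQ : p ∣ Q
    · have : (range p).filter (fun r => p ∣ vq (D h) (Q * r + u h) / c h) = ∅ := by
        rw [filter_eq_empty_iff]
        intro r _
        exact hn h r p hp hpQ
      rw [this]
      simp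
    · have hpp : Prime (p : ℤ) := Nat.prime_iff_prime_int.1 hp
      by_contra hcon
      push Not at hcon
      obtain ⟨a, ha, b, hb, d, hd, hab, had, hbd⟩ := Finset.two_lt_card.1 hcon
      rw [mem_filter, mem_range, key h p _ hp hpQ, dvd_vq] at ha hb hd
      have hne : ∀ r s : ℕ, r < p → s < p → r ≠ s → ¬ (p : ℤ) ∣ (r : ℤ) - s := by
        intro r s hr hs hrs h1
        apply hrs
        have h2 : r ≡ s [MOD p] := ((Nat.modEq_iff_dvd).2 h1).symm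
        have h3 : r % p = s % p := h2
        rwa [Nat.mod_eq_of_lt hr, Nat.mod_eq_of_lt hs] at h3
      have hpQ' : ¬ (p : ℤ) ∣ (Q : ℤ) := fun h1 => hpQ (by exact_mod_cast h1)
      have hpair : ∀ r s : ℕ, r < p → s < p → r ≠ s →
          (p : ℤ) ∣ ((Q * r + u h : ℕ) : ℤ) ^ 2 - D h → (p : ℤ) ∣ ((Q * s + u h : ℕ) : ℤ) ^ 2 - D h →
          (p : ℤ) ∣ (Q : ℤ) * (r + s) + 2 * u h := by
        intro r s hr hs hrs h1 h2
        have h3 := dvd_sub h1 h2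
        have e : ((Q * r + u h : ℕ) : ℤ) ^ 2 - D h - (((Q * s + u h : ℕ) : ℤ) ^ 2 - D h) =
            (Q : ℤ) * (((r : ℤ) - s) * ((Q : ℤ) * (r + s) + 2 * u h)) := by
          push_cast
          ring
        rw [e] at h3
        rcases hpp.dvd_or_dvd h3 with h4 | h4
        · exact absurd h4 hpQ'
        · rcases hpp.dvd_or_dvd h4 with h5 | h5
          · exact absurd h5 (hne r s hr hs hrs)
          · exact h5
      have h1 := hpair a b ha.1 hb.1 hab ha.2 hb.2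
      have h2 := hpair a d ha.1 hd.1 had ha.2 hd.2
      have h3 := dvd_sub h1 h2
      have e : (Q : ℤ) * (a + b) + 2 * u h - ((Q : ℤ) * (a + d) + 2 * u h) =
          (Q : ℤ) * ((b : ℤ) - d) := by ring
      rw [e] at h3
      rcases hpp.dvd_or_dvd h3 with h4 | h4
      · exact hpQ' h4
      · exact hne b d hb.1 hd.1 hbd h4

end Pool.Agent.Y887.QE
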