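import Mathlib

/-!
Few arguments at which `x ^ 2 - D` is divisible by the square of a large prime: the primes up to
`X / (log X) ^ A` are counted trivially, the larger ones give solutions of Pell equations with
small coefficients, and the solutions of one Pell equation in one class grow exponentially.
-/

set_option autoImplicit false

namespace Pool.Agent.Y887.QE

open Finset Filter

/-- a nonsquare times a nonzero square is not a square -/
theorem ns_mul {D u w : ℤ} (hD : ¬ IsSquare D) (h : D * w ^ 2 = u ^ 2) : w = 0 := by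
  by_contra hw
  have h1 : w ^ 2 ∣ u ^ 2 := ⟨D, by rw [← h]; ring⟩
  have h2 : w ∣ u := (Int.pow_dvd_pow_iff (by norm_num)).1 h1
  obtain ⟨c, rfl⟩ := h2
  apply hD
  refine ⟨c, ?_⟩
  have h3 : w ^ 2 * D = w ^ 2 * (c * c) := by rw [mul_comm, h]; ring
  exact mul_left_cancel₀ (pow_ne_zero 2 hw) h3

theorem ns_ne {D x : ℤ} (hD : ¬ IsSquare D) : x ^ 2 - D ≠ 0 := by
  intro h
  apply hD
  exact ⟨x, by linarith [sq x]⟩

/-- the gap between two solutions of a Pell equation in the same class -/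
theorem pell_gap {D m n p n' p' : ℤ} (hD0 : D ≠ 0) (hm : 2 ≤ m) (hn : 0 ≤ n) (hp : 0 < p)
    (hn' : 0 ≤ n') (h : n ^ 2 = D + m * p ^ 2) (h' : n' ^ 2 = D + m * p' ^ 2)
    (hcn : D ∣ n' - n) (hcp : D ∣ p' - p) (hlt : p < p') : 2 * p ≤ p' := by
  have hp' : 0 < p' := by linarith
  obtain ⟨c, hc⟩ := hcn
  obtain ⟨d, hd⟩ := hcp
  have en : n' = n + D * c := by linarith
  have ep : p' = p + D * d := by linarith
  -- the unit
  obtain ⟨u, hu⟩ : ∃ u, n * n' - m * p * p' = D * u := by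
    refine ⟨1 + n * c - m * p * d, ?_⟩
    rw [en, ep]
    linear_combination h
  obtain ⟨w, hw⟩ : ∃ w, n * p' - n' * p = D * w := by
    refine ⟨n * d - c * p, ?_⟩
    rw [en, ep]
    ring
  have e1 : p' = u * p + w * n := by
    have h1 : D * p' = D * (u * p + w * n) := by
      have : D * (u * p + w * n) = (D * u) * p + (D * w) * n := by ring
      rw [this, ← hu, ← hw]
      linear_combination -p' * h
    exact mul_left_cancel₀ hD0 h1
  have e2 : n' = u * n + m * w * p := by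
    have h1 : D * n' = D * (u * n + m * w * p) := by
      have : D * (u * n + m * w * p) = (D * u) * n + m * (D * w) * p := by ring
      rw [this, ← hu, ← hw]
      linear_combination -n' * h
    exact mul_left_cancel₀ hD0 h1
  have e3 : u ^ 2 = 1 + m * w ^ 2 := by
    have h1 : D ^ 2 * u ^ 2 = D ^ 2 * (1 + m * w ^ 2) := by
      have h2 : D ^ 2 * u ^ 2 = (D * u) ^ 2 := by ring
      have h3 : D ^ 2 * (1 + m * w ^ 2) = D ^ 2 + m * (D * w) ^ 2 := by ring
      rw [h2, h3, ← hu, ← hw]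
      have h4 : (n * n' - m * p * p') ^ 2 - m * (n * p' - n' * p) ^ 2 =
          (n ^ 2 - m * p ^ 2) * (n' ^ 2 - m * p' ^ 2) := by ring
      have h5 : n ^ 2 - m * p ^ 2 = D := by linarith
      have h6 : n' ^ 2 - m * p' ^ 2 = D := by linarith
      rw [h5, h6] at h4
      linarith
    exact mul_left_cancel₀ (pow_ne_zero 2 hD0) h1
  have e4 : p = u * p' - w * n' := by
    rw [e1, e2]
    linear_combination p * (-e3)
  have hw0 : w ≠ 0 := by
    rintro rfl
    have h1 : u ^ 2 = 1 := by rw [e3]; ring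
    have h2 : u = 1 ∨ u = -1 := by
      have h3 : (u - 1) * (u + 1) = 0 := by linear_combination h1
      rcases mul_eq_zero.1 h3 with h4 | h4
      · left; linarith
      · right; linarith
    rcases h2 with h2 | h2
    · rw [h2] at e1
      linarith
    · rw [h2] at e1
      linarith
  have hw1 : 1 ≤ w ^ 2 := by
    have : 0 < w ^ 2 := by positivity
    linarith
  have hu3 : 3 ≤ u ^ 2 := by nlinarith
  rcases le_or_gt 0 u with hu0 | hu0
  · have hu2 : 2 ≤ u := by nlinarith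
    rcases le_or_gt 0 w with hw2 | hw2
    · have h1 : 0 ≤ w * n := mul_nonneg hw2 hn
      nlinarith
    · exfalso
      have h1 : 0 ≤ (-w) * n' := mul_nonneg (by linarith) hn'
      nlinarith
  · exfalso
    rcases le_or_gt w 0 with hw2 | hw2
    · have h1 : w * n ≤ 0 := mul_nonpos_of_nonpos_of_nonneg hw2 hn
      have h2 : u * p < 0 := mul_neg_of_neg_of_pos hu0 hp
      linarith
    · have h1 : (-u) * p < w * n := by linarith
      have h2 : 0 ≤ (-u) * p := mul_nonneg (by linarith) hp.le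
      have h3 : ((-u) * p) ^ 2 < (w * n) ^ 2 := by
        apply pow_lt_pow_left₀ h1 h2 (by norm_num)
      have h4 : (w * n) ^ 2 - ((-u) * p) ^ 2 = w ^ 2 * D - p ^ 2 := by
        have : (w * n) ^ 2 - ((-u) * p) ^ 2 = w ^ 2 * n ^ 2 - u ^ 2 * p ^ 2 := by ring
        rw [this, h, e3]
        ring
      have hDp : 0 < w ^ 2 * D := by
        have : 0 < p ^ 2 := by positivity
        linarith
      have hDpos : 0 < D := by
        by_contra hD1
        push Not at hD1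
        have : w ^ 2 * D ≤ 0 := mul_nonpos_of_nonneg_of_nonpos (by positivity) hD1
        linarith
      have h5 : (-u) * n ≤ m * w * p := by linarith
      have h6 : 0 ≤ (-u) * n := mul_nonneg (by linarith) hn
      have h7 : ((-u) * n) ^ 2 ≤ (m * w * p) ^ 2 := pow_le_pow_left₀ h6 h5 2
      have h8 : ((-u) * n) ^ 2 - (m * w * p) ^ 2 = D + m * p ^ 2 + m * w ^ 2 * D := by
        have : ((-u) * n) ^ 2 - (m * w * p) ^ 2 = u ^ 2 * n ^ 2 - m ^ 2 * w ^ 2 * p ^ 2 := by ring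
        rw [this, h, e3]
        ring
      have h9 : 0 < D + m * p ^ 2 + m * w ^ 2 * D := by positivity
      linarith

/-- few solutions in one class modulo the square of a prime -/
theorem root_count {D : ℤ} {p : ℕ} (hp : p.Prime) (hp2 : p ≠ 2) (hpD : ¬ (p : ℤ) ∣ D) (N : ℕ) :
    ((range (N + 1)).filter (fun n : ℕ => (p : ℤ) ^ 2 ∣ (n : ℤ) ^ 2 - D)).card ≤
      2 * (N / p ^ 2 + 1) := by
  classical
  set W := (range (N + 1)).filter (fun n : ℕ => (p : ℤ) ^ 2 ∣ (n : ℤ) ^ 2 - D) with hW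
  rcases W.eq_empty_or_nonempty with he | ⟨n0, hn0⟩
  · rw [he]; simp
  have hpp : Prime (p : ℤ) := Nat.prime_iff_prime_int.1 hp
  have hcl : ∀ r : ℕ, ((range (N + 1)).filter (fun n : ℕ => n ≡ r [MOD p ^ 2])).card ≤
      N / p ^ 2 + 1 := by
    intro r
    rw [← card_range (N / p ^ 2 + 1)]
    apply card_le_card_of_injOn (fun n => n / p ^ 2)
    · intro n hn
      rw [mem_coe, mem_filter, mem_range] at hn
      rw [mem_coe, mem_range]
      exact Nat.lt_succ_of_le (Nat.div_le_div_right (by omega))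
    · intro n hn n' hn' hnn
      rw [mem_coe, mem_filter, mem_range] at hn hn'
      simp only at hnn
      have h1 : n % p ^ 2 = n' % p ^ 2 := hn.2.trans hn'.2.symm
      rw [← Nat.div_add_mod n (p ^ 2), ← Nat.div_add_mod n' (p ^ 2), hnn, h1]
  have hsub : W ⊆ (range (N + 1)).filter (fun n : ℕ => n ≡ n0 [MOD p ^ 2]) ∪
      (range (N + 1)).filter (fun n : ℕ => n ≡ (p ^ 2 - n0 % p ^ 2) [MOD p ^ 2]) := by
    intro n hn
    rw [hW, mem_filter] at hn hn0
    rw [mem_union, mem_filter, mem_filter]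
    have h1 : (p : ℤ) ^ 2 ∣ ((n : ℤ) - n0) * (n + n0) := by
      have := dvd_sub hn.2 hn0.2
      have e : (n : ℤ) ^ 2 - D - ((n0 : ℤ) ^ 2 - D) = ((n : ℤ) - n0) * (n + n0) := by ring
      rwa [e] at this
    by_cases h2 : (p : ℤ) ∣ (n : ℤ) - n0
    · have h3 : ¬ (p : ℤ) ∣ (n : ℤ) + n0 := by
        intro h3
        have h4 := dvd_add h2 h3
        have e : (n : ℤ) - n0 + (n + n0) = 2 * n := by ring
        rw [e] at h4
        rcases hpp.dvd_or_dvd h4 with h5 | h5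
        · have h6 : p ∣ 2 := by exact_mod_cast h5
          exact hp2 ((Nat.prime_dvd_prime_iff_eq hp Nat.prime_two).1 h6)
        · apply hpD
          have h6 : (p : ℤ) ∣ (n : ℤ) ^ 2 := dvd_pow h5 (by norm_num)
          have h7 : (p : ℤ) ∣ (n : ℤ) ^ 2 - D := (dvd_pow_self (p : ℤ) (by norm_num)).trans hn.2
          have h8 := dvd_sub h6 h7
          rwa [sub_sub_cancel] at h8
      have hcop : IsCoprime ((p : ℤ) ^ 2) ((n : ℤ) + n0) :=
        IsCoprime.pow_left ((Prime.coprime_iff_not_dvd hpp).2 h3)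
      have h4 := hcop.dvd_of_dvd_mul_right h1
      left
      refine ⟨hn.1, ?_⟩
      apply Nat.ModEq.symm
      rw [Nat.modEq_iff_dvd]
      push_cast
      exact h4
    · have hcop : IsCoprime ((p : ℤ) ^ 2) ((n : ℤ) - n0) :=
        IsCoprime.pow_left ((Prime.coprime_iff_not_dvd hpp).2 h2)
      have h4 := hcop.dvd_of_dvd_mul_left h1
      right
      refine ⟨hn.1, ?_⟩
      have hlt : n0 % p ^ 2 < p ^ 2 := Nat.mod_lt _ (pow_pos hp.pos 2)
      apply Nat.ModEq.symm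
      rw [Nat.modEq_iff_dvd, Nat.cast_sub hlt.le]
      push_cast
      have h5 : (n : ℤ) - (p ^ 2 - n0 % p ^ 2) = (n + n0) - p ^ 2 - (n0 - n0 % p ^ 2) := by ring
      rw [h5]
      apply dvd_sub (dvd_sub h4 dvd_rfl)
      exact Int.dvd_self_sub_emod
  calc W.card ≤ _ := (card_le_card hsub).trans (card_union_le _ _)
    _ ≤ (N / p ^ 2 + 1) + (N / p ^ 2 + 1) := Nat.add_le_add (hcl _) (hcl _)
    _ = _ := by ring

open Classical in
/-- few solutions of Pell equations with small coefficients -/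
theorem pell_count {D : ℤ} (hD : ¬ IsSquare D) (M N P : ℕ) (hP : D.natAbs < P) :
    ((range (N + 1)).filter (fun n : ℕ => ∃ p m : ℕ, P ≤ p ∧ p ≤ N + P ∧ m ≤ M ∧
      (n : ℤ) ^ 2 = D + m * (p : ℤ) ^ 2)).card ≤
      (M + 1) * (D.natAbs * (D.natAbs * (Nat.log 2 (N + P) + 1))) := by
  have hD0 : D ≠ 0 := by
    rintro rfl
    exact hD ⟨0, by simp⟩
  set W := (range (N + 1)).filter (fun n : ℕ => ∃ p m : ℕ, P ≤ p ∧ p ≤ N + P ∧ m ≤ M ∧
      (n : ℤ) ^ 2 = D + m * (p : ℤ) ^ 2) with hW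
  have hex : ∀ n : ℕ, ∃ pm : ℕ × ℕ, n ∈ W → P ≤ pm.1 ∧ pm.1 ≤ N + P ∧ pm.2 ≤ M ∧
      (n : ℤ) ^ 2 = D + pm.2 * (pm.1 : ℤ) ^ 2 := by
    intro n
    by_cases hn : n ∈ W
    · have h1 := hn
      rw [hW, mem_filter] at h1
      obtain ⟨-, p, m, h2⟩ := h1
      exact ⟨(p, m), fun _ => h2⟩
    · exact ⟨(0, 0), fun h => absurd h hn⟩
  choose pm hpm using hex
  have hm2 : ∀ n ∈ W, 2 ≤ (pm n).2 := by
    intro n hn
    obtain ⟨h1, h2, h3, h4⟩ := hpm n hn
    by_contra hcon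
    push Not at hcon
    have hpP : (D.natAbs : ℤ) < ((pm n).1 : ℤ) := by
      exact_mod_cast lt_of_lt_of_le hP h1
    have habs : |D| < ((pm n).1 : ℤ) := by rwa [← Int.natCast_natAbs]
    have hcase : (pm n).2 = 0 ∨ (pm n).2 = 1 := by omega
    rcases hcase with h5 | h5
    · rw [h5] at h4
      apply hD
      exact ⟨n, by push_cast at h4; linarith [sq (n : ℤ)]⟩
    · rw [h5] at h4
      push_cast at h4
      set q : ℤ := ((pm n).1 : ℤ) with hq
      have hn0 : (0 : ℤ) ≤ n := Int.natCast_nonneg n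
      have hlow := neg_abs_le D
      have hup := le_abs_self D
      have h0 : 0 ≤ |D| := abs_nonneg D
      have h6 : D = ((n : ℤ) - q) * (n + q) := by linarith [sq (n : ℤ)]
      rcases lt_trichotomy ((n : ℤ) - q) 0 with h7 | h7 | h7
      · nlinarith
      · rw [h7] at h6
        apply hD0
        rw [h6]; ring
      · nlinarith
  have hinj : Set.InjOn (fun n : ℕ => ((pm n).2, ((n % D.natAbs), ((pm n).1 % D.natAbs,
      Nat.log 2 (pm n).1)))) (W : Set ℕ) := by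
    intro n hn n' hn' heq
    rw [mem_coe] at hn hn'
    simp only [Prod.mk.injEq] at heq
    obtain ⟨e1, e2, e3, e4⟩ := heq
    obtain ⟨h1, h2, h3, h4⟩ := hpm n hn
    obtain ⟨h1', h2', h3', h4'⟩ := hpm n' hn'
    have hm := hm2 n hn
    have hdvd : ∀ a b : ℕ, a % D.natAbs = b % D.natAbs → D ∣ (a : ℤ) - b := by
      intro a b hab
      have : (D.natAbs : ℤ) ∣ (a : ℤ) - b := (Nat.modEq_iff_dvd).1 (show b ≡ a [MOD D.natAbs] from hab.symm)
      exact (Int.natAbs_dvd).1 this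
    have key : ∀ a b : ℕ, ∀ x y : ℕ × ℕ, x.2 = y.2 → a % D.natAbs = b % D.natAbs →
        x.1 % D.natAbs = y.1 % D.natAbs → Nat.log 2 x.1 = Nat.log 2 y.1 → 2 ≤ x.2 →
        P ≤ x.1 → (a : ℤ) ^ 2 = D + x.2 * (x.1 : ℤ) ^ 2 → (b : ℤ) ^ 2 = D + y.2 * (y.1 : ℤ) ^ 2 →
        x.1 < y.1 → False := by
      intro a b x y g1 g2 g3 g4 g5 g6 g7 g8 g9
      have hx0 : 0 < x.1 := by omega
      have h5 := pell_gap (D := D) (m := (x.2 : ℤ)) (n := a) (p := x.1) (n' := b) (p' := y.1)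
        hD0 (by exact_mod_cast g5) (Int.natCast_nonneg _) (by exact_mod_cast hx0)
        (Int.natCast_nonneg _) g7 (by rw [g8, g1]) (hdvd _ _ g2.symm) (hdvd _ _ g3.symm)
        (by exact_mod_cast g9)
      have h6 : 2 * x.1 ≤ y.1 := by exact_mod_cast h5
      have h7 : Nat.log 2 (x.1 * 2) ≤ Nat.log 2 y.1 := Nat.log_mono_right (by omega)
      rw [Nat.log_mul_base (by norm_num) hx0.ne'] at h7
      omega
    rcases lt_trichotomy (pm n).1 (pm n').1 with hlt | heq' | hgt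
    · exact (key n n' _ _ e1 e2 e3 e4 hm h1 h4 h4' hlt).elim
    · have h5 : (n : ℤ) ^ 2 = (n' : ℤ) ^ 2 := by rw [h4, h4', e1, heq']
      have h6 : (n : ℤ) = n' := by
        have := (sq_eq_sq₀ (Int.natCast_nonneg n) (Int.natCast_nonneg n')).1 h5
        exact this
      exact_mod_cast h6
    · exact (key n' n _ _ e1.symm e2.symm e3.symm e4.symm (by rw [← e1]; exact hm) h1' h4' h4
        hgt).elim
  have hdpos : 0 < D.natAbs := Int.natAbs_pos.2 hD0
  calc W.card ≤ ((range (M + 1)) ×ˢ ((range D.natAbs) ×ˢ ((range D.natAbs) ×ˢ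
        (range (Nat.log 2 (N + P) + 1))))).card := by
        apply card_le_card_of_injOn _ _ hinj
        intro n hn
        rw [mem_coe] at hn
        obtain ⟨h1, h2, h3, h4⟩ := hpm n hn
        rw [mem_coe, mem_product, mem_product, mem_product, mem_range, mem_range, mem_range,
          mem_range]
        refine ⟨?_, Nat.mod_lt _ hdpos, Nat.mod_lt _ hdpos, ?_⟩
        · show (pm n).2 < M + 1
          omega
        · show Nat.log 2 (pm n).1 < Nat.log 2 (N + P) + 1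
          exact Nat.lt_succ_of_le (Nat.log_mono_right h2)
    _ = _ := by simp [card_product]

theorem poly_le (c k : ℕ) : ∀ᶠ q : ℕ in atTop, c * (q + 1) ^ k ≤ 2 ^ q := by
  have h1 := tendsto_pow_const_div_const_pow_of_one_lt k (show (1 : ℝ) < 2 by norm_num)
  have h2 := (tendsto_add_atTop_iff_nat 1).2 h1
  have h3 : (0 : ℝ) < 1 / (2 * (c + 1)) := by positivity
  filter_upwards [h2.eventually_lt_const h3] with q hq
  rw [div_lt_div_iff₀ (by positivity) (by positivity)] at hq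
  have h4 : ((c * (q + 1) ^ k : ℕ) : ℝ) ≤ ((2 ^ q : ℕ) : ℝ) := by
    push_cast at hq ⊢
    have h5 : (0 : ℝ) ≤ ((q : ℝ) + 1) ^ k := by positivity
    rw [pow_succ] at hq
    nlinarith
  exact_mod_cast h4

set_option maxHeartbeats 4000000 in
open Classical in
/-- few arguments at which the value is divisible by the square of a large prime -/
theorem sqf_few {D : ℤ} (hD : ¬ IsSquare D) (C K A : ℕ) (hC : 1 ≤ C) (hK : 1 ≤ K) :
    ∀ᶠ X : ℕ in atTop,
    (((range (C * X + 1)).filter (fun n : ℕ => ∃ p : ℕ, p.Prime ∧ X < p ^ K ∧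
      (p : ℤ) ^ 2 ∣ (n : ℤ) ^ 2 - D)).card : ℝ) ≤ X / Real.log X ^ A := by
  obtain ⟨d, hd⟩ : ∃ d, d = D.natAbs := ⟨_, rfl⟩
  have hlogt : Tendsto (Nat.log 2) atTop atTop := by
    rw [tendsto_atTop]
    intro b
    filter_upwards [eventually_ge_atTop (2 ^ b)] with n hn
    exact Nat.le_log_of_pow_le (by norm_num) hn
  have hdivt : Tendsto (fun l : ℕ => l / K) atTop atTop := by
    rw [tendsto_atTop]
    intro c
    filter_upwards [eventually_ge_atTop (c * K)] with l hl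
    exact (Nat.le_div_iff_mul_le (by omega)).2 hl
  have hq := hdivt.comp hlogt
  filter_upwards [hq.eventually (poly_le (8 * C * K ^ A) A), hq.eventually (poly_le (d + 3) 1),
    hlogt.eventually (poly_le (4 * ((C ^ 2 + 2) * (d * (d * (C + 4))))) (3 * A + 3)),
    hlogt.eventually (poly_le (d + 1) (A + 2)),
    hlogt.eventually_ge_atTop 8] with X h1 h2 h3 h4 h5
  simp only [Function.comp_apply] at h1 h2
  obtain ⟨l, hl⟩ : ∃ l, l = Nat.log 2 X := ⟨_, rfl⟩
  obtain ⟨q, hq⟩ : ∃ q, q = l / K := ⟨_, rfl⟩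
  rw [← hl] at h1 h2 h3 h4 h5
  rw [← hq] at h1 h2
  have hX0 : X ≠ 0 := by
    rintro rfl
    rw [Nat.log_zero_right] at hl
    omega
  have hXl : 2 ^ l ≤ X := by rw [hl]; exact Nat.pow_log_le_self 2 hX0
  have hXu : X < 2 ^ (l + 1) := by rw [hl]; exact Nat.lt_pow_succ_log_self (by norm_num) X
  obtain ⟨y, hy⟩ : ∃ y, y = 2 ^ q := ⟨_, rfl⟩
  rw [← hy] at h1 h2
  have hyd : d + 3 ≤ y := by
    refine le_trans ?_ h2
    rw [pow_one]
    exact Nat.le_mul_of_pos_right _ (Nat.succ_pos _)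
  have hyK : y ^ K ≤ X := by
    calc y ^ K = 2 ^ (q * K) := by rw [hy, ← pow_mul]
      _ ≤ 2 ^ l := Nat.pow_le_pow_right (by norm_num) (by rw [hq]; exact Nat.div_mul_le_self l K)
      _ ≤ X := hXl
  obtain ⟨T, hT⟩ : ∃ T, T = (l + 1) ^ (A + 1) := ⟨_, rfl⟩
  have hTpos : 0 < T := by rw [hT]; positivity
  obtain ⟨P, hP⟩ : ∃ P, P = X / T + 1 := ⟨_, rfl⟩
  have hXPT : X < P * T := by
    rw [hP, mul_comm]
    exact Nat.lt_mul_div_succ X hTpos
  have hdP : d < P := by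
    have h6 : (d + 1) * T ≤ X := by
      calc (d + 1) * T ≤ (d + 1) * (l + 1) ^ (A + 2) := by
            apply Nat.mul_le_mul_left
            rw [hT]
            exact Nat.pow_le_pow_right (Nat.succ_pos _) (by omega)
        _ ≤ 2 ^ l := h4
        _ ≤ X := hXl
    have h7 : d + 1 ≤ X / T := (Nat.le_div_iff_mul_le hTpos).2 h6
    omega
  -- the covering
  have hsub : (range (C * X + 1)).filter (fun n : ℕ => ∃ p : ℕ, p.Prime ∧ X < p ^ K ∧
      (p : ℤ) ^ 2 ∣ (n : ℤ) ^ 2 - D) ⊆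
      (((Ioc y (X / T)).filter Nat.Prime).biUnion fun p =>
        (range (C * X + 1)).filter (fun n : ℕ => (p : ℤ) ^ 2 ∣ (n : ℤ) ^ 2 - D)) ∪
      (range (C * X + 1)).filter (fun n : ℕ => ∃ p m : ℕ, P ≤ p ∧ p ≤ C * X + P ∧
        m ≤ C ^ 2 * T ^ 2 + 1 ∧ (n : ℤ) ^ 2 = D + m * (p : ℤ) ^ 2) := by
    intro n hn
    rw [mem_filter] at hn
    obtain ⟨hn1, p, hp, hpK, hpd⟩ := hn
    have hyp : y < p := by
      by_contra hle
      have := Nat.pow_le_pow_left (not_lt.1 hle) K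
      omega
    rw [mem_union]
    by_cases hpT : p ≤ X / T
    · left
      rw [mem_biUnion]
      exact ⟨p, mem_filter.2 ⟨mem_Ioc.2 ⟨hyp, hpT⟩, hp⟩, mem_filter.2 ⟨hn1, hpd⟩⟩
    · right
      have hPp : P ≤ p := by omega
      obtain ⟨m', hm'⟩ := hpd
      rw [mem_range] at hn1
      have hnX : n ≤ C * X := by omega
      have hpr : (d : ℤ) < p := by exact_mod_cast lt_of_lt_of_le hdP hPp
      have habs : |D| = (d : ℤ) := by rw [hd, Int.natCast_natAbs]
      have hlow := neg_abs_le D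
      have hup := le_abs_self D
      rw [habs] at hlow hup
      have hpp : (p : ℤ) ≤ (p : ℤ) ^ 2 := by
        have : p ≤ p ^ 2 := Nat.le_self_pow (by norm_num) _
        exact_mod_cast this
      have hn0 : (0 : ℤ) ≤ (n : ℤ) ^ 2 := by positivity
      have hm0 : 0 < m' := by
        by_contra hcon
        push Not at hcon
        rcases lt_or_eq_of_le hcon with h6 | h6
        · have h7 : m' ≤ -1 := by omega
          have h8 : (p : ℤ) ^ 2 * m' ≤ (p : ℤ) ^ 2 * (-1) :=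
            mul_le_mul_of_nonneg_left h7 (by positivity)
          linarith
        · rw [h6, mul_zero] at hm'
          exact ns_ne hD hm'
      obtain ⟨m, hm⟩ : ∃ m : ℕ, m' = (m : ℤ) := ⟨m'.toNat, (Int.toNat_of_nonneg hm0.le).symm⟩
      rw [hm] at hm' hm0
      have hm1 : (1 : ℤ) ≤ m := by omega
      refine mem_filter.2 ⟨mem_range.2 hn1, p, m, hPp, ?_, ?_, by linarith⟩
      · by_contra hcon
        push Not at hcon
        have h6 : ((C * X + P : ℕ) : ℤ) < p := by exact_mod_cast hcon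
        have h7 : ((n : ℤ) + P) < p := by
          have : (n : ℤ) ≤ ((C * X : ℕ) : ℤ) := by exact_mod_cast hnX
          push_cast at this h6
          linarith
        have h8 : ((n : ℤ) + P) ^ 2 < (p : ℤ) ^ 2 :=
          pow_lt_pow_left₀ h7 (by positivity) (by norm_num)
        have h9 : (p : ℤ) ^ 2 ≤ (p : ℤ) ^ 2 * m := le_mul_of_one_le_right (by positivity) hm1
        have h10 : (n : ℤ) ^ 2 + P ≤ ((n : ℤ) + P) ^ 2 := by
          have : (P : ℤ) ≤ (P : ℤ) ^ 2 := by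
            have : P ≤ P ^ 2 := Nat.le_self_pow (by norm_num) _
            exact_mod_cast this
          nlinarith [mul_nonneg (Int.natCast_nonneg n) (Int.natCast_nonneg P)]
        have h11 : (d : ℤ) < P := by exact_mod_cast hdP
        linarith
      · by_contra hcon
        push Not at hcon
        have h6 : (C ^ 2 * T ^ 2 + 2 : ℤ) ≤ m := by
          have : C ^ 2 * T ^ 2 + 2 ≤ m := by omega
          exact_mod_cast this
        have hPp' : (P : ℤ) ^ 2 ≤ (p : ℤ) ^ 2 := by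
          have : P ^ 2 ≤ p ^ 2 := Nat.pow_le_pow_left hPp 2
          exact_mod_cast this
        have h7 : (P : ℤ) ^ 2 * (C ^ 2 * T ^ 2 + 2) ≤ (p : ℤ) ^ 2 * m :=
          mul_le_mul hPp' h6 (by positivity) (by positivity)
        have h8 : (n : ℤ) ^ 2 ≤ (P : ℤ) ^ 2 * (C ^ 2 * T ^ 2) := by
          have h9 : n ≤ C * (P * T) := hnX.trans (Nat.mul_le_mul_left _ hXPT.le)
          have h10 : n ^ 2 ≤ (C * (P * T)) ^ 2 := Nat.pow_le_pow_left h9 2
          have h11 : (C * (P * T)) ^ 2 = P ^ 2 * (C ^ 2 * T ^ 2) := by ring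
          rw [h11] at h10
          exact_mod_cast h10
        have h12 : (d : ℤ) < P := by exact_mod_cast hdP
        have h13 : (P : ℤ) ≤ (P : ℤ) ^ 2 := by
          have : P ≤ P ^ 2 := Nat.le_self_pow (by norm_num) _
          exact_mod_cast this
        have h14 : (P : ℤ) ^ 2 * (C ^ 2 * T ^ 2 + 2) = (P : ℤ) ^ 2 * (C ^ 2 * T ^ 2) +
          2 * (P : ℤ) ^ 2 := by ring
        linarith
  -- the two parts
  have hsmall : ((((Ioc y (X / T)).filter Nat.Prime).biUnion fun p =>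
        (range (C * X + 1)).filter (fun n : ℕ => (p : ℤ) ^ 2 ∣ (n : ℤ) ^ 2 - D)).card : ℝ) ≤
      2 * (C * X) * (y : ℝ)⁻¹ + 2 * ((X : ℝ) / T) := by
    have h6 : (((Ioc y (X / T)).filter Nat.Prime).biUnion fun p =>
        (range (C * X + 1)).filter (fun n : ℕ => (p : ℤ) ^ 2 ∣ (n : ℤ) ^ 2 - D)).card ≤
        ∑ p ∈ (Ioc y (X / T)).filter Nat.Prime, 2 * (C * X / p ^ 2 + 1) := by
      refine card_biUnion_le.trans (sum_le_sum fun p hp => ?_)
      rw [mem_filter, mem_Ioc] at hp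
      convert root_count (D := D) hp.2 (by omega) (by
        intro hpD
        have h7 : p ∣ D.natAbs := Int.natCast_dvd.1 hpD
        have h8 : D ≠ 0 := by
          rintro rfl
          exact hD ⟨0, by simp⟩
        have := Nat.le_of_dvd (Int.natAbs_pos.2 h8) h7
        omega) (C * X) using 2
    have h7 : ((((Ioc y (X / T)).filter Nat.Prime).biUnion fun p =>
        (range (C * X + 1)).filter (fun n : ℕ => (p : ℤ) ^ 2 ∣ (n : ℤ) ^ 2 - D)).card : ℝ) ≤
        ((∑ p ∈ (Ioc y (X / T)).filter Nat.Prime, 2 * (C * X / p ^ 2 + 1) : ℕ) : ℝ) := by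
      exact_mod_cast h6
    refine h7.trans ?_
    push_cast
    have h8 : ∀ p ∈ (Ioc y (X / T)).filter Nat.Prime,
        2 * (((C * X / p ^ 2 : ℕ) : ℝ) + 1) ≤ 2 * (C * X) * ((p : ℝ) ^ 2)⁻¹ + 2 := by
      intro p _
      have : ((C * X / p ^ 2 : ℕ) : ℝ) ≤ ((C * X : ℕ) : ℝ) / ((p ^ 2 : ℕ) : ℝ) := Nat.cast_div_le
      push_cast at this
      rw [div_eq_mul_inv] at this
      linarith
    refine (sum_le_sum h8).trans ?_
    rw [sum_add_distrib, ← mul_sum, sum_const, nsmul_eq_mul]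
    have h9 : ∑ p ∈ (Ioc y (X / T)).filter Nat.Prime, ((p : ℝ) ^ 2)⁻¹ ≤ (y : ℝ)⁻¹ := by
      rcases Nat.lt_or_ge (X / T) y with h | h
      · rw [Ioc_eq_empty (by omega)]
        simp
      · calc ∑ p ∈ (Ioc y (X / T)).filter Nat.Prime, ((p : ℝ) ^ 2)⁻¹
            ≤ ∑ p ∈ Ioc y (X / T), ((p : ℝ) ^ 2)⁻¹ :=
              sum_le_sum_of_subset_of_nonneg (filter_subset _ _) (fun _ _ _ => by positivity)
          _ ≤ (y : ℝ)⁻¹ - ((X / T : ℕ) : ℝ)⁻¹ := sum_Ioc_inv_sq_le_sub (by omega) h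
          _ ≤ (y : ℝ)⁻¹ := by
              have : 0 ≤ (((X / T : ℕ) : ℝ))⁻¹ := by positivity
              linarith
    have h10 : (((Ioc y (X / T)).filter Nat.Prime).card : ℝ) ≤ (X : ℝ) / T := by
      refine le_trans ?_ (Nat.cast_div_le (m := X) (n := T))
      have : ((Ioc y (X / T)).filter Nat.Prime).card ≤ X / T :=
        (card_filter_le _ _).trans (by rw [Nat.card_Ioc]; omega)
      exact_mod_cast this
    have h11 : 2 * ((C : ℝ) * X) * ∑ p ∈ (Ioc y (X / T)).filter Nat.Prime, ((p : ℝ) ^ 2)⁻¹ ≤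
        2 * (C * X) * (y : ℝ)⁻¹ := mul_le_mul_of_nonneg_left h9 (by positivity)
    linarith
  have hlarge := pell_count hD (C ^ 2 * T ^ 2 + 1) (C * X) P (by rw [← hd]; exact hdP)
  rw [← hd] at hlarge
  have hPX : C * X + P ≤ 2 ^ (C + l + 3) := by
    have h6 : P ≤ 2 * X := by
      rw [hP]
      have := Nat.div_le_self X T
      omega
    have h7 : C + 2 ≤ 2 ^ (C + 2) := Nat.lt_two_pow_self.le
    calc C * X + P ≤ (C + 2) * X := by nlinarith
      _ ≤ 2 ^ (C + 2) * 2 ^ (l + 1) := Nat.mul_le_mul h7 hXu.le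
      _ = 2 ^ (C + l + 3) := by rw [← pow_add]; ring_nf
  have hlogP : Nat.log 2 (C * X + P) + 1 ≤ (C + 4) * (l + 1) := by
    have h6 : Nat.log 2 (C * X + P) ≤ C + l + 3 := by
      have := Nat.log_mono_right (b := 2) hPX
      rwa [Nat.log_pow (by norm_num)] at this
    nlinarith
  have hlarge2 : ((range (C * X + 1)).filter (fun n : ℕ => ∃ p m : ℕ, P ≤ p ∧ p ≤ C * X + P ∧
        m ≤ C ^ 2 * T ^ 2 + 1 ∧ (n : ℤ) ^ 2 = D + m * (p : ℤ) ^ 2)).card * (4 * (l + 1) ^ A) ≤ X := by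
    have hTT : C ^ 2 * T ^ 2 + 1 + 1 ≤ (C ^ 2 + 2) * T ^ 2 := by
      have : 1 ≤ T ^ 2 := Nat.one_le_pow _ _ hTpos
      nlinarith
    calc ((range (C * X + 1)).filter (fun n : ℕ => ∃ p m : ℕ, P ≤ p ∧ p ≤ C * X + P ∧
        m ≤ C ^ 2 * T ^ 2 + 1 ∧ (n : ℤ) ^ 2 = D + m * (p : ℤ) ^ 2)).card * (4 * (l + 1) ^ A)
        ≤ ((C ^ 2 * T ^ 2 + 1 + 1) * (d * (d * (Nat.log 2 (C * X + P) + 1)))) *
          (4 * (l + 1) ^ A) := Nat.mul_le_mul_right _ hlarge
      _ ≤ (((C ^ 2 + 2) * T ^ 2) * (d * (d * ((C + 4) * (l + 1))))) * (4 * (l + 1) ^ A) := by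
          apply Nat.mul_le_mul_right
          apply Nat.mul_le_mul hTT
          apply Nat.mul_le_mul_left
          apply Nat.mul_le_mul_left
          exact hlogP
      _ = 4 * ((C ^ 2 + 2) * (d * (d * (C + 4)))) * (l + 1) ^ (3 * A + 3) := by
          rw [hT]; ring
      _ ≤ 2 ^ l := h3
      _ ≤ X := hXl
  -- the conclusion
  have hXr : (0 : ℝ) < X := by
    have : 0 < X := Nat.pos_of_ne_zero hX0
    exact_mod_cast this
  have hX8 : 2 ^ 8 ≤ X := (Nat.pow_le_pow_right (by norm_num) h5).trans hXl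
  have hlogX : Real.log X ≤ (l : ℝ) + 1 := by
    have h6 : (X : ℝ) ≤ (2 : ℝ) ^ (l + 1) := by exact_mod_cast hXu.le
    have h7 := Real.log_le_log hXr h6
    rw [Real.log_pow] at h7
    have h8 : Real.log 2 ≤ 1 := by have := Real.log_two_lt_d9; linarith
    push_cast at h7
    nlinarith [show (0 : ℝ) ≤ (l : ℝ) from Nat.cast_nonneg l]
  have hlog1 : 1 ≤ Real.log X := by
    rw [Real.le_log_iff_exp_le hXr]
    have h6 : (256 : ℝ) ≤ X := by exact_mod_cast hX8
    have := Real.exp_one_lt_d9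
    linarith
  have hfinal : (X : ℝ) / ((l : ℝ) + 1) ^ A ≤ X / Real.log X ^ A := by
    apply div_le_div_of_nonneg_left hXr.le (by positivity)
    exact pow_le_pow_left₀ (by linarith) hlogX A
  refine le_trans ?_ hfinal
  have hcov := (card_le_card hsub).trans (card_union_le _ _)
  have hcovr : (((range (C * X + 1)).filter (fun n : ℕ => ∃ p : ℕ, p.Prime ∧ X < p ^ K ∧
      (p : ℤ) ^ 2 ∣ (n : ℤ) ^ 2 - D)).card : ℝ) ≤
      ((((Ioc y (X / T)).filter Nat.Prime).biUnion fun p =>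
        (range (C * X + 1)).filter (fun n : ℕ => (p : ℤ) ^ 2 ∣ (n : ℤ) ^ 2 - D)).card : ℝ) +
      (((range (C * X + 1)).filter (fun n : ℕ => ∃ p m : ℕ, P ≤ p ∧ p ≤ C * X + P ∧
        m ≤ C ^ 2 * T ^ 2 + 1 ∧ (n : ℤ) ^ 2 = D + m * (p : ℤ) ^ 2)).card : ℝ) := by
    exact_mod_cast hcov
  refine hcovr.trans ?_
  have hl1 : (0 : ℝ) < (l : ℝ) + 1 := by positivity
  have hlA : (0 : ℝ) < ((l : ℝ) + 1) ^ A := by positivity
  have hyr : (0 : ℝ) < y := by
    have : 0 < y := by omega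
    exact_mod_cast this
  -- first term
  have t1 : 2 * ((C : ℝ) * X) * (y : ℝ)⁻¹ ≤ 1 / 4 * (X / ((l : ℝ) + 1) ^ A) := by
    have h6 : (l + 1) ≤ K * (q + 1) := by
      have : l < K * (q + 1) := by rw [hq]; exact Nat.lt_mul_div_succ l (by omega)
      omega
    have h7 : 8 * C * (l + 1) ^ A ≤ y := by
      calc 8 * C * (l + 1) ^ A ≤ 8 * C * (K * (q + 1)) ^ A :=
            Nat.mul_le_mul_left _ (Nat.pow_le_pow_left h6 A)
        _ = 8 * C * K ^ A * (q + 1) ^ A := by rw [mul_pow]; ring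
        _ ≤ y := h1
    have h8 : 8 * (C : ℝ) * ((l : ℝ) + 1) ^ A ≤ y := by exact_mod_cast h7
    rw [← div_eq_mul_inv, div_le_iff₀ hyr]
    have h9 : 1 / 4 * ((X : ℝ) / ((l : ℝ) + 1) ^ A) * (8 * C * ((l : ℝ) + 1) ^ A) =
        2 * (C * X) := by
      field_simp
      ring
    calc 2 * ((C : ℝ) * X) = 1 / 4 * ((X : ℝ) / ((l : ℝ) + 1) ^ A) *
          (8 * C * ((l : ℝ) + 1) ^ A) := h9.symm
      _ ≤ 1 / 4 * ((X : ℝ) / ((l : ℝ) + 1) ^ A) * y :=
          mul_le_mul_of_nonneg_left h8 (by positivity)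
  have t2 : 2 * ((X : ℝ) / T) ≤ 1 / 4 * (X / ((l : ℝ) + 1) ^ A) := by
    have h6 : (T : ℝ) = ((l : ℝ) + 1) ^ A * (l + 1) := by
      rw [hT, pow_succ]
      push_cast
      ring
    have h7 : (8 : ℝ) ≤ (l : ℝ) + 1 := by
      have : (8 : ℝ) ≤ l := by exact_mod_cast h5
      linarith
    rw [h6, ← div_div, ← mul_div_assoc, div_le_iff₀ hl1]
    have h8 : 0 ≤ (X : ℝ) / ((l : ℝ) + 1) ^ A := by positivity
    nlinarith
  have t3 : (((range (C * X + 1)).filter (fun n : ℕ => ∃ p m : ℕ, P ≤ p ∧ p ≤ C * X + P ∧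
        m ≤ C ^ 2 * T ^ 2 + 1 ∧ (n : ℤ) ^ 2 = D + m * (p : ℤ) ^ 2)).card : ℝ) ≤
      1 / 4 * (X / ((l : ℝ) + 1) ^ A) := by
    have h6 : (((range (C * X + 1)).filter (fun n : ℕ => ∃ p m : ℕ, P ≤ p ∧ p ≤ C * X + P ∧
        m ≤ C ^ 2 * T ^ 2 + 1 ∧ (n : ℤ) ^ 2 = D + m * (p : ℤ) ^ 2)).card : ℝ) *
        (4 * ((l : ℝ) + 1) ^ A) ≤ X := by exact_mod_cast hlarge2
    rw [← mul_div_assoc, le_div_iff₀ hlA]
    linarith
  have hnn : 0 ≤ (X : ℝ) / ((l : ℝ) + 1) ^ A := by positivity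
  linarith

end Pool.Agent.Y887.QE
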