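import Mathlib
import Pool.Agent.Y887.QE.Sqf
import Pool.Agent.Y887.QE.Quad
import Pool.Agent.H658R2.ED_T2

/-!
The residues for the bipartite design of norm forms.
-/

set_option autoImplicit false

namespace Pool.Agent.Y887.QE

open Finset Filter
open Pool.Agent.Y887.DE (fac_eq)
open Pool.Agent.H658R2.ED (exists_crt_add)

theorem nd {p : ℕ} {a : ℤ} (ha : a ≠ 0) (h : a.natAbs < p) : ¬ (p : ℤ) ∣ a := by
  intro hd
  have h1 := Int.natCast_dvd.1 hd
  have h2 := Nat.le_of_dvd (Int.natAbs_pos.2 ha) h1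
  omega

/-- a family of distinct primes for which `D` is a nonzero square -/
theorem split_family {D : ℤ} (hD : ¬ IsSquare D) (B : ℕ) (E : Type) [Fintype E] :
    ∃ π : E → ℕ, Function.Injective π ∧ ∀ x, (π x).Prime ∧ B < π x ∧ ¬ (π x : ℤ) ∣ D ∧
      ∃ θ : ℕ, π x ∣ vq D θ := by
  classical
  obtain ⟨S, hS⟩ : ∃ S : Set ℕ, ∀ p, p ∈ S ↔ (p.Prime ∧ B < p ∧ ¬ (p : ℤ) ∣ D ∧
      ∃ θ : ℕ, p ∣ vq D θ) := ⟨{p : ℕ | p.Prime ∧ B < p ∧ ¬ (p : ℤ) ∣ D ∧
      ∃ θ : ℕ, p ∣ vq D θ}, fun _ => Iff.rfl⟩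
  have hinf : S.Infinite := by
    apply Set.infinite_of_forall_exists_gt
    intro a
    obtain ⟨p, h1, h2, h3, h4⟩ := split_infinite hD (B + a)
    exact ⟨p, (hS p).2 ⟨h1, by omega, h3, h4⟩, by omega⟩
  have hem := hinf.natEmbedding
  obtain ⟨em⟩ : Nonempty (ℕ ↪ S) := ⟨hem⟩
  refine ⟨fun x => (em ((Fintype.equivFin E) x : Fin _).val : ℕ), ?_, ?_⟩
  · intro x y hxy
    have h1 := em.injective (Subtype.ext hxy)
    exact (Fintype.equivFin E).injective (Fin.ext h1)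
  · intro x
    exact (hS _).1 (em ((Fintype.equivFin E) x : Fin _).val).2

/-- residues modulo the squares of distinct primes and modulo another number -/
theorem crt_option {E : Type} [Fintype E] (M0 : ℕ) (hM0 : 0 < M0) (π : E → ℕ)
    (hπ : Function.Injective π) (hp : ∀ x, (π x).Prime ∧ M0 < π x) (r0 : ℕ) (r : E → ℕ) :
    ∃ X : ℕ, X ≡ r0 [MOD M0] ∧ ∀ x, X ≡ r x [MOD (π x) ^ 2] := by
  obtain ⟨X, hX⟩ := exists_crt_add (ι := Option E)
    (fun o => match o with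
      | none => M0
      | some x => (π x) ^ 2)
    (fun _ => 0)
    (fun o => match o with
      | none => r0
      | some x => r x)
    (by
      intro o
      match o with
      | none => exact hM0
      | some x => exact pow_pos (hp x).1.pos 2)
    (by
      have key : ∀ x, Nat.Coprime M0 ((π x) ^ 2) := by
        intro x
        apply Nat.Coprime.pow_right
        apply Nat.Coprime.symm
        rw [Nat.Prime.coprime_iff_not_dvd (hp x).1]
        intro h1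
        have := Nat.le_of_dvd hM0 h1
        have := (hp x).2
        omega
      intro o o' hne
      match o, o' with
      | none, none => exact absurd rfl hne
      | none, some x => exact key x
      | some x, none => exact (key x).symm
      | some x, some y =>
        have hxy : x ≠ y := fun h => hne (by rw [h])
        apply Nat.Coprime.pow
        exact (Nat.coprime_primes (hp x).1 (hp y).1).2 (fun h => hxy (hπ h)))
  refine ⟨X, ?_, fun x => ?_⟩
  · have := hX none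
    simpa using this
  · have := hX (some x)
    simpa using this

/-- the properties of the residues -/
structure Base (D : ℤ) (b Nn B M0 G0 M : ℕ) (X Z : Fin b → ℕ) (cc : Fin b → Fin b → ℕ) : Prop where
  Mpos : 0 < M
  dvdM : M0 ∣ M
  Xinj : Function.Injective X
  Zinj : Function.Injective Z
  Zpos : ∀ i, 0 < Z i
  Xone : ∀ j, X j ≡ 1 [MOD M0]
  Zzero : ∀ i, M0 ∣ Z i
  big : ∀ j i, G0 + D.natAbs * Z i ^ 2 < X j
  cdvd : ∀ j i t, cc j i ∣ vq (D * (Z i : ℤ) ^ 2) (M * t + X j)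
  cM : ∀ j i p, p.Prime → p ∣ cc j i → p ∣ M
  quo : ∀ j i t p, p.Prime → p ∣ M → ¬ p ∣ vq (D * (Z i : ℤ) ^ 2) (M * t + X j) / cc j i
  csq : ∀ j i, Squarefree (cc j i)
  ccard : ∀ j i, (cc j i).primeFactors.card = Nn
  spl : ∀ j i p, p.Prime → p ∣ cc j i → B < p ∧ ¬ (p : ℤ) ∣ D ∧ ∃ θ : ℕ, p ∣ vq D θ
  lft : ∀ j i j' t p, p.Prime → p ∣ cc j i → j' ≠ j →
    ¬ (p : ℤ) ∣ ((M * t + X j' : ℕ) : ℤ) ^ 2 - ((M * t + X j : ℕ) : ℤ) ^ 2 ∧
    ¬ (p : ℤ) ∣ (((M * t + X j' : ℕ) : ℤ) ^ 2 - ((M * t + X j : ℕ) : ℤ) ^ 2) ^ 2 - 4 * D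
  rgt : ∀ j i i' p, p.Prime → p ∣ cc j i → i' ≠ i →
    ¬ (p : ℤ) ∣ D * (Z i' : ℤ) ^ 2 - D * (Z i : ℤ) ^ 2 ∧
    ¬ (p : ℤ) ∣ (D * (Z i' : ℤ) ^ 2 - D * (Z i : ℤ) ^ 2) ^ 2 - 4 * D
  cop : ∀ j i j' i' t p, p.Prime → p ∣ cc j i → (j', i') ≠ (j, i) →
    ¬ p ∣ vq (D * (Z i' : ℤ) ^ 2) (M * t + X j')

set_option maxHeartbeats 1000000 in
theorem base_exists {D : ℤ} (hD : ¬ IsSquare D) (b Nn B M0 G0 : ℕ) (hM0 : 0 < M0) :
    ∃ (M : ℕ) (X Z : Fin b → ℕ) (cc : Fin b → Fin b → ℕ), Base D b Nn B M0 G0 M X Z cc := by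
  classical
  have hD0 : D ≠ 0 := by
    rintro rfl
    exact hD ⟨0, by simp⟩
  have hD1 : D ≠ 1 := by
    rintro rfl
    exact hD ⟨1, by simp⟩
  have hD4 : D ≠ 4 := by
    rintro rfl
    exact hD ⟨2, by norm_num⟩
  have hD6 : (1 - D) ^ 2 - 4 * D ≠ 0 := by
    intro h
    have h1 : D * 2 ^ 2 = (1 - D) ^ 2 := by linarith
    have := ns_mul hD h1
    norm_num at this
  obtain ⟨B1, hB1⟩ : ∃ B1 : ℕ, B1 = B + M0 + D.natAbs + (1 - D).natAbs + (D - 4).natAbs +
    ((1 - D) ^ 2 - 4 * D).natAbs + 3 := ⟨_, rfl⟩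
  obtain ⟨π, hπinj, hπ⟩ := split_family hD B1 ((Fin b × Fin b) × Fin Nn)
  have hcx : ∀ x, ∃ x0 : ℕ, ∀ y : ℕ, y ≡ x0 [MOD π x ^ 2] → (vq D y).factorization (π x) = 1 := by
    intro x
    obtain ⟨h1, h2, h3, h4⟩ := hπ x
    exact exact_one h1 (by omega) h3 h4 0
  choose c0 hc0 using hcx
  have hpM0 : ∀ x, (π x).Prime ∧ M0 < π x := fun x => ⟨(hπ x).1, by have := (hπ x).2.1; omega⟩
  choose rX hrX using fun j : Fin b => crt_option M0 hM0 π hπinj hpM0 1
    (fun x => if x.1.1 = j then c0 x else 1)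
  choose rZ hrZ using fun i : Fin b => crt_option M0 hM0 π hπinj hpM0 0
    (fun x => if x.1.2 = i then 1 else 0)
  obtain ⟨M, hM⟩ : ∃ M : ℕ, M = M0 * ∏ x, π x ^ 2 := ⟨_, rfl⟩
  have hMpos : 0 < M := by
    rw [hM]
    exact Nat.mul_pos hM0 (prod_pos fun x _ => pow_pos (hπ x).1.pos 2)
  have hM0M : M0 ∣ M := by rw [hM]; exact dvd_mul_right _ _
  have hπM : ∀ x, π x ^ 2 ∣ M := fun x => by
    rw [hM]
    exact (dvd_prod_of_mem _ (mem_univ x)).mul_left _
  have hpM : ∀ p : ℕ, p.Prime → p ∣ M → p ∣ M0 ∨ ∃ x, p = π x := by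
    intro p hp hd
    rw [hM, hp.dvd_mul] at hd
    rcases hd with h | h
    · exact Or.inl h
    · obtain ⟨x, _, hx⟩ := (hp.prime.dvd_finsetProd_iff _).1 h
      exact Or.inr ⟨x, (Nat.prime_dvd_prime_iff_eq hp (hπ x).1).1 (hp.dvd_of_dvd_pow hx)⟩
  obtain ⟨WZ, hWZ⟩ : ∃ WZ : ℕ, WZ = ∑ i, rZ i + 1 := ⟨_, rfl⟩
  obtain ⟨Z, hZ⟩ : ∃ Z : Fin b → ℕ, ∀ i, Z i = rZ i + M * (WZ * (i.val + 1)) := ⟨_, fun _ => rfl⟩
  obtain ⟨WX, hWX⟩ : ∃ WX : ℕ, WX = ∑ j, rX j + (G0 + ∑ i, D.natAbs * Z i ^ 2) + 1 := ⟨_, rfl⟩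
  obtain ⟨X, hX⟩ : ∃ X : Fin b → ℕ, ∀ j, X j = rX j + M * (WX * (j.val + 1)) := ⟨_, fun _ => rfl⟩
  have hinj : ∀ (r : Fin b → ℕ) (W : ℕ) (hW : ∀ j, r j < W) (Y : Fin b → ℕ)
      (hY : ∀ j, Y j = r j + M * (W * (j.val + 1))), Function.Injective Y := by
    intro r W hW Y hY
    have hlt : ∀ j j' : Fin b, j.val < j'.val → Y j < Y j' := by
      intro j j' hjj
      rw [hY, hY]
      have h1 := hW j
      have h2 : W * (j.val + 1) + W ≤ W * (j'.val + 1) := by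
        calc W * (j.val + 1) + W = W * (j.val + 1 + 1) := by ring
          _ ≤ _ := Nat.mul_le_mul_left _ (by omega)
      have h3 : M * (W * (j.val + 1) + W) ≤ M * (W * (j'.val + 1)) := Nat.mul_le_mul_left _ h2
      have h4 : W ≤ M * W := Nat.le_mul_of_pos_left _ hMpos
      rw [mul_add] at h3
      omega
    intro j j' hjj
    rcases lt_trichotomy j.val j'.val with h | h | h
    · have := hlt _ _ h
      omega
    · exact Fin.ext h
    · have := hlt _ _ h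
      omega
  have hXinj : Function.Injective X := hinj rX WX (fun j => by
    have := single_le_sum (f := fun j => rX j) (fun _ _ => Nat.zero_le _) (mem_univ j)
    rw [hWX]
    omega) X hX
  have hZinj : Function.Injective Z := hinj rZ WZ (fun j => by
    have := single_le_sum (f := fun j => rZ j) (fun _ _ => Nat.zero_le _) (mem_univ j)
    rw [hWZ]
    omega) Z hZ
  have hbig : ∀ j i, G0 + D.natAbs * Z i ^ 2 < X j := by
    intro j i
    have h1 := single_le_sum (f := fun i => D.natAbs * Z i ^ 2) (fun _ _ => Nat.zero_le _)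
      (mem_univ i)
    have h2 : WX ≤ M * (WX * (j.val + 1)) := by
      calc WX ≤ WX * (j.val + 1) := Nat.le_mul_of_pos_right _ (Nat.succ_pos _)
        _ ≤ _ := Nat.le_mul_of_pos_left _ hMpos
    rw [hX]
    omega
  have hZpos : ∀ i, 0 < Z i := by
    intro i
    rw [hZ]
    have h2 : WZ ≤ M * (WZ * (i.val + 1)) := by
      calc WZ ≤ WZ * (i.val + 1) := Nat.le_mul_of_pos_right _ (Nat.succ_pos _)
        _ ≤ _ := Nat.le_mul_of_pos_left _ hMpos
    omega
  -- residues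
  have hXt : ∀ j t m, m ∣ M → M * t + X j ≡ rX j [MOD m] := by
    intro j t m hm
    have h1 : M * t + X j = rX j + M * (t + WX * (j.val + 1)) := by rw [hX]; ring
    rw [h1]
    have h2 : M * (t + WX * (j.val + 1)) ≡ 0 [MOD m] :=
      (Nat.modEq_zero_iff_dvd).2 (hm.mul_right _)
    simpa using (Nat.ModEq.refl (rX j)).add h2
  have hZt : ∀ i m, m ∣ M → Z i ≡ rZ i [MOD m] := by
    intro i m hm
    rw [hZ]
    have h2 : M * (WZ * (i.val + 1)) ≡ 0 [MOD m] := (Nat.modEq_zero_iff_dvd).2 (hm.mul_right _)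
    simpa using (Nat.ModEq.refl (rZ i)).add h2
  have hXπ : ∀ j t x, M * t + X j ≡ (if x.1.1 = j then c0 x else 1) [MOD π x ^ 2] :=
    fun j t x => (hXt j t _ (hπM x)).trans ((hrX j).2 x)
  have hZπ : ∀ i x, Z i ≡ (if x.1.2 = i then 1 else 0) [MOD π x ^ 2] :=
    fun i x => (hZt i _ (hπM x)).trans ((hrZ i).2 x)
  have hcast : ∀ {a c m : ℕ}, a ≡ c [MOD m] → (m : ℤ) ∣ (a : ℤ) - c := fun h =>
    (Nat.modEq_iff_dvd).1 h.symm
  -- integer forms
  have hXc : ∀ t x, (π x : ℤ) ∣ ((M * t + X x.1.1 : ℕ) : ℤ) ^ 2 - D := by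
    intro t x
    have h1 := hXπ x.1.1 t x
    rw [if_pos rfl] at h1
    have h2 := hc0 x _ h1
    have h3 : π x ∣ vq D (M * t + X x.1.1) := Nat.dvd_of_factorization_pos (by rw [h2]; norm_num)
    exact dvd_vq.1 h3
  have hX1 : ∀ j t x, x.1.1 ≠ j → (π x : ℤ) ^ 2 ∣ ((M * t + X j : ℕ) : ℤ) - 1 := by
    intro j t x hne
    have h1 := hXπ j t x
    rw [if_neg hne] at h1
    have := hcast h1
    push_cast at this ⊢
    exact this
  have hZ1 : ∀ x, (π x : ℤ) ^ 2 ∣ (Z x.1.2 : ℤ) - 1 := by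
    intro x
    have h1 := hZπ x.1.2 x
    rw [if_pos rfl] at h1
    have := hcast h1
    push_cast at this
    exact this
  have hZ0 : ∀ i x, x.1.2 ≠ i → (π x : ℤ) ^ 2 ∣ (Z i : ℤ) := by
    intro i x hne
    have h1 := hZπ i x
    rw [if_neg hne] at h1
    have := hcast h1
    push_cast at this
    rwa [sub_zero] at this
  have hπ1 : ∀ x, (π x : ℤ) ∣ (π x : ℤ) ^ 2 := fun x => dvd_pow_self _ (by norm_num)
  have hπD : ∀ x, ¬ (π x : ℤ) ∣ D := fun x => (hπ x).2.2.1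
  have hπbig : ∀ x, B1 < π x := fun x => (hπ x).2.1
  obtain ⟨cc, hcc⟩ : ∃ cc : Fin b → Fin b → ℕ, ∀ j i, cc j i = ∏ k : Fin Nn, π ((j, i), k) :=
    ⟨_, fun _ _ => rfl⟩
  have hpcc : ∀ j i p, p.Prime → p ∣ cc j i → ∃ k, p = π ((j, i), k) := by
    intro j i p hp hd
    rw [hcc] at hd
    obtain ⟨k, _, hk⟩ := (hp.prime.dvd_finsetProd_iff _).1 hd
    exact ⟨k, (Nat.prime_dvd_prime_iff_eq hp (hπ _).1).1 hk⟩
  have hπcc : ∀ j i k, π ((j, i), k) ∣ cc j i := fun j i k => by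
    rw [hcc]
    exact dvd_prod_of_mem _ (mem_univ k)
  -- exact exponent of the primes of the line
  have hexact : ∀ x t, (π x : ℤ) ∣ ((M * t + X x.1.1 : ℕ) : ℤ) ^ 2 - D * (Z x.1.2 : ℤ) ^ 2 ∧
      ¬ (π x : ℤ) ^ 2 ∣ ((M * t + X x.1.1 : ℕ) : ℤ) ^ 2 - D * (Z x.1.2 : ℤ) ^ 2 := by
    intro x t
    have h1 := hXπ x.1.1 t x
    rw [if_pos rfl] at h1
    have h2 := hc0 x _ h1
    have h4 : (π x : ℤ) ^ 2 ∣ D * (Z x.1.2 : ℤ) ^ 2 - D := by
      have e : D * (Z x.1.2 : ℤ) ^ 2 - D = ((Z x.1.2 : ℤ) - 1) * (D * ((Z x.1.2 : ℤ) + 1)) := by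
        ring
      rw [e]
      exact (hZ1 x).mul_right _
    have e2 : ((M * t + X x.1.1 : ℕ) : ℤ) ^ 2 - D * (Z x.1.2 : ℤ) ^ 2 =
        (((M * t + X x.1.1 : ℕ) : ℤ) ^ 2 - D) - (D * (Z x.1.2 : ℤ) ^ 2 - D) := by ring
    constructor
    · rw [e2]
      exact dvd_sub (hXc t x) ((hπ1 x).trans h4)
    · intro h5
      rw [e2] at h5
      have h6 := (dvd_sub_left h4).1 h5
      have h7 : π x ^ 2 ∣ vq D (M * t + X x.1.1) := by
        rw [dvd_vq]
        push_cast at h6 ⊢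
        exact h6
      have h8 := ((hπ x).1.pow_dvd_iff_le_factorization (vq_pos hD _).ne').1 h7
      omega
  -- primes of other lines do not divide
  have hother : ∀ x j' i' t, (j', i') ≠ x.1 →
      ¬ (π x : ℤ) ∣ ((M * t + X j' : ℕ) : ℤ) ^ 2 - D * (Z i' : ℤ) ^ 2 := by
    intro x j' i' t hne hd
    by_cases hj : x.1.1 = j'
    · have hi : x.1.2 ≠ i' := by
        intro h
        apply hne
        rw [← hj, ← h]
      have h1 : (π x : ℤ) ∣ D * (Z i' : ℤ) ^ 2 :=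
        (dvd_pow ((hπ1 x).trans (hZ0 i' x hi)) (by norm_num)).mul_left _
      have h2 := (dvd_sub_left h1).1 hd
      rw [← hj] at h2
      have h3 := dvd_sub h2 (hXc t x)
      rw [sub_sub_cancel] at h3
      exact hπD x h3
    · have h1 := (hπ1 x).trans (hX1 j' t x hj)
      have h2 : (π x : ℤ) ∣ ((M * t + X j' : ℕ) : ℤ) ^ 2 - 1 := by
        have e : ((M * t + X j' : ℕ) : ℤ) ^ 2 - 1 =
          (((M * t + X j' : ℕ) : ℤ) - 1) * (((M * t + X j' : ℕ) : ℤ) + 1) := by ring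
        rw [e]
        exact h1.mul_right _
      have h3 := dvd_sub h2 hd
      have e : ((M * t + X j' : ℕ) : ℤ) ^ 2 - 1 -
          (((M * t + X j' : ℕ) : ℤ) ^ 2 - D * (Z i' : ℤ) ^ 2) = D * (Z i' : ℤ) ^ 2 - 1 := by ring
      rw [e] at h3
      by_cases hi : x.1.2 = i'
      · have h4 : (π x : ℤ) ∣ D * (Z i' : ℤ) ^ 2 - D := by
          rw [← hi]
          have e : D * (Z x.1.2 : ℤ) ^ 2 - D = ((Z x.1.2 : ℤ) - 1) * (D * ((Z x.1.2 : ℤ) + 1)) := by
            ring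
          rw [e]
          exact ((hπ1 x).trans (hZ1 x)).mul_right _
        have h5 := dvd_sub h4 h3
        have e2 : D * (Z i' : ℤ) ^ 2 - D - (D * (Z i' : ℤ) ^ 2 - 1) = 1 - D := by ring
        rw [e2] at h5
        exact nd (sub_ne_zero.2 (Ne.symm hD1)) (by have := hπbig x; omega) h5
      · have h4 : (π x : ℤ) ∣ D * (Z i' : ℤ) ^ 2 :=
          (dvd_pow ((hπ1 x).trans (hZ0 i' x hi)) (by norm_num)).mul_left _
        have h5 := dvd_sub h4 h3
        rw [sub_sub_cancel] at h5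
        exact (Nat.prime_iff_prime_int.1 (hπ x).1).not_isUnit (isUnit_of_dvd_one h5)
  have hcdvd : ∀ j i t, cc j i ∣ vq (D * (Z i : ℤ) ^ 2) (M * t + X j) := by
    intro j i t
    rw [hcc]
    have h1 : ∏ k : Fin Nn, π ((j, i), k) = ∏ p ∈ univ.image (fun k : Fin Nn => π ((j, i), k)), p := by
      rw [prod_image]
      intro k _ k' _ hkk
      have := hπinj hkk
      simpa using this
    rw [h1]
    apply Finset.prod_primes_dvd
    · intro p hp
      obtain ⟨k, -, rfl⟩ := mem_image.1 hp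
      exact (hπ _).1.prime
    · intro p hp
      obtain ⟨k, -, rfl⟩ := mem_image.1 hp
      rw [dvd_vq]
      exact (hexact ((j, i), k) t).1
  have hccsq : ∀ j i, Squarefree (cc j i) := by
    intro j i
    rw [Nat.squarefree_iff_prime_squarefree]
    intro p hp hd
    obtain ⟨k, rfl⟩ := hpcc j i p hp ((dvd_mul_right _ _).trans hd)
    have h1 := hd.trans (hcdvd j i 0)
    rw [← pow_two, dvd_vq] at h1
    push_cast at h1
    have := (hexact ((j, i), k) 0).2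
    push_cast at this
    exact this h1
  refine ⟨M, X, Z, cc, ?_⟩
  constructor
  · exact hMpos
  · exact hM0M
  · exact hXinj
  · exact hZinj
  · exact hZpos
  · intro j
    have := (hXt j 0 M0 hM0M).trans (hrX j).1
    simpa using this
  · intro i
    exact (Nat.modEq_zero_iff_dvd).1 ((hZt i M0 hM0M).trans (hrZ i).1)
  · exact hbig
  · exact hcdvd
  · intro j i p hp hd
    obtain ⟨k, rfl⟩ := hpcc j i p hp hd
    exact (dvd_pow_self _ (by norm_num)).trans (hπM _)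
  · intro j i t p hp hpM' hd
    have hv := hd.trans (Nat.div_dvd_of_dvd (hcdvd j i t))
    rw [dvd_vq] at hv
    rcases hpM p hp hpM' with h0 | ⟨x, rfl⟩
    · have h1 : (p : ℤ) ∣ ((M * t + X j : ℕ) : ℤ) - 1 := by
        have := hcast (((hXt j t M0 hM0M).trans (hrX j).1).of_dvd h0)
        exact_mod_cast this
      have h2 : (p : ℤ) ∣ (Z i : ℤ) := by
        have := ((hZt i M0 hM0M).trans (hrZ i).1).of_dvd h0
        exact_mod_cast (Nat.modEq_zero_iff_dvd).1 this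
      have h3 : (p : ℤ) ∣ D * (Z i : ℤ) ^ 2 := (dvd_pow h2 (by norm_num)).mul_left _
      have h4 := (dvd_sub_left h3).1 hv
      have h5 : (p : ℤ) ∣ ((M * t + X j : ℕ) : ℤ) ^ 2 - 1 := by
        have e : ((M * t + X j : ℕ) : ℤ) ^ 2 - 1 =
          (((M * t + X j : ℕ) : ℤ) - 1) * (((M * t + X j : ℕ) : ℤ) + 1) := by ring
        rw [e]
        exact h1.mul_right _
      have h6 := dvd_sub h4 h5
      rw [sub_sub_cancel] at h6
      exact (Nat.prime_iff_prime_int.1 hp).not_isUnit (isUnit_of_dvd_one h6)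
    · by_cases hx : (j, i) = x.1
      · have hcx : π x ∣ cc j i := by
          have : x = ((j, i), x.2) := by rw [hx]
          rw [this]
          exact hπcc j i x.2
        have h1 : π x * π x ∣ vq (D * (Z i : ℤ) ^ 2) (M * t + X j) := by
          rw [← Nat.div_mul_cancel (hcdvd j i t)]
          exact Nat.mul_dvd_mul hd hcx
        rw [← pow_two, dvd_vq] at h1
        push_cast at h1
        have h2 := (hexact x t).2
        rw [← hx] at h2
        push_cast at h2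
        exact h2 h1
      · exact hother x j i t hx hv
  · exact hccsq
  · intro j i
    have h1 : (cc j i).primeFactors = univ.image (fun k : Fin Nn => π ((j, i), k)) := by
      ext p
      rw [Nat.mem_primeFactors, mem_image]
      constructor
      · rintro ⟨hp, hd, -⟩
        obtain ⟨k, hk⟩ := hpcc j i p hp hd
        exact ⟨k, mem_univ _, hk.symm⟩
      · rintro ⟨k, -, rfl⟩
        exact ⟨(hπ _).1, hπcc j i k, (hccsq j i).ne_zero⟩
    rw [h1, card_image_of_injective, card_univ, Fintype.card_fin]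
    intro k k' hkk
    have := hπinj hkk
    simpa using this
  · intro j i p hp hd
    obtain ⟨k, rfl⟩ := hpcc j i p hp hd
    obtain ⟨h1, h2, h3, h4⟩ := hπ ((j, i), k)
    exact ⟨by omega, h3, h4⟩
  · intro j i j' t p hp hd hne
    obtain ⟨k, rfl⟩ := hpcc j i p hp hd
    have h1 := (hπ1 _).trans (hX1 j' t ((j, i), k) (Ne.symm hne))
    have h2 : (π ((j, i), k) : ℤ) ∣ ((M * t + X j' : ℕ) : ℤ) ^ 2 - 1 := by
      have e : ((M * t + X j' : ℕ) : ℤ) ^ 2 - 1 =
        (((M * t + X j' : ℕ) : ℤ) - 1) * (((M * t + X j' : ℕ) : ℤ) + 1) := by ring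
      rw [e]
      exact h1.mul_right _
    have h3 := hXc t ((j, i), k)
    have h4 : (π ((j, i), k) : ℤ) ∣ (((M * t + X j' : ℕ) : ℤ) ^ 2 -
        ((M * t + X j : ℕ) : ℤ) ^ 2) - (1 - D) := by
      have e : (((M * t + X j' : ℕ) : ℤ) ^ 2 - ((M * t + X j : ℕ) : ℤ) ^ 2) - (1 - D) =
        (((M * t + X j' : ℕ) : ℤ) ^ 2 - 1) - (((M * t + X j : ℕ) : ℤ) ^ 2 - D) := by ring
      rw [e]
      exact dvd_sub h2 h3
    constructor
    · intro h5
      have h6 := dvd_sub h5 h4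
      rw [sub_sub_cancel] at h6
      exact nd (sub_ne_zero.2 (Ne.symm hD1)) (by have := hπbig ((j, i), k); omega) h6
    · intro h5
      obtain ⟨dd, hdd⟩ : ∃ dd : ℤ, dd = ((M * t + X j' : ℕ) : ℤ) ^ 2 -
        ((M * t + X j : ℕ) : ℤ) ^ 2 := ⟨_, rfl⟩
      rw [← hdd] at h4 h5
      have h6 : (π ((j, i), k) : ℤ) ∣ dd ^ 2 - (1 - D) ^ 2 := by
        have e : dd ^ 2 - (1 - D) ^ 2 = (dd - (1 - D)) * (dd + (1 - D)) := by ring
        rw [e]
        exact h4.mul_right _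
      have h7 := dvd_sub h5 h6
      have e : dd ^ 2 - 4 * D - (dd ^ 2 - (1 - D) ^ 2) = (1 - D) ^ 2 - 4 * D := by ring
      rw [e] at h7
      exact nd hD6 (by have := hπbig ((j, i), k); omega) h7
  · intro j i i' p hp hd hne
    obtain ⟨k, rfl⟩ := hpcc j i p hp hd
    have h1 := (hπ1 _).trans (hZ0 i' ((j, i), k) (Ne.symm hne))
    have h2 := (hπ1 _).trans (hZ1 ((j, i), k))
    have h4 : (π ((j, i), k) : ℤ) ∣ (D * (Z i' : ℤ) ^ 2 - D * (Z i : ℤ) ^ 2) + D := by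
      have e : (D * (Z i' : ℤ) ^ 2 - D * (Z i : ℤ) ^ 2) + D = (Z i' : ℤ) * (D * Z i') -
        ((Z i : ℤ) - 1) * (D * ((Z i : ℤ) + 1)) := by ring
      rw [e]
      exact dvd_sub (h1.mul_right _) (h2.mul_right _)
    constructor
    · intro h5
      have h6 := dvd_sub h4 h5
      rw [add_sub_cancel_left] at h6
      exact hπD _ h6
    · intro h5
      obtain ⟨dd, hdd⟩ : ∃ dd : ℤ, dd = D * (Z i' : ℤ) ^ 2 - D * (Z i : ℤ) ^ 2 := ⟨_, rfl⟩
      rw [← hdd] at h4 h5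
      have h6 : (π ((j, i), k) : ℤ) ∣ dd ^ 2 - D ^ 2 := by
        have e : dd ^ 2 - D ^ 2 = (dd + D) * (dd - D) := by ring
        rw [e]
        exact h4.mul_right _
      have h7 := dvd_sub h5 h6
      have e : dd ^ 2 - 4 * D - (dd ^ 2 - D ^ 2) = D * (D - 4) := by ring
      rw [e] at h7
      rcases (Nat.prime_iff_prime_int.1 (hπ ((j, i), k)).1).dvd_or_dvd h7 with h8 | h8
      · exact hπD _ h8
      · exact nd (sub_ne_zero.2 hD4) (by have := hπbig ((j, i), k); omega) h8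
  · intro j i j' i' t p hp hd hne h1
    obtain ⟨k, rfl⟩ := hpcc j i p hp hd
    rw [dvd_vq] at h1
    exact hother ((j, i), k) j' i' t hne h1

end Pool.Agent.Y887.QE
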