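import Mathlib
import Pool.Agent.Y887.QE.SvB
import Pool.Agent.Y887.QE.Sqf
import Pool.Agent.Y887.QE.Quad

/-!
The sieve for a system of quadratics along a progression: squarefree values with few prime factors.
-/

set_option autoImplicit false

namespace Pool.Agent.Y887.QE

open Finset Filter

open Classical in
theorem quad_sieve : ∃ C1 : ℕ, 1 ≤ C1 ∧ ∀ κ : ℕ, 1 ≤ κ → ∃ K : ℕ, 1 ≤ K ∧
    ∀ (ι : Type) [Fintype ι], Fintype.card ι = κ →
    ∀ (D : ι → ℤ) (Q : ℕ) (u c : ι → ℕ), (∀ h, ¬ IsSquare (D h)) → 0 < Q →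
    (∀ h m, c h ∣ vq (D h) (Q * m + u h)) → (∀ h p, p.Prime → p ∣ c h → p ∣ Q) →
    (∀ h m p, p.Prime → p ∣ Q → ¬ p ∣ vq (D h) (Q * m + u h) / c h) →
    (∀ p : ℕ, p.Prime → p ≤ 4 * κ → p ∣ Q) →
    ∀ᶠ X : ℕ in atTop, (X : ℝ) / Real.log X ^ K ≤
      (((Icc 1 X).filter (fun m => (∀ h, Squarefree (vq (D h) (Q * m + u h) / c h)) ∧
        ∑ h, (vq (D h) (Q * m + u h) / c h).primeFactors.card ≤
          κ * (C1 * (Nat.log 2 κ + 1)) ∧
        ∀ h, ∀ p : ℕ, p.Prime → p ∣ vq (D h) (Q * m + u h) / c h → X < p ^ K)).card : ℝ) := by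
  obtain ⟨C1, hC1, hS⟩ := sieveV
  refine ⟨C1, hC1, fun κ hκ => ?_⟩
  obtain ⟨K, X0, hS⟩ := hS κ hκ
  refine ⟨K + 2, by omega, ?_⟩
  intro ι _ hcard D Q u c hD hQ hc hcQ hn hsmall
  have hv0 : ∀ h m, 0 < vq (D h) (Q * m + u h) := fun h m => vq_pos (hD h) _
  have hc0 : ∀ h, 0 < c h := fun h => Nat.pos_of_ne_zero (by
    intro h0
    have := hc h 0
    rw [h0, zero_dvd_iff] at this
    have := hv0 h 0
    omega)
  obtain ⟨C, hC⟩ : ∃ C : ℕ, C = Q + ∑ h, u h + ∑ h, (D h).natAbs + 1 := ⟨_, rfl⟩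
  have hCu : ∀ h, u h ≤ ∑ h, u h := fun h =>
    single_le_sum (f := fun h => u h) (fun _ _ => Nat.zero_le _) (mem_univ h)
  have hCD : ∀ h, (D h).natAbs ≤ ∑ h, (D h).natAbs := fun h =>
    single_le_sum (f := fun h => (D h).natAbs) (fun _ _ => Nat.zero_le _) (mem_univ h)
  have hgood := good_quad D Q u c hQ hc hcQ hc0 hn
  have hlogX : Tendsto (fun X : ℕ => Real.log (X : ℝ)) atTop atTop :=
    Real.tendsto_log_atTop.comp tendsto_natCast_atTop_atTop
  have hsq : ∀ᶠ X : ℕ in atTop, ∀ h : ι,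
      (((range (C * X + 1)).filter (fun n : ℕ => ∃ p : ℕ, p.Prime ∧ X < p ^ (K + 2) ∧
        (p : ℤ) ^ 2 ∣ (n : ℤ) ^ 2 - D h)).card : ℝ) ≤ X / Real.log X ^ (K + 1) := by
    rw [eventually_all]
    intro h
    exact sqf_few (hD h) C (K + 2) (K + 1) (by omega) (by omega)
  filter_upwards [eventually_ge_atTop X0, hsq, hlogX.eventually_ge_atTop (2 * κ + 2),
    eventually_ge_atTop (4 * C ^ 2 + 2)] with X hX0 hXs hXl hXC
  have hX1 : 1 ≤ X := by omega
  have hCX : ∀ h, ∀ m ≤ X, Q * m + u h ≤ C * X := by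
    intro h m hm
    have h1 : Q * m ≤ Q * X := Nat.mul_le_mul_left _ hm
    have h2 : u h ≤ (∑ h, u h) * X := (hCu h).trans (Nat.le_mul_of_pos_right _ hX1)
    calc Q * m + u h ≤ Q * X + (∑ h, u h) * X := Nat.add_le_add h1 h2
      _ = (Q + ∑ h, u h) * X := by ring
      _ ≤ C * X := Nat.mul_le_mul_right _ (by omega)
  have hmain := hS X hX0 ι hcard (fun h m => vq (D h) (Q * m + u h) / c h) hgood
    (fun p hp hpκ h n => hn h n p hp (hsmall p hp hpκ)) (by
      intro h m hm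
      constructor
      · exact Nat.div_pos (Nat.le_of_dvd (hv0 h m) (hc h m)) (hc0 h)
      · have h1 := hCX h m hm
        have h2 : (D h).natAbs ≤ C * X := by
          refine (hCD h).trans (le_trans ?_ (Nat.le_mul_of_pos_right _ hX1))
          omega
        calc vq (D h) (Q * m + u h) / c h ≤ vq (D h) (Q * m + u h) := Nat.div_le_self _ _
          _ ≤ (Q * m + u h) ^ 2 + (D h).natAbs := vq_le _ _
          _ ≤ (C * X) ^ 2 + C * X := Nat.add_le_add (Nat.pow_le_pow_left h1 2) h2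
          _ ≤ (2 * C ^ 2) * X ^ 2 := by
              have h3 : C * X ≤ (C * X) ^ 2 := Nat.le_self_pow (by norm_num) _
              calc (C * X) ^ 2 + C * X ≤ (C * X) ^ 2 + (C * X) ^ 2 := Nat.add_le_add_left h3 _
                _ = _ := by ring
          _ ≤ X * X ^ 2 := Nat.mul_le_mul_right _ (by omega)
          _ = X ^ 3 := by ring)
  have hlog1 : 1 ≤ Real.log X := by
    have : (0 : ℝ) ≤ κ := Nat.cast_nonneg _
    linarith
  -- the exceptional arguments
  have hexc : ∀ h : ι, (((Icc 1 X).filter (fun m => ∃ p : ℕ, p.Prime ∧ X < p ^ (K + 2) ∧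
      p ^ 2 ∣ vq (D h) (Q * m + u h))).card : ℝ) ≤ X / Real.log X ^ (K + 1) := by
    intro h
    refine le_trans ?_ (hXs h)
    have : ((Icc 1 X).filter (fun m => ∃ p : ℕ, p.Prime ∧ X < p ^ (K + 2) ∧
      p ^ 2 ∣ vq (D h) (Q * m + u h))).card ≤
      ((range (C * X + 1)).filter (fun n : ℕ => ∃ p : ℕ, p.Prime ∧ X < p ^ (K + 2) ∧
        (p : ℤ) ^ 2 ∣ (n : ℤ) ^ 2 - D h)).card := by
      apply card_le_card_of_injOn (fun m => Q * m + u h)
      · intro m hm
        rw [mem_coe, mem_filter, mem_Icc] at hm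
        obtain ⟨hm1, p, hp, hpX, hpd⟩ := hm
        rw [mem_coe, mem_filter, mem_range]
        refine ⟨by
          show Q * m + u h < C * X + 1
          have := hCX h m hm1.2
          omega, p, hp, hpX, ?_⟩
        rw [dvd_vq] at hpd
        push_cast at hpd ⊢
        exact hpd
      · intro m _ m' _ hmm
        have h1 : Q * m = Q * m' := by
          have : Q * m + u h = Q * m' + u h := hmm
          omega
        exact Nat.eq_of_mul_eq_mul_left hQ h1
    exact_mod_cast this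
  have hsub : (Icc 1 X).filter (fun m =>
        ∑ h, (vq (D h) (Q * m + u h) / c h).primeFactors.card ≤
          κ * (C1 * (Nat.log 2 κ + 1)) ∧
        ∀ h, ∀ p : ℕ, p.Prime → p ∣ vq (D h) (Q * m + u h) / c h → X < p ^ K) ⊆
      (Icc 1 X).filter (fun m => (∀ h, Squarefree (vq (D h) (Q * m + u h) / c h)) ∧
        ∑ h, (vq (D h) (Q * m + u h) / c h).primeFactors.card ≤
          κ * (C1 * (Nat.log 2 κ + 1)) ∧
        ∀ h, ∀ p : ℕ, p.Prime → p ∣ vq (D h) (Q * m + u h) / c h → X < p ^ (K + 2)) ∪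
      (univ : Finset ι).biUnion (fun h => (Icc 1 X).filter (fun m => ∃ p : ℕ, p.Prime ∧
        X < p ^ (K + 2) ∧ p ^ 2 ∣ vq (D h) (Q * m + u h))) := by
    intro m hm
    rw [mem_filter] at hm
    obtain ⟨hm1, hm2, hm3⟩ := hm
    have hm4 : ∀ h, ∀ p : ℕ, p.Prime → p ∣ vq (D h) (Q * m + u h) / c h → X < p ^ (K + 2) :=
      fun h p hp hpd => (hm3 h p hp hpd).trans_le (Nat.pow_le_pow_right hp.pos (by omega))
    rw [mem_union]
    by_cases hs : ∀ h, Squarefree (vq (D h) (Q * m + u h) / c h)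
    · left
      rw [mem_filter]
      exact ⟨hm1, hs, hm2, hm4⟩
    · right
      push Not at hs
      obtain ⟨h, hh⟩ := hs
      rw [Nat.squarefree_iff_prime_squarefree] at hh
      push Not at hh
      obtain ⟨p, hp, hpp⟩ := hh
      rw [mem_biUnion]
      refine ⟨h, mem_univ _, mem_filter.2 ⟨hm1, p, hp, hm4 h p hp ((dvd_mul_right p p).trans hpp),
        ?_⟩⟩
      rw [pow_two]
      exact hpp.trans (Nat.div_dvd_of_dvd (hc h m))
  have hcardle := (card_le_card hsub).trans ((card_union_le _ _).trans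
    (Nat.add_le_add_left card_biUnion_le _))
  have hcardr : (((Icc 1 X).filter (fun m =>
        ∑ h, (vq (D h) (Q * m + u h) / c h).primeFactors.card ≤
          κ * (C1 * (Nat.log 2 κ + 1)) ∧
        ∀ h, ∀ p : ℕ, p.Prime → p ∣ vq (D h) (Q * m + u h) / c h → X < p ^ K)).card : ℝ) ≤
      (((Icc 1 X).filter (fun m => (∀ h, Squarefree (vq (D h) (Q * m + u h) / c h)) ∧
        ∑ h, (vq (D h) (Q * m + u h) / c h).primeFactors.card ≤
          κ * (C1 * (Nat.log 2 κ + 1)) ∧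
        ∀ h, ∀ p : ℕ, p.Prime → p ∣ vq (D h) (Q * m + u h) / c h → X < p ^ (K + 2))).card : ℝ) +
      ∑ h : ι, (((Icc 1 X).filter (fun m => ∃ p : ℕ, p.Prime ∧
        X < p ^ (K + 2) ∧ p ^ 2 ∣ vq (D h) (Q * m + u h))).card : ℝ) := by
    exact_mod_cast hcardle
  have hsumexc : ∑ h : ι, (((Icc 1 X).filter (fun m => ∃ p : ℕ, p.Prime ∧
        X < p ^ (K + 2) ∧ p ^ 2 ∣ vq (D h) (Q * m + u h))).card : ℝ) ≤
      κ * (X / Real.log X ^ (K + 1)) := by
    refine (sum_le_sum fun h _ => hexc h).trans ?_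
    rw [sum_const, card_univ, hcard, nsmul_eq_mul]
  have hXr : (0 : ℝ) ≤ X := Nat.cast_nonneg _
  have e1 : (X : ℝ) / Real.log X ^ K = Real.log X * (X / Real.log X ^ (K + 1)) := by
    have h1 : Real.log X ≠ 0 := by linarith
    rw [pow_succ]
    field_simp
  have e2 : (X : ℝ) / Real.log X ^ (K + 2) ≤ X / Real.log X ^ (K + 1) := by
    apply div_le_div_of_nonneg_left hXr (by positivity)
    exact pow_le_pow_right₀ hlog1 (by omega)
  have hpos : 0 ≤ (X : ℝ) / Real.log X ^ (K + 1) := by positivity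
  have h9 : (κ + 1) * ((X : ℝ) / Real.log X ^ (K + 1)) ≤
      Real.log X * (X / Real.log X ^ (K + 1)) :=
    mul_le_mul_of_nonneg_right (by
      have : (0 : ℝ) ≤ κ := Nat.cast_nonneg _
      linarith) hpos
  rw [e1] at hmain
  linarith

end Pool.Agent.Y887.QE
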