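import Mathlib
import Pool.Agent.Y887.QE.QSv
import Pool.Agent.Y887.QE.DesA

/-!
The bipartite design of norm forms: many numbers `X_j ^ 2 - D Z_i ^ 2`, all of them squarefree with
nearly the same number of prime factors, pairwise coprime.
-/

set_option autoImplicit false

namespace Pool.Agent.Y887.QE

open Finset Filter

/-- the design -/
structure Dsg (D : ℤ) (b Nn Cc B M0 G0 : ℕ) (h : Fin b → Fin b → ℕ) (s0 s1 : Fin b → ℕ) :
    Prop where
  eq : ∀ j i, s0 j = s1 i + h j i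
  sq : ∀ j i, Squarefree (h j i)
  lo : ∀ j i, Nn ≤ (h j i).primeFactors.card
  hi : ∀ j i, (h j i).primeFactors.card ≤ Nn + Cc
  one : ∀ j i, h j i ≡ 1 [MOD M0]
  s0one : ∀ j, s0 j ≡ 1 [MOD M0]
  s1zero : ∀ i, s1 i ≡ 0 [MOD M0]
  G : ∀ j i, G0 ≤ h j i
  spl : ∀ j i p, p.Prime → p ∣ h j i → B < p ∧ ¬ (p : ℤ) ∣ D ∧ ∃ θ : ℕ, p ∣ vq D θ
  cop : ∀ j i j' i', (j', i') ≠ (j, i) → Nat.Coprime (h j i) (h j' i')
  lft : ∀ j i j' p, p.Prime → p ∣ h j i → j' ≠ j →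
    ¬ (p : ℤ) ∣ (s0 j' : ℤ) - s0 j ∧ ¬ (p : ℤ) ∣ ((s0 j' : ℤ) - s0 j) ^ 2 - 4 * D
  rgt : ∀ j i i' p, p.Prime → p ∣ h j i → i' ≠ i →
    ¬ (p : ℤ) ∣ (s1 i' : ℤ) - s1 i ∧ ¬ (p : ℤ) ∣ ((s1 i' : ℤ) - s1 i) ^ 2 - 4 * D

set_option maxHeartbeats 2000000 in
theorem design : ∃ C1 : ℕ, 1 ≤ C1 ∧ ∀ (D : ℤ), ¬ IsSquare D → ∀ b : ℕ, 1 ≤ b →
    ∀ Nn B M0 G0 : ℕ, 0 < M0 → (∀ p : ℕ, p.Prime → p ≤ 4 * (b * b) → p ∣ M0) →
    ∃ (h : Fin b → Fin b → ℕ) (s0 s1 : Fin b → ℕ),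
      Dsg D b Nn (b * b * (C1 * (Nat.log 2 (b * b) + 1))) B M0 G0 h s0 s1 := by
  classical
  obtain ⟨C1, hC1, hS⟩ := quad_sieve
  refine ⟨C1, hC1, fun D hD b hb Nn B M0 G0 hM0 hsmall => ?_⟩
  have hD0 : D ≠ 0 := by
    rintro rfl
    exact hD ⟨0, by simp⟩
  obtain ⟨M, X, Z, cc, H⟩ := base_exists hD b Nn B M0 (G0 + 1) hM0
  obtain ⟨K, hK1, hS⟩ := hS (b * b) (Nat.mul_pos hb hb)
  have hDZ : ∀ i, ¬ IsSquare (D * (Z i : ℤ) ^ 2) := by
    rintro i ⟨r, hr⟩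
    have h1 := ns_mul hD (u := r) (by rw [hr]; ring)
    have := H.Zpos i
    omega
  have hev := hS (Fin b × Fin b) (by simp) (fun e => D * (Z e.2 : ℤ) ^ 2) M (fun e => X e.1)
    (fun e => cc e.1 e.2) (fun e => hDZ e.2) H.Mpos (fun e t => H.cdvd e.1 e.2 t)
    (fun e p hp hd => H.cM e.1 e.2 p hp hd) (fun e t p hp hd => H.quo e.1 e.2 t p hp hd)
    (fun p hp hle => (hsmall p hp hle).trans H.dvdM)
  -- the constants
  obtain ⟨cf, hcf⟩ : ∃ cf : Fin b → Fin b → ℤ, ∀ j j', cf j j' = (X j' : ℤ) - X j :=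
    ⟨_, fun _ _ => rfl⟩
  obtain ⟨A2, hA2⟩ : ∃ A2 : Fin b → Fin b → Fin b → ℤ, ∀ j j' i,
      A2 j j' i = cf j j' ^ 2 - 4 * D * (Z i : ℤ) ^ 2 := ⟨_, fun _ _ _ => rfl⟩
  obtain ⟨A3, hA3⟩ : ∃ A3 : Fin b → Fin b → Fin b → ℤ, ∀ j j' i,
      A3 j j' i = (4 * cf j j' ^ 2 * D * (Z i : ℤ) ^ 2 + cf j j' ^ 4 - 4 * D) ^ 2 -
        16 * cf j j' ^ 6 * D * (Z i : ℤ) ^ 2 := ⟨_, fun _ _ _ => rfl⟩
  obtain ⟨A4, hA4⟩ : ∃ A4 : Fin b → Fin b → ℤ, ∀ i i',
      A4 i i' = D * (Z i' : ℤ) ^ 2 - D * (Z i : ℤ) ^ 2 := ⟨_, fun _ _ => rfl⟩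
  obtain ⟨A5, hA5⟩ : ∃ A5 : Fin b → Fin b → ℤ, ∀ i i',
      A5 i i' = D * ((Z i' : ℤ) ^ 2 - (Z i : ℤ) ^ 2) ^ 2 - 4 := ⟨_, fun _ _ => rfl⟩
  obtain ⟨A6, hA6⟩ : ∃ A6 : Fin b → Fin b → Fin b → Fin b → ℤ, ∀ j j' i i',
      A6 j j' i i' = (cf j j' ^ 2 - D * ((Z i : ℤ) + Z i') ^ 2) *
        (cf j j' ^ 2 - D * ((Z i : ℤ) - Z i') ^ 2) := ⟨_, fun _ _ _ _ => rfl⟩
  obtain ⟨R0, hR0⟩ : ∃ R0 : ℕ, R0 = B + D.natAbs + ∑ j, ∑ j', ∑ i, ∑ i', (Z i + (cf j j').natAbs +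
      (A2 j j' i).natAbs + (A3 j j' i).natAbs + (A4 i i').natAbs + (A5 i i').natAbs +
      (A6 j j' i i').natAbs) := ⟨_, rfl⟩
  have hR : ∀ j j' i i', B + D.natAbs + (Z i + (cf j j').natAbs +
      (A2 j j' i).natAbs + (A3 j j' i).natAbs + (A4 i i').natAbs + (A5 i i').natAbs +
      (A6 j j' i i').natAbs) ≤ R0 := by
    intro j j' i i'
    rw [hR0]
    apply Nat.add_le_add_left
    have h1 := single_le_sum (f := fun i' => (Z i + (cf j j').natAbs +
      (A2 j j' i).natAbs + (A3 j j' i).natAbs + (A4 i i').natAbs + (A5 i i').natAbs +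
      (A6 j j' i i').natAbs)) (fun _ _ => Nat.zero_le _) (mem_univ i')
    have h2 := single_le_sum (f := fun i => ∑ i', (Z i + (cf j j').natAbs +
      (A2 j j' i).natAbs + (A3 j j' i).natAbs + (A4 i i').natAbs + (A5 i i').natAbs +
      (A6 j j' i i').natAbs)) (fun _ _ => Nat.zero_le _) (mem_univ i)
    have h3 := single_le_sum (f := fun j' => ∑ i, ∑ i', (Z i + (cf j j').natAbs +
      (A2 j j' i).natAbs + (A3 j j' i).natAbs + (A4 i i').natAbs + (A5 i i').natAbs +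
      (A6 j j' i i').natAbs)) (fun _ _ => Nat.zero_le _) (mem_univ j')
    have h4 := single_le_sum (f := fun j => ∑ j', ∑ i, ∑ i', (Z i + (cf j j').natAbs +
      (A2 j j' i).natAbs + (A3 j j' i).natAbs + (A4 i i').natAbs + (A5 i i').natAbs +
      (A6 j j' i i').natAbs)) (fun _ _ => Nat.zero_le _) (mem_univ j)
    exact h1.trans (h2.trans (h3.trans h4))
  have hcf0 : ∀ j j', j' ≠ j → cf j j' ≠ 0 := by
    intro j j' hne h0
    rw [hcf] at h0
    apply hne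
    apply H.Xinj
    omega
  have hZZ : ∀ i i', i' ≠ i → (Z i' : ℤ) ^ 2 - (Z i : ℤ) ^ 2 ≠ 0 := by
    intro i i' hne h0
    apply hne
    apply H.Zinj
    have h1 : (Z i' : ℤ) ^ 2 = (Z i : ℤ) ^ 2 := by linarith
    have := (sq_eq_sq₀ (Int.natCast_nonneg (Z i')) (Int.natCast_nonneg (Z i))).1 h1
    exact_mod_cast this
  have hZpos : ∀ i, (0 : ℤ) < Z i := fun i => by exact_mod_cast H.Zpos i
  have hA2n : ∀ j j' i, j' ≠ j → A2 j j' i ≠ 0 := by
    intro j j' i _ h0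
    rw [hA2] at h0
    have h1 := ns_mul hD (w := 2 * (Z i : ℤ)) (u := cf j j') (by linarith [h0])
    have := hZpos i
    omega
  have hA3n : ∀ j j' i, j' ≠ j → A3 j j' i ≠ 0 := by
    intro j j' i hne h0
    rw [hA3] at h0
    have h1 := ns_mul hD (w := 4 * cf j j' ^ 3 * (Z i : ℤ))
      (u := 4 * cf j j' ^ 2 * D * (Z i : ℤ) ^ 2 + cf j j' ^ 4 - 4 * D) (by linear_combination -h0)
    have h2 := pow_ne_zero 3 (hcf0 j j' hne)
    have h3 := (hZpos i).ne'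
    rcases mul_eq_zero.1 h1 with h4 | h4
    · rcases mul_eq_zero.1 h4 with h5 | h5
      · norm_num at h5
      · exact h2 h5
    · exact h3 h4
  have hA4n : ∀ i i', i' ≠ i → A4 i i' ≠ 0 := by
    intro i i' hne h0
    rw [hA4] at h0
    have h1 : D * ((Z i' : ℤ) ^ 2 - (Z i : ℤ) ^ 2) = 0 := by linear_combination h0
    rcases mul_eq_zero.1 h1 with h2 | h2
    · exact hD0 h2
    · exact hZZ i i' hne h2
  have hA5n : ∀ i i', i' ≠ i → A5 i i' ≠ 0 := by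
    intro i i' hne h0
    rw [hA5] at h0
    have h1 := ns_mul hD (w := (Z i' : ℤ) ^ 2 - (Z i : ℤ) ^ 2) (u := 2) (by linear_combination h0)
    exact hZZ i i' hne h1
  have hA6n : ∀ j j' i i', (j', i') ≠ (j, i) → A6 j j' i i' ≠ 0 := by
    intro j j' i i' hne h0
    rw [hA6] at h0
    rcases mul_eq_zero.1 h0 with h1 | h1
    · have h2 := ns_mul hD (w := (Z i : ℤ) + Z i') (u := cf j j') (by linear_combination -h1)
      have := hZpos i
      have := hZpos i'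
      omega
    · have h2 := ns_mul hD (w := (Z i : ℤ) - Z i') (u := cf j j') (by linear_combination -h1)
      have h3 : Z i = Z i' := by omega
      have h4 := H.Zinj h3
      rw [h2] at h1
      have h5 : cf j j' ^ 2 = 0 := by linarith
      have h6 : cf j j' = 0 := pow_eq_zero_iff (by norm_num) |>.1 h5
      have h7 : j' = j := by
        by_contra hne'
        exact hcf0 j j' hne' h6
      exact hne (by rw [h7, h4])
  -- the parameter
  obtain ⟨X1, hX1⟩ := eventually_atTop.1 (hev.and (eventually_ge_atTop (R0 ^ K + 3)))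
  obtain ⟨hcount, hX1R⟩ := hX1 X1 le_rfl
  have hne : ((Icc 1 X1).filter (fun m => (∀ e : Fin b × Fin b,
      Squarefree (vq (D * (Z e.2 : ℤ) ^ 2) (M * m + X e.1) / cc e.1 e.2)) ∧
        ∑ e : Fin b × Fin b, (vq (D * (Z e.2 : ℤ) ^ 2) (M * m + X e.1) /
          cc e.1 e.2).primeFactors.card ≤ b * b * (C1 * (Nat.log 2 (b * b) + 1)) ∧
        ∀ e : Fin b × Fin b, ∀ p : ℕ, p.Prime →
          p ∣ vq (D * (Z e.2 : ℤ) ^ 2) (M * m + X e.1) / cc e.1 e.2 → X1 < p ^ K)).Nonempty := by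
    rw [nonempty_iff_ne_empty]
    intro he
    rw [he, card_empty, Nat.cast_zero] at hcount
    have h1 : (3 : ℝ) ≤ X1 := by
      have : 3 ≤ X1 := by omega
      exact_mod_cast this
    have h2 : 0 < Real.log X1 := Real.log_pos (by linarith)
    have h3 : 0 < (X1 : ℝ) / Real.log X1 ^ K := by positivity
    linarith
  obtain ⟨t, ht⟩ := hne
  rw [mem_filter] at ht
  obtain ⟨-, hsqf, hsum, hrough⟩ := ht
  obtain ⟨x, hx⟩ : ∃ x : Fin b → ℕ, ∀ j, x j = M * t + X j := ⟨_, fun _ => rfl⟩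
  obtain ⟨v, hv⟩ : ∃ v : Fin b → Fin b → ℕ, ∀ j i,
      v j i = vq (D * (Z i : ℤ) ^ 2) (x j) / cc j i := ⟨_, fun _ _ => rfl⟩
  obtain ⟨h, hh⟩ : ∃ h : Fin b → Fin b → ℕ, ∀ j i, h j i = vq (D * (Z i : ℤ) ^ 2) (x j) :=
    ⟨_, fun _ _ => rfl⟩
  have hcv : ∀ j i, h j i = cc j i * v j i := by
    intro j i
    rw [hh, hv, Nat.mul_div_cancel']
    rw [hx]
    exact H.cdvd j i t
  have hvsq : ∀ j i, Squarefree (v j i) := by
    intro j i
    have := hsqf (j, i)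
    rw [hv, hx]
    exact this
  have hvM : ∀ j i p, p.Prime → p ∣ M → ¬ p ∣ v j i := by
    intro j i p hp hpM
    rw [hv, hx]
    exact H.quo j i t p hp hpM
  have hvR : ∀ j i p, p.Prime → p ∣ v j i → R0 < p := by
    intro j i p hp hpv
    rw [hv, hx] at hpv
    have h1 := hrough (j, i) p hp hpv
    by_contra hle
    have := Nat.pow_le_pow_left (not_lt.1 hle) K
    omega
  have hcopcv : ∀ j i, Nat.Coprime (cc j i) (v j i) := by
    intro j i
    rw [Nat.coprime_iff_gcd_eq_one]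
    by_contra hne
    obtain ⟨p, hp, hpd⟩ := Nat.exists_prime_and_dvd hne
    exact hvM j i p hp (H.cM j i p hp (hpd.trans (Nat.gcd_dvd_left _ _)))
      (hpd.trans (Nat.gcd_dvd_right _ _))
  have hhsq : ∀ j i, Squarefree (h j i) := by
    intro j i
    rw [hcv, Nat.squarefree_mul (hcopcv j i)]
    exact ⟨H.csq j i, hvsq j i⟩
  have hhcard : ∀ j i, (h j i).primeFactors.card = Nn + (v j i).primeFactors.card := by
    intro j i
    rw [hcv, (hcopcv j i).primeFactors_mul,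
      card_union_of_disjoint (hcopcv j i).disjoint_primeFactors, H.ccard]
  have hvcard : ∀ j i, (v j i).primeFactors.card ≤ b * b * (C1 * (Nat.log 2 (b * b) + 1)) := by
    intro j i
    refine le_trans ?_ hsum
    have := single_le_sum (f := fun e : Fin b × Fin b => (vq (D * (Z e.2 : ℤ) ^ 2) (M * t + X e.1) /
          cc e.1 e.2).primeFactors.card) (fun _ _ => Nat.zero_le _) (mem_univ (j, i))
    rw [hv, hx]
    exact this
  -- integer values
  have hposx : ∀ j i, (G0 : ℤ) + 1 < (x j : ℤ) ^ 2 - D * (Z i : ℤ) ^ 2 := by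
    intro j i
    have h1 := H.big j i
    have h2 : (((G0 + 1) + D.natAbs * Z i ^ 2 : ℕ) : ℤ) < X j := by exact_mod_cast h1
    have h3 : (X j : ℤ) ≤ x j := by
      rw [hx]
      push_cast
      have : (0 : ℤ) ≤ (M : ℤ) * t := by positivity
      linarith
    have h4 : (x j : ℤ) ≤ (x j : ℤ) ^ 2 := by
      have : x j ≤ x j ^ 2 := Nat.le_self_pow (by norm_num) _
      exact_mod_cast this
    have h5 : D * (Z i : ℤ) ^ 2 ≤ (D.natAbs : ℤ) * (Z i : ℤ) ^ 2 := by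
      apply mul_le_mul_of_nonneg_right _ (by positivity)
      rw [Int.natCast_natAbs]
      exact le_abs_self D
    push_cast at h2
    push_cast at h5
    linarith
  have hhz : ∀ j i, (h j i : ℤ) = (x j : ℤ) ^ 2 - D * (Z i : ℤ) ^ 2 := by
    intro j i
    rw [hh]
    unfold vq
    rw [Int.natCast_natAbs, abs_of_pos]
    have := hposx j i
    have : (0 : ℤ) ≤ G0 := Int.natCast_nonneg _
    linarith
  obtain ⟨w, hw⟩ : ∃ w : ℕ, w = M0 * ∑ i, D.natAbs * Z i ^ 2 := ⟨_, rfl⟩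
  have hwi : ∀ i, (D.natAbs : ℤ) * (Z i : ℤ) ^ 2 ≤ w := by
    intro i
    have h1 := single_le_sum (f := fun i => D.natAbs * Z i ^ 2) (fun _ _ => Nat.zero_le _)
      (mem_univ i)
    have h2 : D.natAbs * Z i ^ 2 ≤ w := by
      rw [hw]
      exact h1.trans (Nat.le_mul_of_pos_left _ hM0)
    exact_mod_cast h2
  have hs1n : ∀ i, 0 ≤ (w : ℤ) + D * (Z i : ℤ) ^ 2 := by
    intro i
    have h1 := hwi i
    have h2 : -((D.natAbs : ℤ) * (Z i : ℤ) ^ 2) ≤ D * (Z i : ℤ) ^ 2 := by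
      rw [← neg_mul]
      apply mul_le_mul_of_nonneg_right _ (by positivity)
      rw [Int.natCast_natAbs]
      exact neg_abs_le D
    linarith
  obtain ⟨s0, hs0⟩ : ∃ s0 : Fin b → ℕ, ∀ j, s0 j = w + x j ^ 2 := ⟨_, fun _ => rfl⟩
  obtain ⟨s1, hs1⟩ : ∃ s1 : Fin b → ℕ, ∀ i, s1 i = ((w : ℤ) + D * (Z i : ℤ) ^ 2).toNat :=
    ⟨_, fun _ => rfl⟩
  have hs1z : ∀ i, (s1 i : ℤ) = (w : ℤ) + D * (Z i : ℤ) ^ 2 := by
    intro i
    rw [hs1, Int.toNat_of_nonneg (hs1n i)]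
  have hs0z : ∀ j, (s0 j : ℤ) = (w : ℤ) + (x j : ℤ) ^ 2 := by
    intro j
    rw [hs0]
    push_cast
    ring
  -- a prime factor of `h j i`
  have hpcase : ∀ j i p, p.Prime → p ∣ h j i → p ∣ cc j i ∨ (R0 < p ∧ p ∣ v j i) := by
    intro j i p hp hd
    rw [hcv, hp.dvd_mul] at hd
    rcases hd with h1 | h1
    · exact Or.inl h1
    · exact Or.inr ⟨hvR j i p hp h1, h1⟩
  have hpz : ∀ j i p, p ∣ h j i → (p : ℤ) ∣ (x j : ℤ) ^ 2 - D * (Z i : ℤ) ^ 2 := by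
    intro j i p hd
    rw [← hhz]
    exact_mod_cast hd
  have hxx : ∀ j j', (x j' : ℤ) = x j + cf j j' := by
    intro j j'
    rw [hx, hx, hcf]
    push_cast
    ring
  -- coprimality
  have hcopz : ∀ j i j' i' p, p.Prime → (j', i') ≠ (j, i) → R0 < p → p ∣ h j i → ¬ p ∣ h j' i' := by
    intro j i j' i' p hp hne hpR hd hd'
    have h1 := hpz j i p hd
    have h2 := hpz j' i' p hd'
    rw [hxx j j'] at h2
    have h3 : (p : ℤ) ∣ 2 * cf j j' * x j + (cf j j' ^ 2 + D * (Z i : ℤ) ^ 2 - D * (Z i' : ℤ) ^ 2) := by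
      have := dvd_sub h2 h1
      have e : ((x j : ℤ) + cf j j') ^ 2 - D * (Z i' : ℤ) ^ 2 - ((x j : ℤ) ^ 2 - D * (Z i : ℤ) ^ 2) =
        2 * cf j j' * x j + (cf j j' ^ 2 + D * (Z i : ℤ) ^ 2 - D * (Z i' : ℤ) ^ 2) := by ring
      rwa [e] at this
    have h4 : (p : ℤ) ∣ A6 j j' i i' := by
      have e : A6 j j' i i' = -((2 * cf j j' * x j + (cf j j' ^ 2 + D * (Z i : ℤ) ^ 2 -
          D * (Z i' : ℤ) ^ 2)) * (2 * cf j j' * x j - (cf j j' ^ 2 + D * (Z i : ℤ) ^ 2 -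
          D * (Z i' : ℤ) ^ 2))) + ((x j : ℤ) ^ 2 - D * (Z i : ℤ) ^ 2) * (4 * cf j j' ^ 2) := by
        rw [hA6]
        ring
      rw [e]
      exact dvd_add ((dvd_neg).2 (h3.mul_right _)) (h1.mul_right _)
    exact nd (hA6n j j' i i' hne) (by have := hR j j' i i'; omega) h4
  refine ⟨h, s0, s1, ?_⟩
  constructor
  · intro j i
    have h1 : (s0 j : ℤ) = s1 i + h j i := by
      rw [hs0z, hs1z, hhz]
      ring
    exact_mod_cast h1
  · exact hhsq
  · intro j i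
    rw [hhcard]
    exact Nat.le_add_right _ _
  · intro j i
    rw [hhcard]
    exact Nat.add_le_add_left (hvcard j i) _
  · intro j i
    apply Nat.ModEq.symm
    rw [Nat.modEq_iff_dvd, hhz]
    have h1 : (M0 : ℤ) ∣ (x j : ℤ) - 1 := by
      have h2 := (Nat.modEq_iff_dvd).1 (H.Xone j).symm
      have h3 : (M0 : ℤ) ∣ (M : ℤ) * t := (show (M0 : ℤ) ∣ (M : ℤ) by
        exact_mod_cast H.dvdM).mul_right _
      rw [hx]
      have e : ((M * t + X j : ℕ) : ℤ) - 1 = (M : ℤ) * t + ((X j : ℤ) - ((1 : ℕ) : ℤ)) := by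
        push_cast
        ring
      rw [e]
      exact dvd_add h3 h2
    have h4 : (M0 : ℤ) ∣ (Z i : ℤ) := by exact_mod_cast H.Zzero i
    have e : (x j : ℤ) ^ 2 - D * (Z i : ℤ) ^ 2 - ((1 : ℕ) : ℤ) =
        ((x j : ℤ) - 1) * ((x j : ℤ) + 1) - (Z i : ℤ) * (D * Z i) := by
      push_cast
      ring
    rw [e]
    exact dvd_sub (h1.mul_right _) (h4.mul_right _)
  · intro j
    apply Nat.ModEq.symm
    rw [Nat.modEq_iff_dvd, hs0z]
    have h1 : (M0 : ℤ) ∣ (x j : ℤ) - 1 := by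
      have h2 := (Nat.modEq_iff_dvd).1 (H.Xone j).symm
      have h3 : (M0 : ℤ) ∣ (M : ℤ) * t := (show (M0 : ℤ) ∣ (M : ℤ) by
        exact_mod_cast H.dvdM).mul_right _
      rw [hx]
      have e : ((M * t + X j : ℕ) : ℤ) - 1 = (M : ℤ) * t + ((X j : ℤ) - ((1 : ℕ) : ℤ)) := by
        push_cast
        ring
      rw [e]
      exact dvd_add h3 h2
    have h5 : (M0 : ℤ) ∣ (w : ℤ) := by
      rw [hw]
      push_cast
      exact dvd_mul_right _ _
    have e : (w : ℤ) + (x j : ℤ) ^ 2 - ((1 : ℕ) : ℤ) = w + ((x j : ℤ) - 1) * ((x j : ℤ) + 1) := by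
      push_cast
      ring
    rw [e]
    exact dvd_add h5 (h1.mul_right _)
  · intro i
    rw [Nat.modEq_zero_iff_dvd]
    have h5 : (M0 : ℤ) ∣ (w : ℤ) := by
      rw [hw]
      push_cast
      exact dvd_mul_right _ _
    have h4 : (M0 : ℤ) ∣ (Z i : ℤ) := by exact_mod_cast H.Zzero i
    have h6 : (M0 : ℤ) ∣ (s1 i : ℤ) := by
      rw [hs1z]
      exact dvd_add h5 ((dvd_pow h4 (by norm_num)).mul_left _)
    exact_mod_cast h6
  · intro j i
    have h1 := hposx j i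
    rw [← hhz] at h1
    have : (G0 : ℤ) ≤ h j i := by linarith
    exact_mod_cast this
  · intro j i p hp hd
    rcases hpcase j i p hp hd with h1 | ⟨h1, -⟩
    · exact H.spl j i p hp h1
    · have hRR := hR j j i i
      refine ⟨by omega, nd hD0 (by omega), ?_⟩
      -- a root
      have h2 := hpz j i p hd
      have : Fact p.Prime := ⟨hp⟩
      have hZ0 : (Z i : ZMod p) ≠ 0 := by
        intro h3
        have h4 := (ZMod.natCast_eq_zero_iff (Z i) p).1 h3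
        have := Nat.le_of_dvd (H.Zpos i) h4
        omega
      have h3 : ((x j : ZMod p)) ^ 2 = (D : ZMod p) * (Z i : ZMod p) ^ 2 := by
        have h4 := (ZMod.intCast_zmod_eq_zero_iff_dvd ((x j : ℤ) ^ 2 - D * (Z i : ℤ) ^ 2) p).2 h2
        push_cast at h4
        linear_combination h4
      refine ⟨((x j : ZMod p) * (Z i : ZMod p)⁻¹).val, ?_⟩
      rw [dvd_vq, ← ZMod.intCast_zmod_eq_zero_iff_dvd]
      push_cast
      rw [ZMod.natCast_val, ZMod.cast_id, mul_pow, h3]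
      field_simp
      ring
  · intro j i j' i' hne
    rw [Nat.coprime_iff_gcd_eq_one]
    by_contra hgc
    obtain ⟨p, hp, hpd⟩ := Nat.exists_prime_and_dvd hgc
    have h1 := hpd.trans (Nat.gcd_dvd_left _ _)
    have h2 := hpd.trans (Nat.gcd_dvd_right _ _)
    rcases hpcase j i p hp h1 with h3 | ⟨h3, -⟩
    · apply H.cop j i j' i' t p hp h3 hne
      rw [← hx, ← hh]
      exact h2
    · exact hcopz j i j' i' p hp hne h3 h1 h2
  · intro j i j' p hp hd hne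
    have e0 : (s0 j' : ℤ) - s0 j = (x j' : ℤ) ^ 2 - (x j : ℤ) ^ 2 := by
      rw [hs0z, hs0z]; ring
    rw [e0]
    rcases hpcase j i p hp hd with h1 | ⟨h1, -⟩
    · have := H.lft j i j' t p hp h1 hne
      rw [← hx, ← hx] at this
      exact this
    · have hRR := hR j j' i i
      have h2 := hpz j i p hd
      have hpp := Nat.prime_iff_prime_int.1 hp
      constructor
      · intro h3
        have e : (x j' : ℤ) ^ 2 - (x j : ℤ) ^ 2 = cf j j' * (2 * x j + cf j j') := by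
          rw [hxx j j']; ring
        rw [e] at h3
        rcases hpp.dvd_or_dvd h3 with h4 | h4
        · exact nd (hcf0 j j' hne) (by omega) h4
        · have h5 : (p : ℤ) ∣ A2 j j' i := by
            have e2 : A2 j j' i = -((2 * x j + cf j j') * (2 * x j - cf j j')) +
              ((x j : ℤ) ^ 2 - D * (Z i : ℤ) ^ 2) * 4 := by
              rw [hA2]; ring
            rw [e2]
            exact dvd_add ((dvd_neg).2 (h4.mul_right _)) (h2.mul_right _)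
          exact nd (hA2n j j' i hne) (by omega) h5
      · intro h3
        have h5 : (p : ℤ) ∣ A3 j j' i := by
          have e2 : A3 j j' i = (((x j' : ℤ) ^ 2 - (x j : ℤ) ^ 2) ^ 2 - 4 * D) *
              (4 * cf j j' ^ 2 * D * (Z i : ℤ) ^ 2 + cf j j' ^ 4 - 4 * D - 4 * cf j j' ^ 3 * x j) +
              ((x j : ℤ) ^ 2 - D * (Z i : ℤ) ^ 2) * (16 * cf j j' ^ 6 - 4 * cf j j' ^ 2 *
              (4 * cf j j' ^ 2 * D * (Z i : ℤ) ^ 2 + cf j j' ^ 4 - 4 * D -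
                4 * cf j j' ^ 3 * x j)) := by
            rw [hA3, hxx j j']
            ring
          rw [e2]
          exact dvd_add (h3.mul_right _) (h2.mul_right _)
        exact nd (hA3n j j' i hne) (by omega) h5
  · intro j i i' p hp hd hne
    have e0 : (s1 i' : ℤ) - s1 i = D * (Z i' : ℤ) ^ 2 - D * (Z i : ℤ) ^ 2 := by
      rw [hs1z, hs1z]; ring
    rw [e0]
    rcases hpcase j i p hp hd with h1 | ⟨h1, -⟩
    · exact H.rgt j i i' p hp h1 hne
    · have hRR := hR j j i i'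
      have hpp := Nat.prime_iff_prime_int.1 hp
      constructor
      · intro h3
        have h5 : (p : ℤ) ∣ A4 i i' := by rw [hA4]; exact h3
        exact nd (hA4n i i' hne) (by omega) h5
      · intro h3
        have e2 : (D * (Z i' : ℤ) ^ 2 - D * (Z i : ℤ) ^ 2) ^ 2 - 4 * D = D * A5 i i' := by
          rw [hA5]; ring
        rw [e2] at h3
        rcases hpp.dvd_or_dvd h3 with h4 | h4
        · exact nd hD0 (by omega) h4
        · exact nd (hA5n i i' hne) (by omega) h4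

end Pool.Agent.Y887.QE
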