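import Mathlib
import Pool.Agent.Y887.QE.DesA
import Pool.Agent.Y887.DE.Eq

/-!
Restriction of shifted quadratics to a progression on which they have prescribed additional prime
powers.
-/

set_option autoImplicit false

namespace Pool.Agent.Y887.QE

open Finset Filter Pool.Agent.Y887.DK
open Pool.Agent.Y887.DE (fac_eq)
open Pool.Agent.H658R2.ED (exists_crt_add)

/-- a root at one argument excludes a root at another one -/
theorem other_root {D : ℤ} {p x y : ℕ} (hp : p.Prime) (hx : p ∣ vq D x)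
    (h1 : ¬ (p : ℤ) ∣ (y : ℤ) - x) (h2 : ¬ (p : ℤ) ∣ ((y : ℤ) - x) ^ 2 - 4 * D) : ¬ p ∣ vq D y := by
  intro hy
  rw [dvd_vq] at hx hy
  have hpp := Nat.prime_iff_prime_int.1 hp
  have h3 : (p : ℤ) ∣ ((y : ℤ) - x) * (y + x) := by
    have := dvd_sub hy hx
    have e : (y : ℤ) ^ 2 - D - ((x : ℤ) ^ 2 - D) = ((y : ℤ) - x) * (y + x) := by ring
    rwa [e] at this
  rcases hpp.dvd_or_dvd h3 with h4 | h4
  · exact h1 h4
  · apply h2
    have e : ((y : ℤ) - x) ^ 2 - 4 * D = ((y : ℤ) + x) * (y + x - 4 * x) +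
        4 * ((x : ℤ) ^ 2 - D) := by ring
    rw [e]
    exact dvd_add (h4.mul_right _) (hx.mul_left _)

theorem fac_congr {D : ℤ} (hD : ¬ IsSquare D) {p x y k : ℕ} (hp : p.Prime)
    (hxy : x ≡ y [MOD p ^ (k + 1)]) (hy : (vq D y).factorization p ≤ k) :
    (vq D x).factorization p = (vq D y).factorization p := by
  have hy0 := (vq_pos hD y).ne'
  apply fac_eq hp
  · exact (vq_congr (hxy.of_dvd (pow_dvd_pow _ (by omega)))).2 (Nat.ordProj_dvd _ _)
  · intro h1
    have h2 := (vq_congr (hxy.of_dvd (pow_dvd_pow _ (by omega)))).1 h1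
    have := (hp.pow_dvd_iff_le_factorization hy0).1 h2
    omega

set_option maxHeartbeats 1000000 in
theorem eqzQ {D : ℤ} (hD : ¬ IsSquare D) {V : Type} [Fintype V] (s : V → ℕ)
    (hs : Function.Injective s) (Q X Bf : ℕ) (ex : V → List ℕ) (hQ : 0 < Q)
    (hlow : ∀ P, ∀ p : ℕ, p.Prime → p ∣ Q →
      (vq D (X + s P)).factorization p < Q.factorization p)
    (hex : ∀ P, ∀ m ∈ ex P, 1 ≤ m) :
    ∃ (Q' X' : ℕ) (c : V → ℕ), 0 < Q' ∧ Q ∣ Q' ∧ X' ≡ X [MOD Q] ∧
      (∀ p : ℕ, p.Prime → p ∣ Q' → p ∣ Q ∨ Bf < p) ∧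
      ∀ P, 0 < c P ∧ c P ∣ Q' ∧ (∀ n, c P ∣ vq D (Q' * n + (X' + s P))) ∧
        (∀ n p, p.Prime → p ∣ Q' → ¬ p ∣ vq D (Q' * n + (X' + s P)) / c P) ∧
        (∀ n p, p.Prime → p ∣ Q →
          (vq D (Q' * n + (X' + s P))).factorization p = (vq D (X + s P)).factorization p) ∧
        (∀ {Δ : Type} [CommMonoid Δ] (g : ℕ → Δ), g 0 = 1 → Fm g (c P) =
          (∏ p ∈ Q.primeFactors, g ((vq D (X + s P)).factorization p)) *
            ((ex P).map g).prod) := by
  classical
  obtain ⟨B, hB⟩ : ∃ B : ℕ, B = Q + Bf + 3 + ∑ P, ∑ P', (((s P' : ℤ) - s P).natAbs +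
    (((s P' : ℤ) - s P) ^ 2 - 4 * D).natAbs) := ⟨_, rfl⟩
  have hBP : ∀ P P', Q + Bf + 3 + (((s P' : ℤ) - s P).natAbs +
      (((s P' : ℤ) - s P) ^ 2 - 4 * D).natAbs) ≤ B := by
    intro P P'
    rw [hB]
    apply Nat.add_le_add_left
    have h1 := single_le_sum (f := fun P' => (((s P' : ℤ) - s P).natAbs +
      (((s P' : ℤ) - s P) ^ 2 - 4 * D).natAbs)) (fun _ _ => Nat.zero_le _) (mem_univ P')
    have h2 := single_le_sum (f := fun P => ∑ P', (((s P' : ℤ) - s P).natAbs +
      (((s P' : ℤ) - s P) ^ 2 - 4 * D).natAbs)) (fun _ _ => Nat.zero_le _) (mem_univ P)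
    exact h1.trans h2
  -- the private primes
  obtain ⟨r, hrinj, hr⟩ := split_family hD B (Σ P : V, Fin (ex P).length)
  obtain ⟨e, he⟩ : ∃ e : (Σ P : V, Fin (ex P).length) → ℕ,
      ∀ y, e y = (ex y.1).get y.2 := ⟨_, fun _ => rfl⟩
  have he1 : ∀ y, 1 ≤ e y := fun y => by
    rw [he]; exact hex y.1 _ (List.get_mem _ _)
  have hrp : ∀ y, (r y).Prime := fun y => (hr y).1
  have hrB : ∀ y, B < r y := fun y => (hr y).2.1
  have hrQ : ∀ y, ¬ r y ∣ Q := by
    intro y hd
    have h1 := Nat.le_of_dvd hQ hd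
    have h2 := hrB y
    omega
  have hsol : ∀ y : (Σ P : V, Fin (ex P).length),
      ∃ x0 : ℕ, ∀ x : ℕ, x ≡ x0 [MOD r y ^ (e y + 1)] → (vq D x).factorization (r y) = e y := by
    intro y
    obtain ⟨h1, h2, h3, h4⟩ := hr y
    obtain ⟨x0, hx0⟩ := exact_one h1 (by omega) h3 h4 (e y - 1)
    have h5 := he1 y
    have e1 : e y - 1 + 2 = e y + 1 := by omega
    have e2 : e y - 1 + 1 = e y := by omega
    rw [e1, e2] at hx0
    exact ⟨x0, hx0⟩
  choose xv hxv using hsol
  obtain ⟨X', hX'⟩ := exists_crt_add (ι := Option (Σ P : V, Fin (ex P).length))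
    (fun o => match o with
      | none => Q
      | some y => r y ^ (e y + 1))
    (fun o => match o with
      | none => 0
      | some y => s y.1)
    (fun o => match o with
      | none => X
      | some y => xv y)
    (by
      intro o
      match o with
      | none => exact hQ
      | some y => exact pow_pos (hrp y).pos _)
    (by
      intro o o' hne
      match o, o', hne with
      | none, none, h => exact absurd rfl h
      | none, some y, _ =>
        exact Nat.Coprime.pow_right _ ((Nat.Prime.coprime_iff_not_dvd (hrp y)).2 (hrQ y)).symm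
      | some y, none, _ =>
        exact Nat.Coprime.pow_left _ ((Nat.Prime.coprime_iff_not_dvd (hrp y)).2 (hrQ y))
      | some y, some y', h =>
        apply Nat.Coprime.pow
        exact (Nat.coprime_primes (hrp y) (hrp y')).2
          (fun h1 => h (by rw [hrinj h1])))
  have hX'1 : X' ≡ X [MOD Q] := by simpa using hX' none
  have hX'2 : ∀ y, X' + s y.1 ≡ xv y [MOD r y ^ (e y + 1)] := fun y => hX' (some y)
  obtain ⟨R, hR⟩ : ∃ R : ℕ, R = ∏ y, r y ^ (e y + 1) := ⟨_, rfl⟩
  have hRpos : 0 < R := by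
    rw [hR]; exact Finset.prod_pos fun y _ => pow_pos (hrp y).pos _
  have hrR : ∀ y, r y ^ (e y + 1) ∣ R := fun y => by
    rw [hR]; exact Finset.dvd_prod_of_mem _ (mem_univ y)
  obtain ⟨Q', hQ'⟩ : ∃ Q' : ℕ, Q' = Q * R := ⟨_, rfl⟩
  have hQ'pos : 0 < Q' := by rw [hQ']; positivity
  have hQQ' : Q ∣ Q' := by rw [hQ']; exact dvd_mul_right _ _
  have hRQ' : R ∣ Q' := by rw [hQ']; exact dvd_mul_left _ _
  have hQ'p : ∀ p : ℕ, p.Prime → p ∣ Q' → p ∣ Q ∨ ∃ y, p = r y := by
    intro p hp hd
    rw [hQ', hp.dvd_mul] at hd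
    rcases hd with h | h
    · exact Or.inl h
    · rw [hR] at h
      obtain ⟨y, _, hy⟩ := (hp.prime.dvd_finsetProd_iff _).1 h
      exact Or.inr ⟨y, (Nat.prime_dvd_prime_iff_eq hp (hrp y)).1 (hp.dvd_of_dvd_pow hy)⟩
  have hZpos : ∀ x, 0 < vq D x := vq_pos hD
  have hmodQ' : ∀ n P, Q' * n + (X' + s P) ≡ X' + s P [MOD Q'] := by
    intro n P
    have : Q' * n ≡ 0 [MOD Q'] := (Nat.modEq_zero_iff_dvd).2 (dvd_mul_right _ _)
    simpa using this.add_right (X' + s P)
  -- the valuations
  have hZQ : ∀ P, ∀ p : ℕ, p.Prime → p ∣ Q →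
      (vq D (X' + s P)).factorization p = (vq D (X + s P)).factorization p := by
    intro P p hp hpQ
    have hlt := hlow P p hp hpQ
    have h1 : p ^ ((vq D (X + s P)).factorization p + 1) ∣ Q :=
      (hp.pow_dvd_iff_le_factorization hQ.ne').2 hlt
    exact fac_congr hD hp ((hX'1.of_dvd h1).add_right _) le_rfl
  have hZr : ∀ y, (vq D (X' + s y.1)).factorization (r y) = e y := fun y => hxv y _ (hX'2 y)
  have hother : ∀ P, ∀ y : (Σ P : V, Fin (ex P).length), y.1 ≠ P →
      ¬ r y ∣ vq D (X' + s P) := by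
    intro P y hne
    have h1 : r y ∣ vq D (X' + s y.1) := by
      apply Nat.dvd_of_factorization_pos
      rw [hZr y]
      have := he1 y
      omega
    have e0 : ((X' + s P : ℕ) : ℤ) - ((X' + s y.1 : ℕ) : ℤ) = (s P : ℤ) - s y.1 := by
      push_cast
      ring
    have hb := hBP y.1 P
    have hrr := hrB y
    apply other_root (hrp y) h1
    · rw [e0]
      apply nd
      · intro h0
        apply hne
        apply hs
        omega
      · omega
    · rw [e0]
      apply nd
      · intro h0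
        have h2 := ns_mul hD (w := 2) (u := (s P : ℤ) - s y.1) (by linarith)
        norm_num at h2
      · omega
  have hfull : ∀ P, ∀ p : ℕ, p.Prime → p ∣ Q' →
      (vq D (X' + s P)).factorization p < Q'.factorization p := by
    intro P p hp hpQ'
    rcases hQ'p p hp hpQ' with h | ⟨y, rfl⟩
    · rw [hZQ P p hp h]
      have h1 : Q.factorization p ≤ Q'.factorization p :=
        (Nat.factorization_le_iff_dvd hQ.ne' hQ'pos.ne').2 hQQ' p
      have := hlow P p hp h
      omega
    · have h1 : e y + 1 ≤ Q'.factorization (r y) :=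
        ((hrp y).pow_dvd_iff_le_factorization hQ'pos.ne').1 ((hrR y).trans hRQ')
      by_cases hy : y.1 = P
      · rw [← hy, hZr y]
        omega
      · rw [Nat.factorization_eq_zero_of_not_dvd (hother P y hy)]
        omega
  have hval : ∀ n P, ∀ p : ℕ, p.Prime → p ∣ Q' →
      (vq D (Q' * n + (X' + s P))).factorization p = (vq D (X' + s P)).factorization p := by
    intro n P p hp hpQ'
    have h1 : p ^ ((vq D (X' + s P)).factorization p + 1) ∣ Q' :=
      (hp.pow_dvd_iff_le_factorization hQ'pos.ne').2 (hfull P p hp hpQ')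
    exact fac_congr hD hp ((hmodQ' n P).of_dvd h1) le_rfl
  have hgf : ∀ P p, p.Prime → p ∣ Q' →
      (Nat.gcd Q' (vq D (X' + s P))).factorization p = (vq D (X' + s P)).factorization p := by
    intro P p hp hpQ'
    rw [Nat.factorization_gcd hQ'pos.ne' (hZpos _).ne', Finsupp.inf_apply]
    exact min_eq_right (hfull P p hp hpQ').le
  have hgd : ∀ P n, Nat.gcd Q' (vq D (X' + s P)) ∣ vq D (Q' * n + (X' + s P)) := by
    intro P n
    rw [vq_congr ((hmodQ' n P).of_dvd (Nat.gcd_dvd_left _ _))]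
    exact Nat.gcd_dvd_right _ _
  refine ⟨Q', X', fun P => Nat.gcd Q' (vq D (X' + s P)), hQ'pos, hQQ', hX'1, ?_, ?_⟩
  · intro p hp hpQ'
    rcases hQ'p p hp hpQ' with h | ⟨y, rfl⟩
    · exact Or.inl h
    · right
      have := hrB y
      omega
  intro P
  have hG : 0 < Nat.gcd Q' (vq D (X' + s P)) := Nat.gcd_pos_of_pos_left _ hQ'pos
  refine ⟨hG, Nat.gcd_dvd_left _ _, hgd P, ?_, ?_, ?_⟩
  · intro n p hp hpQ' hd
    have h1 : (vq D (Q' * n + (X' + s P)) / Nat.gcd Q' (vq D (X' + s P))).factorization p = 0 := by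
      rw [Nat.factorization_div (hgd P n), Finsupp.tsub_apply, hval n P p hp hpQ',
        hgf P p hp hpQ']
      omega
    have h2 : vq D (Q' * n + (X' + s P)) / Nat.gcd Q' (vq D (X' + s P)) ≠ 0 :=
      (Nat.div_pos (Nat.le_of_dvd (hZpos _) (hgd P n)) hG).ne'
    have h3 := (hp.dvd_iff_one_le_factorization h2).1 hd
    omega
  · intro n p hp hpQ
    rw [hval n P p hp (hpQ.trans hQQ'), hZQ P p hp hpQ]
  · intro Δ _ g hg
    have hdisj : Disjoint Q.primeFactors (univ.image r) := by
      rw [disjoint_left]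
      intro p hp hpr
      obtain ⟨y, -, rfl⟩ := mem_image.1 hpr
      exact hrQ y (Nat.dvd_of_mem_primeFactors hp)
    have hsub : (Nat.gcd Q' (vq D (X' + s P))).primeFactors ⊆ Q.primeFactors ∪ univ.image r := by
      intro p hp
      have hpp := Nat.prime_of_mem_primeFactors hp
      have hpd := (Nat.dvd_of_mem_primeFactors hp).trans (Nat.gcd_dvd_left _ _)
      rw [mem_union]
      rcases hQ'p p hpp hpd with h | ⟨y, rfl⟩
      · exact Or.inl (Nat.mem_primeFactors.2 ⟨hpp, h, hQ.ne'⟩)
      · exact Or.inr (mem_image_of_mem r (mem_univ y))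
    show Fm g (Nat.gcd Q' (vq D (X' + s P))) = _
    rw [Fm_prod hg hsub, prod_union hdisj]
    congr 1
    · apply prod_congr rfl
      intro p hp
      have hpp := Nat.prime_of_mem_primeFactors hp
      have hpQ := Nat.dvd_of_mem_primeFactors hp
      rw [hgf P p hpp (hpQ.trans hQQ'), hZQ P p hpp hpQ]
    · rw [prod_image (fun y _ y' _ h => hrinj h)]
      rw [← prod_sigma_list (fun P : V => ex P) g P]
      apply prod_congr rfl
      intro y _
      have hry : r y ∣ Q' := ((dvd_pow_self _ (Nat.succ_ne_zero _)).trans (hrR y)).trans hRQ'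
      rw [hgf P (r y) (hrp y) hry]
      by_cases hy : y.1 = P
      · rw [if_pos hy, ← hy, hZr y, he]
      · rw [if_neg hy, Nat.factorization_eq_zero_of_not_dvd (hother P y hy), hg]

/-- assignment of the members of a list to the elements of a set -/
theorem assign (L : List ℕ) : ∀ (S : Finset ℕ), L.length ≤ S.card →
    ∃ w : ℕ → ℕ, (∀ p, w p = 0 ∨ w p ∈ L) ∧ ∀ {Δ : Type} [CommMonoid Δ] (g : ℕ → Δ), g 0 = 1 →
      ∏ p ∈ S, g (w p) = (L.map g).prod := by
  classical
  induction L with
  | nil =>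
    intro S _
    refine ⟨fun _ => 0, fun _ => Or.inl rfl, fun g hg => ?_⟩
    simp [hg]
  | cons a L ih =>
    intro S hS
    have hne : S.Nonempty := by
      rw [← card_pos]
      simp only [List.length_cons] at hS
      omega
    obtain ⟨x, hx⟩ := hne
    obtain ⟨w, hw1, hw2⟩ := ih (S.erase x) (by
      rw [card_erase_of_mem hx]
      simp only [List.length_cons] at hS
      omega)
    refine ⟨Function.update w x a, ?_, ?_⟩
    · intro p
      by_cases hp : p = x
      · rw [hp, Function.update_self]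
        exact Or.inr (List.mem_cons_self)
      · rw [Function.update_of_ne hp]
        rcases hw1 p with h | h
        · exact Or.inl h
        · exact Or.inr (List.mem_cons_of_mem _ h)
    · intro Δ _ g hg
      rw [← mul_prod_erase S _ hx, Function.update_self, List.map_cons, List.prod_cons,
        ← hw2 g hg]
      congr 1
      apply prod_congr rfl
      intro p hp
      rw [Function.update_of_ne (ne_of_mem_erase hp)]

/-- the value of a prime independent function at the composition -/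
theorem comp_F {Γ : Type} [CommMonoid Γ] (f : ℕ → Γ) (hf : f 0 = 1) {x y h G : ℕ} (w : ℕ → ℕ)
    (hG : G ≠ 0) (hx : x ≠ 0) (hy : y ≠ 0) (he : G * h ^ 2 = x * y) (hh : Squarefree h)
    (hpx : ∀ p, p.Prime → p ∣ h → x.factorization p = w p + 1)
    (hpy : ∀ p, p.Prime → p ∣ h → y.factorization p = 1)
    (hno : ∀ p, p.Prime → ¬ p ∣ h → p ∣ x → ¬ p ∣ y) :
    Fm f G * ∏ p ∈ h.primeFactors, (f (w p + 1) * f 1) =
      Fm f x * Fm f y * ∏ p ∈ h.primeFactors, f (w p) := by
  classical
  have hh0 : h ≠ 0 := hh.ne_zero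
  have hfac : ∀ p, G.factorization p + 2 * h.factorization p =
      x.factorization p + y.factorization p := by
    intro p
    have h1 := congrArg (fun n => n.factorization p) he
    rw [Nat.factorization_mul hG (pow_ne_zero 2 hh0), Nat.factorization_mul hx hy,
      Nat.factorization_pow] at h1
    simpa using h1
  have hsubG : G.primeFactors ⊆ (x * y).primeFactors := by
    rw [← he]
    exact Nat.primeFactors_mono (dvd_mul_right _ _) (mul_ne_zero hG (pow_ne_zero 2 hh0))
  have hsubh : h.primeFactors ⊆ (x * y).primeFactors := by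
    rw [← he]
    exact Nat.primeFactors_mono ((dvd_pow_self h (by norm_num)).mul_left _)
      (mul_ne_zero hG (pow_ne_zero 2 hh0))
  have hsubx : x.primeFactors ⊆ (x * y).primeFactors :=
    Nat.primeFactors_mono (dvd_mul_right _ _) (mul_ne_zero hx hy)
  have hsuby : y.primeFactors ⊆ (x * y).primeFactors :=
    Nat.primeFactors_mono (dvd_mul_left _ _) (mul_ne_zero hx hy)
  rw [Fm_prod hf hsubG, Fm_prod hf hsubx, Fm_prod hf hsuby, ← prod_mul_distrib]
  rw [← prod_sdiff hsubh, ← prod_sdiff (f := fun p => f (x.factorization p) *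
    f (y.factorization p)) hsubh, mul_assoc, mul_assoc, ← prod_mul_distrib, ← prod_mul_distrib]
  congr 1
  · apply prod_congr rfl
    intro p hp
    rw [Finset.mem_sdiff] at hp
    have hpp := Nat.prime_of_mem_primeFactors hp.1
    have hph : ¬ p ∣ h := fun hd => hp.2 (Nat.mem_primeFactors.2 ⟨hpp, hd, hh0⟩)
    have h1 := hfac p
    rw [Nat.factorization_eq_zero_of_not_dvd hph, mul_zero, add_zero] at h1
    rw [h1]
    by_cases hd : p ∣ x
    · rw [Nat.factorization_eq_zero_of_not_dvd (hno p hpp hph hd), add_zero, hf, mul_one]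
    · rw [Nat.factorization_eq_zero_of_not_dvd hd, zero_add, hf, one_mul]
  · apply prod_congr rfl
    intro p hp
    have hpp := Nat.prime_of_mem_primeFactors hp
    have hph := Nat.dvd_of_mem_primeFactors hp
    have h1 := hfac p
    have h2 : h.factorization p = 1 := by
      have h3 := hh.natFactorization_le_one p
      have h4 := (hpp.dvd_iff_one_le_factorization hh0).1 hph
      omega
    rw [h2, hpx p hpp hph, hpy p hpp hph] at h1
    have h3 : G.factorization p = w p := by omega
    rw [h3, hpx p hpp hph, hpy p hpp hph]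
    exact mul_comm _ _

end Pool.Agent.Y887.QE
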