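import Mathlib
import Pool.Agent.H446R2.ED_T1
import Pool.Agent.H410R2.EDFinal
import Pool.Agent.Y887.DE.Kap
import Pool.Agent.Y887.DE.Fil
import Pool.Agent.Y887.QE.DesB
import Pool.Agent.Y887.QE.Eqz
import Pool.Agent.Y887.QE.Cnt

/-!
Prescribed values of prime independent multiplicative functions at `x ^ 2 - D`.
-/

set_option autoImplicit false

namespace Pool.Agent.Y887.QE

open Finset Filter Pool.Agent.Y887.DK
open Pool.Agent.Y887.DE (kap kap_zero mix mix_prod mix_mem mix_length filler fac_eq)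
open Pool.Agent.H410R2.ED (Ln Pt pt Comb params)
open Pool.Agent.H658R2.ED (exists_crt_add)

/-- the properties of the arguments -/
def GoodN {Γ : Type} [CommGroup Γ] (f : ℕ → Γ) (D : ℤ) (y0 MB M K C X : ℕ) (val : Γ) (N : ℕ) :
    Prop :=
  M ≤ N ∧ (MB : ℤ) ∣ (N : ℤ) - ((y0 : ℤ) ^ 2 + y0 - D) ∧ ∃ c s : ℕ,
    vq D N = vq D (y0 + 1) * vq D y0 * (c * s) ∧ c ≤ C ∧ Squarefree s ∧
    (∀ p : ℕ, p.Prime → p ∣ s → X < p ^ K) ∧ (∀ p : ℕ, p.Prime → p ∣ c * s → M < p) ∧
    Fm f (c * s) = val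

theorem natlog_le2 {κ : ℕ} (hκ : 2 ≤ κ) : ((Nat.log 2 κ + 1 : ℕ) : ℝ) ≤ 3 * Real.log κ := by
  have h1 : 2 ^ Nat.log 2 κ ≤ κ := Nat.pow_log_le_self 2 (by omega)
  have h2 : ((2 : ℝ)) ^ Nat.log 2 κ ≤ κ := by exact_mod_cast h1
  have h3 : Real.log ((2 : ℝ) ^ Nat.log 2 κ) ≤ Real.log κ := Real.log_le_log (by positivity) h2
  rw [Real.log_pow] at h3
  have h4 : Real.log 2 ≤ Real.log κ := Real.log_le_log (by norm_num) (by exact_mod_cast hκ)
  have h5 := Real.log_two_gt_d9
  have h6 : (0 : ℝ) ≤ (Nat.log 2 κ : ℝ) := Nat.cast_nonneg _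
  push_cast
  nlinarith

theorem sqf_dvd {h n : ℕ} (hh : Squarefree h) (hn : n ≠ 0)
    (hp : ∀ p : ℕ, p.Prime → p ∣ h → p ∣ n) : h ∣ n := by
  rw [← Nat.factorization_le_iff_dvd hh.ne_zero hn]
  intro p
  by_cases hpp : p.Prime ∧ p ∣ h
  · have h1 := hh.natFactorization_le_one p
    have h2 := (hpp.1.dvd_iff_one_le_factorization hn).1 (hp p hpp.1 hpp.2)
    omega
  · have : h.factorization p = 0 := by
      rcases not_and_or.1 hpp with h1 | h1
      · exact Nat.factorization_eq_zero_of_not_prime h h1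
      · exact Nat.factorization_eq_zero_of_not_dvd h1
    rw [this]
    exact Nat.zero_le _

/-- the two vertices of a line -/
theorem pt0 {b : ℕ} (e : Ln 1 b) : pt 0 e = ((0 : Fin 2), fun _ => e 1) := by
  unfold pt
  congr 1
  funext i
  have : (0 : Fin 2).succAbove i = 1 := by
    fin_cases i
    rfl
  rw [this]

theorem pt1 {b : ℕ} (e : Ln 1 b) : pt 1 e = ((1 : Fin 2), fun _ => e 0) := by
  unfold pt
  congr 1
  funext i
  have : (1 : Fin 2).succAbove i = 0 := by
    fin_cases i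
    rfl
  rw [this]

/-- the residue class with the prescribed exponents at the primes of the lines -/
theorem residues {D : ℤ} (hD : ¬ IsSquare D) {b Nn Cc B M0 G0 : ℕ} {h : Fin b → Fin b → ℕ}
    {s0 s1 : Fin b → ℕ} (H : Dsg D b Nn Cc B M0 G0 h s0 s1) (hB : 2 ≤ B) (hM0 : 0 < M0)
    (hM1 : ∀ p : ℕ, p.Prime → p ≤ B → p ∣ M0)
    (y0 mm : ℕ) (w : Fin b → Fin b → ℕ → ℕ) (hw : ∀ j i p, w j i p ≤ mm) :
    ∃ Q X : ℕ, 0 < Q ∧ M0 ∣ Q ∧ X ≡ y0 [MOD M0] ∧
      (∀ p : ℕ, p.Prime → p ∣ Q → p ∣ M0 ∨ ∃ j i, p ∣ h j i) ∧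
      (∀ j i, h j i ∣ Q) ∧
      (∀ j i p, p.Prime → p ∣ h j i → mm + 3 ≤ Q.factorization p) ∧
      (∀ j i p, p.Prime → p ∣ h j i →
        (vq D (X + s0 j)).factorization p = w j i p + 1 ∧
        (vq D (X + s1 i)).factorization p = 1 ∧
        (∀ j', j' ≠ j → (vq D (X + s0 j')).factorization p = 0) ∧
        (∀ i', i' ≠ i → (vq D (X + s1 i')).factorization p = 0)) := by
  classical
  have hpM0 : ∀ j i p, p.Prime → p ∣ h j i → ¬ p ∣ M0 := by
    intro j i p hp hd hM
    have h1 : h j i ≡ 1 [MOD p] := (H.one j i).of_dvd hM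
    have h2 : h j i ≡ 0 [MOD p] := (Nat.modEq_zero_iff_dvd).2 hd
    have h3 := (h2.symm.trans h1)
    have h4 : p ∣ 1 := (Nat.modEq_zero_iff_dvd).1 h3.symm
    exact hp.one_lt.ne' (Nat.dvd_one.1 h4)
  have hpos : ∀ j i, 0 < h j i := fun j i => Nat.pos_of_ne_zero (H.sq j i).ne_zero
  have hx0 : ∀ x : (Σ e : Fin b × Fin b, (h e.1 e.2).primeFactors), ∃ x0 : ℕ, ∀ x' y : ℕ,
      x' ≡ x0 [MOD (x.2 : ℕ) ^ (w x.1.1 x.1.2 x.2 + 2)] → x' = y + h x.1.1 x.1.2 →
      (vq D x').factorization x.2 = w x.1.1 x.1.2 x.2 + 1 ∧ (vq D y).factorization x.2 = 1 := by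
    intro x
    have hp := Nat.prime_of_mem_primeFactors x.2.2
    have hd := Nat.dvd_of_mem_primeFactors x.2.2
    obtain ⟨h1, h2, h3⟩ := H.spl x.1.1 x.1.2 _ hp hd
    apply exact_two hp (by omega) h2 h3 hd
    intro h4
    rw [pow_two] at h4
    exact hp.one_lt.ne' (Nat.isUnit_iff.1 ((H.sq x.1.1 x.1.2) _ h4))
  choose x0 hx0 using hx0
  obtain ⟨X, hX⟩ := exists_crt_add (ι := Option (Σ e : Fin b × Fin b, (h e.1 e.2).primeFactors))
    (fun o => match o with
      | none => M0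
      | some x => (x.2 : ℕ) ^ (mm + 3))
    (fun o => match o with
      | none => 0
      | some x => s0 x.1.1)
    (fun o => match o with
      | none => y0
      | some x => x0 x)
    (by
      intro o
      match o with
      | none => exact hM0
      | some x => exact pow_pos (Nat.prime_of_mem_primeFactors x.2.2).pos _)
    (by
      have key : ∀ x : (Σ e : Fin b × Fin b, (h e.1 e.2).primeFactors),
          Nat.Coprime M0 ((x.2 : ℕ) ^ (mm + 3)) := by
        intro x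
        have hp := Nat.prime_of_mem_primeFactors x.2.2
        apply Nat.Coprime.pow_right
        apply Nat.Coprime.symm
        rw [Nat.Prime.coprime_iff_not_dvd hp]
        exact hpM0 _ _ _ hp (Nat.dvd_of_mem_primeFactors x.2.2)
      intro o o' hne
      match o, o' with
      | none, none => exact absurd rfl hne
      | none, some x => exact key x
      | some x, none => exact (key x).symm
      | some x, some y =>
        apply Nat.Coprime.pow
        have hpx := Nat.prime_of_mem_primeFactors x.2.2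
        have hpy := Nat.prime_of_mem_primeFactors y.2.2
        rw [Nat.coprime_primes hpx hpy]
        intro hxy
        apply hne
        congr 1
        obtain ⟨⟨j, i⟩, p, hp⟩ := x
        obtain ⟨⟨j', i'⟩, p', hp'⟩ := y
        have hpp : p = p' := hxy
        subst hpp
        by_cases he : (j', i') = (j, i)
        · rw [Prod.mk.injEq] at he
          obtain ⟨rfl, rfl⟩ := he
          rfl
        · exfalso
          have h1 := H.cop j i j' i' he
          have h2 := Nat.dvd_gcd (Nat.dvd_of_mem_primeFactors hp) (Nat.dvd_of_mem_primeFactors hp')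
          rw [h1] at h2
          exact hpx.one_lt.ne' (Nat.dvd_one.1 h2))
  have hXM : X ≡ y0 [MOD M0] := by simpa using hX none
  have hXx : ∀ x : (Σ e : Fin b × Fin b, (h e.1 e.2).primeFactors),
      X + s0 x.1.1 ≡ x0 x [MOD (x.2 : ℕ) ^ (mm + 3)] := fun x => hX (some x)
  obtain ⟨Q, hQ⟩ : ∃ Q : ℕ, Q = M0 * ∏ x : (Σ e : Fin b × Fin b, (h e.1 e.2).primeFactors),
    (x.2 : ℕ) ^ (mm + 3) := ⟨_, rfl⟩
  have hQpos : 0 < Q := by
    rw [hQ]
    exact Nat.mul_pos hM0 (prod_pos fun x _ => pow_pos (Nat.prime_of_mem_primeFactors x.2.2).pos _)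
  have hpQ : ∀ j i p, p.Prime → p ∣ h j i → p ^ (mm + 3) ∣ Q := by
    intro j i p hp hd
    have hmem : p ∈ (h j i).primeFactors := Nat.mem_primeFactors.2 ⟨hp, hd, (hpos j i).ne'⟩
    have h1 := dvd_prod_of_mem (fun x : (Σ e : Fin b × Fin b, (h e.1 e.2).primeFactors) =>
      (x.2 : ℕ) ^ (mm + 3)) (mem_univ ⟨(j, i), ⟨p, hmem⟩⟩)
    rw [hQ]
    exact h1.mul_left _
  have hval : ∀ j i p, p.Prime → p ∣ h j i →
        (vq D (X + s0 j)).factorization p = w j i p + 1 ∧
        (vq D (X + s1 i)).factorization p = 1 := by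
    intro j i p hp hd
    have hmem : p ∈ (h j i).primeFactors := Nat.mem_primeFactors.2 ⟨hp, hd, (hpos j i).ne'⟩
    have h1 := hXx ⟨(j, i), ⟨p, hmem⟩⟩
    apply hx0 ⟨(j, i), ⟨p, hmem⟩⟩
    · apply h1.of_dvd
      apply pow_dvd_pow
      have := hw j i p
      show w j i p + 2 ≤ mm + 3
      omega
    · rw [H.eq j i]
      ring
  refine ⟨Q, X, hQpos, by rw [hQ]; exact dvd_mul_right _ _, hXM, ?_, ?_, ?_, ?_⟩
  · intro p hp hd
    rw [hQ, hp.dvd_mul] at hd
    rcases hd with h1 | h1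
    · exact Or.inl h1
    · obtain ⟨x, _, hx⟩ := (hp.prime.dvd_finsetProd_iff _).1 h1
      have hpx := Nat.prime_of_mem_primeFactors x.2.2
      have h2 := (Nat.prime_dvd_prime_iff_eq hp hpx).1 (hp.dvd_of_dvd_pow hx)
      right
      refine ⟨x.1.1, x.1.2, ?_⟩
      rw [h2]
      exact Nat.dvd_of_mem_primeFactors x.2.2
  · intro j i
    apply sqf_dvd (H.sq j i) hQpos.ne'
    intro p hp hd
    exact (dvd_pow_self p (by omega)).trans (hpQ j i p hp hd)
  · intro j i p hp hd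
    exact (hp.pow_dvd_iff_le_factorization hQpos.ne').1 (hpQ j i p hp hd)
  · intro j i p hp hd
    obtain ⟨h1, h2⟩ := hval j i p hp hd
    refine ⟨h1, h2, ?_, ?_⟩
    · intro j' hne
      apply Nat.factorization_eq_zero_of_not_dvd
      have h3 : p ∣ vq D (X + s0 j) := Nat.dvd_of_factorization_pos (by rw [h1]; omega)
      have e0 : ((X + s0 j' : ℕ) : ℤ) - ((X + s0 j : ℕ) : ℤ) = (s0 j' : ℤ) - s0 j := by
        push_cast
        ring
      obtain ⟨h4, h5⟩ := H.lft j i j' p hp hd hne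
      apply other_root hp h3
      · rw [e0]; exact h4
      · rw [e0]; exact h5
    · intro i' hne
      apply Nat.factorization_eq_zero_of_not_dvd
      have h3 : p ∣ vq D (X + s1 i) := Nat.dvd_of_factorization_pos (by rw [h2]; omega)
      have e0 : ((X + s1 i' : ℕ) : ℤ) - ((X + s1 i : ℕ) : ℤ) = (s1 i' : ℤ) - s1 i := by
        push_cast
        ring
      obtain ⟨h4, h5⟩ := H.rgt j i i' p hp hd hne
      apply other_root hp h3
      · rw [e0]; exact h4
      · rw [e0]; exact h5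

end Pool.Agent.Y887.QE
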