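import Mathlib
import Pool.Agent.Y887.QE.Mn

/-!
The value at the composition of two arguments.
-/

set_option autoImplicit false

namespace Pool.Agent.Y887.QE

open Finset Filter Pool.Agent.Y887.DK
open Pool.Agent.Y887.DE (kap kap_zero mix mix_prod mix_mem mix_length filler fac_eq)

theorem cop_of {a b : ℕ} (h : ∀ p : ℕ, p.Prime → p ∣ a → ¬ p ∣ b) : Nat.Coprime a b := by
  rw [Nat.coprime_iff_gcd_eq_one]
  by_contra hne
  obtain ⟨p, hp, hpd⟩ := Nat.exists_prime_and_dvd hne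
  exact h p hp (hpd.trans (Nat.gcd_dvd_left _ _)) (hpd.trans (Nat.gcd_dvd_right _ _))

theorem combine {Γ : Type} [CommGroup Γ] (f : ℕ → Γ) (hf : f 0 = 1) {D : ℤ} (hD : ¬ IsSquare D)
    {x y h AL AR M0 Q' c0 c1 V0 V1 : ℕ} (w : ℕ → ℕ) (hxy : x = y + h) (hh : Squarefree h)
    (hDxy : D < (x : ℤ) * y)
    (hx : vq D x = AL * c0 * V0) (hy : vq D y = AR * c1 * V1)
    (hAL : ∀ p : ℕ, p.Prime → p ∣ AL → p ∣ M0) (hAR : ∀ p : ℕ, p.Prime → p ∣ AR → p ∣ M0)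
    (hhM : ∀ p : ℕ, p.Prime → p ∣ h → ¬ p ∣ M0)
    (hc0M : ∀ p : ℕ, p.Prime → p ∣ c0 → ¬ p ∣ M0) (hc1M : ∀ p : ℕ, p.Prime → p ∣ c1 → ¬ p ∣ M0)
    (hc0 : c0 ∣ Q') (hc1 : c1 ∣ Q') (hhQ : h ∣ Q') (hMQ : M0 ∣ Q')
    (hV0 : ∀ p : ℕ, p.Prime → p ∣ Q' → ¬ p ∣ V0) (hV1 : ∀ p : ℕ, p.Prime → p ∣ Q' → ¬ p ∣ V1)
    (hs0 : Squarefree V0) (hs1 : Squarefree V1)
    (hpx : ∀ p : ℕ, p.Prime → p ∣ h → (vq D x).factorization p = w p + 1)
    (hpy : ∀ p : ℕ, p.Prime → p ∣ h → (vq D y).factorization p = 1)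
    (hno : ∀ p : ℕ, p.Prime → ¬ p ∣ h → ¬ p ∣ M0 → p ∣ vq D x → ¬ p ∣ vq D y) :
    ∃ N : ℕ, (x : ℤ) * y - D = h * N ∧ ∃ c : ℕ, vq D N = AL * AR * (c * (V0 * V1)) ∧
      c ≤ c0 * c1 ∧ Squarefree (V0 * V1) ∧ (∀ p : ℕ, p.Prime → p ∣ c * (V0 * V1) → ¬ p ∣ M0) ∧
      Fm f (c * (V0 * V1)) * f 1 ^ (2 * h.primeFactors.card) =
        Fm f c0 * Fm f c1 * f 1 ^ (V0.primeFactors.card + V1.primeFactors.card) *
          ∏ p ∈ h.primeFactors, kap f (w p) := by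
  classical
  have hx0 := (vq_pos hD x).ne'
  have hy0 := (vq_pos hD y).ne'
  have hhpos : 0 < h := Nat.pos_of_ne_zero hh.ne_zero
  have hdy : h ∣ vq D y := by
    apply sqf_dvd hh hy0
    intro p hp hd
    exact Nat.dvd_of_factorization_pos (by rw [hpy p hp hd]; norm_num)
  obtain ⟨Nz, hNz, hcomp⟩ := vq_comp hhpos hxy hdy
  have hNpos : 0 < Nz := by
    have h1 : (0 : ℤ) < h * Nz := by rw [← hNz]; linarith
    have h2 : (0 : ℤ) < (h : ℤ) := by exact_mod_cast hhpos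
    exact pos_of_mul_pos_right h1 h2.le
  obtain ⟨N, hN⟩ : ∃ N : ℕ, Nz = (N : ℤ) := ⟨Nz.toNat, (Int.toNat_of_nonneg hNpos.le).symm⟩
  rw [hN] at hNz hcomp
  refine ⟨N, hNz, ?_⟩
  have hvN : ((N : ℤ) ^ 2 - D).natAbs = vq D N := rfl
  rw [hvN, hx, hy] at hcomp
  have hN0 := (vq_pos hD N).ne'
  have hAL0 : AL ≠ 0 := by rintro rfl; rw [hx] at hx0; simp at hx0
  have hAR0 : AR ≠ 0 := by rintro rfl; rw [hy] at hy0; simp at hy0
  have hc00 : c0 ≠ 0 := by rintro rfl; rw [hx] at hx0; simp at hx0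
  have hc10 : c1 ≠ 0 := by rintro rfl; rw [hy] at hy0; simp at hy0
  have hV00 : V0 ≠ 0 := hs0.ne_zero
  have hV10 : V1 ≠ 0 := hs1.ne_zero
  -- the small part
  have hcopA : Nat.Coprime (AL * AR) (h ^ 2) := by
    apply Nat.Coprime.pow_right
    apply cop_of
    intro p hp hd hph
    apply hhM p hp hph
    rcases (hp.dvd_mul).1 hd with h1 | h1
    · exact hAL p hp h1
    · exact hAR p hp h1
  have hAd : AL * AR ∣ vq D N := by
    apply hcopA.dvd_of_dvd_mul_right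
    rw [hcomp]
    exact ⟨c0 * V0 * (c1 * V1), by ring⟩
  obtain ⟨G, hG⟩ := hAd
  have hG0 : G ≠ 0 := by rintro rfl; rw [hG] at hN0; simp at hN0
  have hGe : G * h ^ 2 = (c0 * V0) * (c1 * V1) := by
    have h1 : AL * AR * (G * h ^ 2) = AL * AR * ((c0 * V0) * (c1 * V1)) := by
      calc AL * AR * (G * h ^ 2) = vq D N * h ^ 2 := by rw [hG]; ring
        _ = AL * c0 * V0 * (AR * c1 * V1) := hcomp
        _ = _ := by ring
    exact Nat.eq_of_mul_eq_mul_left (Nat.pos_of_ne_zero (mul_ne_zero hAL0 hAR0)) h1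
  -- the part `c`
  have hcopV : Nat.Coprime (h ^ 2) (V0 * V1) := by
    apply Nat.Coprime.pow_left
    apply cop_of
    intro p hp hph hd
    rcases (hp.dvd_mul).1 hd with h1 | h1
    · exact hV0 p hp (hph.trans hhQ) h1
    · exact hV1 p hp (hph.trans hhQ) h1
  have hhc : h ^ 2 ∣ c0 * c1 := by
    apply hcopV.dvd_of_dvd_mul_right
    refine ⟨G, ?_⟩
    calc c0 * c1 * (V0 * V1) = (c0 * V0) * (c1 * V1) := by ring
      _ = h ^ 2 * G := by rw [← hGe]; ring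
  obtain ⟨c, hc⟩ := hhc
  have hGc : G = c * (V0 * V1) := by
    have h1 : h ^ 2 * G = h ^ 2 * (c * (V0 * V1)) := by
      calc h ^ 2 * G = (c0 * V0) * (c1 * V1) := by rw [← hGe]; ring
        _ = (c0 * c1) * (V0 * V1) := by ring
        _ = h ^ 2 * c * (V0 * V1) := by rw [hc]
        _ = _ := by ring
    exact Nat.eq_of_mul_eq_mul_left (pow_pos hhpos 2) h1
  -- divisors of the rough parts
  have hx'M : ∀ p : ℕ, p.Prime → p ∣ c0 * V0 → ¬ p ∣ M0 := by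
    intro p hp hd hM
    rcases (hp.dvd_mul).1 hd with h1 | h1
    · exact hc0M p hp h1 hM
    · exact hV0 p hp (hM.trans hMQ) h1
  have hy'M : ∀ p : ℕ, p.Prime → p ∣ c1 * V1 → ¬ p ∣ M0 := by
    intro p hp hd hM
    rcases (hp.dvd_mul).1 hd with h1 | h1
    · exact hc1M p hp h1 hM
    · exact hV1 p hp (hM.trans hMQ) h1
  have hno' : ∀ p : ℕ, p.Prime → ¬ p ∣ h → p ∣ c0 * V0 → ¬ p ∣ c1 * V1 := by
    intro p hp hph h1 h2
    apply hno p hp hph (hx'M p hp h1)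
    · rw [hx, mul_assoc]; exact h1.mul_left _
    · rw [hy, mul_assoc]; exact h2.mul_left _
  have hfacx : ∀ p : ℕ, p.Prime → p ∣ h → (c0 * V0).factorization p = w p + 1 := by
    intro p hp hd
    have h1 := hpx p hp hd
    rw [hx, mul_assoc, Nat.factorization_mul hAL0 (mul_ne_zero hc00 hV00), Finsupp.add_apply,
      Nat.factorization_eq_zero_of_not_dvd (fun h2 => hhM p hp hd (hAL p hp h2)), zero_add] at h1
    exact h1
  have hfacy : ∀ p : ℕ, p.Prime → p ∣ h → (c1 * V1).factorization p = 1 := by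
    intro p hp hd
    have h1 := hpy p hp hd
    rw [hy, mul_assoc, Nat.factorization_mul hAR0 (mul_ne_zero hc10 hV10), Finsupp.add_apply,
      Nat.factorization_eq_zero_of_not_dvd (fun h2 => hhM p hp hd (hAR p hp h2)), zero_add] at h1
    exact h1
  have hcF := comp_F f hf w hG0 (mul_ne_zero hc00 hV00) (mul_ne_zero hc10 hV10) hGe hh hfacx hfacy
    hno'
  have hcop0 : Nat.Coprime c0 V0 := cop_of fun p hp hd => hV0 p hp (hd.trans hc0)
  have hcop1 : Nat.Coprime c1 V1 := cop_of fun p hp hd => hV1 p hp (hd.trans hc1)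
  rw [Fm_mul f hc00 hV00 hcop0, Fm_mul f hc10 hV10 hcop1, Fm_sqfree f hs0, Fm_sqfree f hs1] at hcF
  refine ⟨c, by rw [hG, hGc], ?_, ?_, ?_, ?_⟩
  · rw [hc]
    exact Nat.le_mul_of_pos_left _ (pow_pos hhpos 2)
  · rw [Nat.squarefree_mul]
    · exact ⟨hs0, hs1⟩
    · apply cop_of
      intro p hp h1 h2
      have hph : ¬ p ∣ h := fun h3 => hV0 p hp (h3.trans hhQ) h1
      exact hno' p hp hph (h1.mul_left _) (h2.mul_left _)
  · intro p hp hd
    rw [← hGc] at hd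
    have h1 : p ∣ (c0 * V0) * (c1 * V1) := by rw [← hGe]; exact hd.mul_right _
    rcases (hp.dvd_mul).1 h1 with h2 | h2
    · exact hx'M p hp h2
    · exact hy'M p hp h2
  · rw [← hGc]
    have hk : (∏ p ∈ h.primeFactors, kap f (w p)) * ∏ p ∈ h.primeFactors, (f (w p + 1) * f 1) =
        f 1 ^ (2 * h.primeFactors.card) * ∏ p ∈ h.primeFactors, f (w p) := by
      rw [← prod_mul_distrib]
      have h1 : ∀ p ∈ h.primeFactors, kap f (w p) * (f (w p + 1) * f 1) =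
          (f 1 * f 1) * f (w p) := by
        intro p _
        unfold kap
        rw [← mul_assoc, div_mul_cancel]
        exact mul_right_comm _ _ _
      rw [prod_congr rfl h1, prod_mul_distrib, prod_const, ← pow_two, ← pow_mul]
    obtain ⟨P1, hP1⟩ : ∃ P1, P1 = ∏ p ∈ h.primeFactors, (f (w p + 1) * f 1) := ⟨_, rfl⟩
    obtain ⟨P2, hP2⟩ : ∃ P2, P2 = ∏ p ∈ h.primeFactors, f (w p) := ⟨_, rfl⟩
    obtain ⟨P3, hP3⟩ : ∃ P3, P3 = ∏ p ∈ h.primeFactors, kap f (w p) := ⟨_, rfl⟩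
    rw [← hP1, ← hP2] at hcF
    rw [← hP1, ← hP2, ← hP3] at hk
    rw [← hP3]
    apply mul_right_cancel (b := P1)
    calc Fm f G * f 1 ^ (2 * h.primeFactors.card) * P1
        = (Fm f G * P1) * f 1 ^ (2 * h.primeFactors.card) := by ac_rfl
      _ = (Fm f c0 * f 1 ^ V0.primeFactors.card * (Fm f c1 * f 1 ^ V1.primeFactors.card) * P2) *
          f 1 ^ (2 * h.primeFactors.card) := by rw [hcF]
      _ = (Fm f c0 * f 1 ^ V0.primeFactors.card * (Fm f c1 * f 1 ^ V1.primeFactors.card)) *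
          (f 1 ^ (2 * h.primeFactors.card) * P2) := by ac_rfl
      _ = (Fm f c0 * f 1 ^ V0.primeFactors.card * (Fm f c1 * f 1 ^ V1.primeFactors.card)) *
          (P3 * P1) := by rw [← hk]
      _ = _ := by
          rw [pow_add]
          ac_rfl

end Pool.Agent.Y887.QE
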