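import Mathlib
import Pool.Agent.Y887.QE.Cmb

/-!
Prescribed values of prime independent multiplicative functions at `x ^ 2 - D`: the main theorem.
-/

set_option autoImplicit false

namespace Pool.Agent.Y887.QE

open Finset Filter Pool.Agent.Y887.DK
open Pool.Agent.Y887.DE (kap kap_zero mix mix_prod mix_mem mix_length filler fac_eq)
open Pool.Agent.H410R2.ED (Ln Pt pt Comb params)

set_option maxHeartbeats 8000000 in
theorem main {Γ : Type} [CommGroup Γ] (f : ℕ → Γ) (hf0 : f 0 = 1)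
    (Lp Lm : List ℕ) (hrel : (Lp.map (kap f)).prod = f 1 * (Lm.map (kap f)).prod) :
    ∃ (Φ : Γ) (K : ℕ), ∀ D : ℤ, ¬ IsSquare D → ∀ y0 MB : ℕ, 0 < MB →
      ∀ ex : List ℕ, (∀ m ∈ ex, 1 ≤ m) → ∀ M : ℕ, ∃ C : ℕ,
        ∀ᶠ X : ℕ in atTop, √(X : ℝ) / Real.log X ^ K ≤
          ({N : ℕ | N ≤ X ∧ GoodN f D y0 MB M K C X (Φ * (ex.map f).prod) N}.ncard : ℝ) := by
  classical
  obtain ⟨C1, hC10, hdes⟩ := design
  obtain ⟨C2, hC20, hS2⟩ := quad_sieve
  have hC2r : (0 : ℝ) < 3 * C2 := by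
    have : (1 : ℝ) ≤ C2 := by exact_mod_cast hC20
    linarith
  obtain ⟨b, T, hb2, hbT, hCT⟩ := params (3 * C2) hC2r 1
  obtain ⟨ρ, hρ, hcomb⟩ := Pool.Agent.H446R2.comb 1 b T hbT
  obtain ⟨Cc, hCc⟩ : ∃ Cc : ℕ, Cc = b * b * (C1 * (Nat.log 2 (b * b) + 1)) := ⟨_, rfl⟩
  obtain ⟨Cm, hCm⟩ : ∃ Cm : ℕ, Cm = 2 * (T + 1) + 2 * Cc := ⟨_, rfl⟩
  obtain ⟨Nn, hNn⟩ : ∃ Nn : ℕ, Nn = Cm * (Lp.length + Lm.length) + 1 := ⟨_, rfl⟩
  obtain ⟨mm, hmm⟩ : ∃ mm : ℕ, mm = Lp.sum + Lm.sum := ⟨_, rfl⟩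
  have hκ2 : 2 ≤ (1 + 1) * b ^ 1 := by rw [pow_one]; omega
  obtain ⟨K0, hK01, hS2⟩ := hS2 ((1 + 1) * b ^ 1) (by omega)
  have hcardP : Fintype.card (Pt 1 b) = (1 + 1) * b ^ 1 := by simp [Pt]
  have hsumbd : 2 * ((1 + 1) * b ^ 1 * (C2 * (Nat.log 2 ((1 + 1) * b ^ 1) + 1))) ≤ T * b ^ 1 := by
    have h1 := natlog_le2 hκ2
    have h2 : (2 : ℝ) * ((((1 + 1) * b ^ 1 : ℕ) : ℝ) * (C2 *
        ((Nat.log 2 ((1 + 1) * b ^ 1) + 1 : ℕ) : ℝ))) ≤
        2 * (3 * C2 * (((1 + 1) * b ^ 1 : ℕ) : ℝ) * Real.log (((1 + 1) * b ^ 1 : ℕ) : ℝ)) := by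
      have h3 : (0 : ℝ) ≤ (((1 + 1) * b ^ 1 : ℕ) : ℝ) * C2 := by positivity
      have h4 := mul_le_mul_of_nonneg_left h1 h3
      calc (2 : ℝ) * ((((1 + 1) * b ^ 1 : ℕ) : ℝ) * (C2 *
            ((Nat.log 2 ((1 + 1) * b ^ 1) + 1 : ℕ) : ℝ)))
          = 2 * ((((1 + 1) * b ^ 1 : ℕ) : ℝ) * C2 *
            ((Nat.log 2 ((1 + 1) * b ^ 1) + 1 : ℕ) : ℝ)) := by ring
        _ ≤ 2 * ((((1 + 1) * b ^ 1 : ℕ) : ℝ) * C2 *
            (3 * Real.log (((1 + 1) * b ^ 1 : ℕ) : ℝ))) := by linarith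
        _ = _ := by ring
    have h4 := h2.trans hCT
    exact_mod_cast h4
  obtain ⟨Z, hZd⟩ : ∃ Z : ℕ, Z = b * b * (Nn + Cc) := ⟨_, rfl⟩
  obtain ⟨Φ0, hΦ0⟩ : ∃ Φ0 : Γ, Φ0 = ∏ j ∈ Icc 1 (mm + 1), f j ^ Z := ⟨_, rfl⟩
  obtain ⟨Km, hKm⟩ : ∃ Km : Γ, Km = (Lm.map (kap f)).prod := ⟨_, rfl⟩
  refine ⟨Φ0 * Φ0 * Km ^ Cm * f 1 ^ (2 * (T + 1)) / f 1 ^ (2 * Nn), 2 * K0 + 1 + (K0 + 1), ?_⟩
  intro D hD y0 MB hMB ex hex M
  have hD0 : D ≠ 0 := by
    rintro rfl
    exact hD ⟨0, by simp⟩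
  -- the small part
  obtain ⟨AL, hAL⟩ : ∃ AL : ℕ, AL = vq D (y0 + 1) := ⟨_, rfl⟩
  obtain ⟨AR, hAR⟩ : ∃ AR : ℕ, AR = vq D y0 := ⟨_, rfl⟩
  have hALpos : 0 < AL := by rw [hAL]; exact vq_pos hD _
  have hARpos : 0 < AR := by rw [hAR]; exact vq_pos hD _
  obtain ⟨B, hB⟩ : ∃ B : ℕ, B = 4 * (b * b) + 8 * b + M + AL * AR + D.natAbs + 5 := ⟨_, rfl⟩
  obtain ⟨BF, hBF⟩ : ∃ BF : ℕ, BF = B.factorial := ⟨_, rfl⟩
  have hBFpos : 0 < BF := by rw [hBF]; exact Nat.factorial_pos _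
  obtain ⟨M0, hM0d⟩ : ∃ M0 : ℕ, M0 = BF * MB * (AL * AR) := ⟨_, rfl⟩
  have hM0 : 0 < M0 := by rw [hM0d]; positivity
  have hBM0 : BF ∣ M0 := by
    rw [hM0d]
    exact (dvd_mul_right _ _).mul_right _
  have hMBM0 : MB ∣ M0 := by
    rw [hM0d]
    exact (dvd_mul_left _ _).mul_right _
  have hM1 : ∀ p : ℕ, p.Prime → p ≤ B → p ∣ M0 := fun p hp hle => by
    refine dvd_trans ?_ hBM0
    rw [hBF]
    exact (hp.dvd_factorial).2 hle
  have hALM : AL ∣ M0 := by rw [hM0d]; exact (dvd_mul_right _ _).mul_left _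
  have hARM : AR ∣ M0 := by rw [hM0d]; exact (dvd_mul_left _ _).mul_left _
  have hM0fac : ∀ p : ℕ, p.Prime → p ∣ M0 → AL.factorization p < M0.factorization p ∧
      AR.factorization p < M0.factorization p := by
    intro p hp hd
    have h1 : p ∣ BF * MB := by
      rw [hM0d, hp.dvd_mul] at hd
      rcases hd with h | h
      · exact h
      · have h2 : p ≤ B := by
          have := Nat.le_of_dvd (Nat.mul_pos hALpos hARpos) h
          omega
        exact (show p ∣ BF by rw [hBF]; exact (hp.dvd_factorial).2 h2).mul_right _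
    have h2 : (BF * MB).factorization p ≠ 0 := by
      have := (hp.dvd_iff_one_le_factorization (Nat.mul_pos hBFpos hMB).ne').1 h1
      omega
    rw [hM0d, Nat.factorization_mul (Nat.mul_pos hBFpos hMB).ne' (Nat.mul_pos hALpos hARpos).ne',
      Nat.factorization_mul hALpos.ne' hARpos.ne', Finsupp.add_apply, Finsupp.add_apply]
    omega
  -- the design
  obtain ⟨h, s0, s1, H⟩ := hdes D hD b (by omega) Nn B M0 1 hM0
    (fun p hp hle => hM1 p hp (by omega))
  rw [← hCc] at H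
  have hhpos : ∀ j i, 0 < h j i := fun j i => Nat.pos_of_ne_zero (H.sq j i).ne_zero
  have hhM0 : ∀ j i p, p.Prime → p ∣ h j i → ¬ p ∣ M0 := by
    intro j i p hp hd hM
    have h1 : h j i ≡ 1 [MOD p] := (H.one j i).of_dvd hM
    have h2 : h j i ≡ 0 [MOD p] := (Nat.modEq_zero_iff_dvd).2 hd
    have h3 := (h2.symm.trans h1)
    have h4 : p ∣ 1 := (Nat.modEq_zero_iff_dvd).1 h3.symm
    exact hp.one_lt.ne' (Nat.dvd_one.1 h4)
  -- the lists of exponents
  obtain ⟨cnt, hcnt⟩ : ∃ cnt : Fin b → Fin b → ℕ, ∀ j i, cnt j i =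
      ρ ![i, j] 0 + ρ ![i, j] 1 + 2 * ((h j i).primeFactors.card - Nn) := ⟨_, fun _ _ => rfl⟩
  have hcntle : ∀ j i, cnt j i ≤ Cm := by
    intro j i
    rw [hcnt, hCm]
    have h1 := (hρ ![i, j] 0).2
    have h2 := (hρ ![i, j] 1).2
    have h3 := H.hi j i
    omega
  have hasg : ∀ j i, ∃ w : ℕ → ℕ, (∀ p, w p = 0 ∨ w p ∈ mix Lp Lm Cm (cnt j i)) ∧
      ∀ {Δ : Type} [CommMonoid Δ] (g : ℕ → Δ), g 0 = 1 →
      ∏ p ∈ (h j i).primeFactors, g (w p) = ((mix Lp Lm Cm (cnt j i)).map g).prod := by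
    intro j i
    apply assign
    refine (mix_length Lp Lm (hcntle j i)).trans ?_
    have h1 := H.lo j i
    omega
  choose w hw1 hw2 using hasg
  have hw : ∀ j i p, w j i p ≤ mm := by
    intro j i p
    rcases hw1 j i p with h1 | h1
    · omega
    · rw [hmm]
      rcases mix_mem h1 with h2 | h2
      · have := List.le_sum_of_mem h2
        omega
      · have := List.le_sum_of_mem h2
        omega
  obtain ⟨Q, X, hQpos, hMQ, hXM, hQp, hhQ, hQfac, hres⟩ := residues hD H (by omega) hM0 hM1 y0 mm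
    w hw
  -- the vertices
  obtain ⟨s, hs⟩ : ∃ s : Pt 1 b → ℕ, ∀ P, s P = if P.1 = 0 then s0 (P.2 0) else s1 (P.2 0) :=
    ⟨_, fun _ => rfl⟩
  have hsL : ∀ (c : Fin 1 → Fin b), s ((0 : Fin 2), c) = s0 (c 0) := fun c => by rw [hs]; simp
  have hsR : ∀ (c : Fin 1 → Fin b), s ((1 : Fin 2), c) = s1 (c 0) := fun c => by rw [hs]; simp
  obtain ⟨A, hA⟩ : ∃ A : Pt 1 b → ℕ, ∀ P, A P = if P.1 = 0 then AL else AR := ⟨_, fun _ => rfl⟩
  have hbpos : 0 < b := by omega
  have hexp1 : ∀ j i, ∃ p, p.Prime ∧ p ∣ h j i := by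
    intro j i
    have h1 := H.lo j i
    have h2 : 0 < (h j i).primeFactors.card := by omega
    obtain ⟨p, hp⟩ := card_pos.1 h2
    exact ⟨p, Nat.prime_of_mem_primeFactors hp, Nat.dvd_of_mem_primeFactors hp⟩
  have hs0inj : ∀ j j', s0 j = s0 j' → j = j' := by
    intro j j' heq
    by_contra hne
    obtain ⟨p, hp, hd⟩ := hexp1 j ⟨0, hbpos⟩
    have := (H.lft j ⟨0, hbpos⟩ j' p hp hd (Ne.symm hne)).1
    apply this
    rw [heq]
    simp
  have hs1inj : ∀ i i', s1 i = s1 i' → i = i' := by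
    intro i i' heq
    by_contra hne
    obtain ⟨p, hp, hd⟩ := hexp1 ⟨0, hbpos⟩ i
    have := (H.rgt ⟨0, hbpos⟩ i i' p hp hd (Ne.symm hne)).1
    apply this
    rw [heq]
    simp
  have hs01 : ∀ j i, s0 j ≠ s1 i := by
    intro j i
    have h1 := H.eq j i
    have h2 := hhpos j i
    omega
  have hPcase : ∀ P : Pt 1 b, (∃ j, P = ((0 : Fin 2), fun _ => j)) ∨
      (∃ i, P = ((1 : Fin 2), fun _ => i)) := by
    rintro ⟨l, c⟩
    have hc : c = fun _ => c 0 := by
      funext i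
      rw [Subsingleton.elim i 0]
    fin_cases l
    · exact Or.inl ⟨c 0, by rw [← hc]; rfl⟩
    · exact Or.inr ⟨c 0, by rw [← hc]; rfl⟩
  have hsinj : Function.Injective s := by
    intro P P' hPP
    rcases hPcase P with ⟨j, rfl⟩ | ⟨i, rfl⟩
    · rcases hPcase P' with ⟨j', rfl⟩ | ⟨i', rfl⟩
      · rw [hsL, hsL] at hPP
        rw [hs0inj _ _ hPP]
      · rw [hsL, hsR] at hPP
        exact absurd hPP (hs01 _ _)
    · rcases hPcase P' with ⟨j', rfl⟩ | ⟨i', rfl⟩
      · rw [hsL, hsR] at hPP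
        exact absurd hPP.symm (hs01 _ _)
      · rw [hsR, hsR] at hPP
        rw [hs1inj _ _ hPP]
  -- valuations at the vertices
  have hvM : ∀ P, ∀ p : ℕ, p.Prime → p ∣ M0 →
      (vq D (X + s P)).factorization p = (A P).factorization p := by
    intro P p hp hd
    have hlt := hM0fac p hp hd
    rcases hPcase P with ⟨j, rfl⟩ | ⟨i, rfl⟩
    · rw [hsL, hA, if_pos rfl, hAL]
      rw [hAL] at hlt
      have h1 : p ^ ((vq D (y0 + 1)).factorization p + 1) ∣ M0 :=
        (hp.pow_dvd_iff_le_factorization hM0.ne').2 hlt.1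
      exact fac_congr hD hp ((hXM.add (H.s0one j)).of_dvd h1) le_rfl
    · rw [hsR, hA, if_neg (by norm_num), hAR]
      rw [hAR] at hlt
      have h1 : p ^ ((vq D y0).factorization p + 1) ∣ M0 :=
        (hp.pow_dvd_iff_le_factorization hM0.ne').2 hlt.2
      have h2 := hXM.add (H.s1zero i)
      rw [add_zero] at h2
      exact fac_congr hD hp (h2.of_dvd h1) le_rfl
  have hvle : ∀ P, ∀ p : ℕ, p.Prime → (∃ j i, p ∣ h j i) →
      (vq D (X + s P)).factorization p ≤ mm + 1 := by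
    rintro P p hp ⟨j, i, hd⟩
    obtain ⟨h1, h2, h3, h4⟩ := hres j i p hp hd
    have h5 := hw j i p
    rcases hPcase P with ⟨j', rfl⟩ | ⟨i', rfl⟩
    · rw [hsL]
      by_cases hj : j' = j
      · rw [hj, h1]; omega
      · rw [h3 j' hj]; omega
    · rw [hsR]
      by_cases hi : i' = i
      · rw [hi, h2]; omega
      · rw [h4 i' hi]; omega
  have hlow : ∀ P, ∀ p : ℕ, p.Prime → p ∣ Q →
      (vq D (X + s P)).factorization p < Q.factorization p := by
    intro P p hp hd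
    rcases hQp p hp hd with h1 | ⟨j, i, h1⟩
    · rw [hvM P p hp h1]
      have h2 : M0.factorization p ≤ Q.factorization p :=
        (Nat.factorization_le_iff_dvd hM0.ne' hQpos.ne').2 hMQ p
      have h3 := hM0fac p hp h1
      rw [hA]
      split_ifs <;> omega
    · have h2 := hvle P p hp ⟨j, i, h1⟩
      have h3 := hQfac j i p hp h1
      omega
  -- complementary exponents
  obtain ⟨Sd, hSd⟩ : ∃ Sd : Finset ℕ, Sd = (univ : Finset (Fin b × Fin b)).biUnion
    (fun e => (h e.1 e.2).primeFactors) := ⟨_, rfl⟩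
  have hSdm : ∀ p, p ∈ Sd ↔ p.Prime ∧ ∃ j i, p ∣ h j i := by
    intro p
    rw [hSd, mem_biUnion]
    constructor
    · rintro ⟨e, -, he⟩
      exact ⟨Nat.prime_of_mem_primeFactors he, e.1, e.2, Nat.dvd_of_mem_primeFactors he⟩
    · rintro ⟨hp, j, i, hd⟩
      exact ⟨(j, i), mem_univ _, Nat.mem_primeFactors.2 ⟨hp, hd, (hhpos j i).ne'⟩⟩
  have hSdc : Sd.card ≤ Z := by
    rw [hSd]
    refine card_biUnion_le.trans ?_
    refine (Finset.sum_le_card_nsmul _ _ _ fun e _ => H.hi e.1 e.2).trans ?_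
    rw [card_univ, Fintype.card_prod, Fintype.card_fin, smul_eq_mul, hZd]
  have hfl : ∀ P : Pt 1 b, ∃ L : List ℕ, (∀ m ∈ L, 1 ≤ m) ∧
      ∀ {Δ : Type} [CommMonoid Δ] (g : ℕ → Δ), g 0 = 1 →
        (∏ p ∈ Sd, g ((vq D (X + s P)).factorization p)) * (L.map g).prod =
          ∏ j ∈ Icc 1 (mm + 1), g j ^ Z := by
    intro P
    apply filler Sd (fun p => (vq D (X + s P)).factorization p) (mm + 1) Z hSdc
    intro p hp
    obtain ⟨hpp, hpd⟩ := (hSdm p).1 hp
    exact hvle P p hpp hpd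
  choose fl hfl1 hfl2 using hfl
  obtain ⟨exL, hexL⟩ : ∃ exL : Pt 1 b → List ℕ, ∀ P, exL P = fl P ++ (if P.1 = 0 then ex else []) :=
    ⟨_, fun _ => rfl⟩
  obtain ⟨Bf, hBf⟩ : ∃ Bf : ℕ, Bf = ∑ j, ∑ i, (((h j i : ℤ) ^ 2 - 4 * D).natAbs + h j i) :=
    ⟨_, rfl⟩
  have hBfe : ∀ j i, ((h j i : ℤ) ^ 2 - 4 * D).natAbs + h j i ≤ Bf := by
    intro j i
    rw [hBf]
    have h1 := single_le_sum (f := fun i => ((h j i : ℤ) ^ 2 - 4 * D).natAbs + h j i)
      (fun _ _ => Nat.zero_le _) (mem_univ i)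
    have h2 := single_le_sum (f := fun j => ∑ i, (((h j i : ℤ) ^ 2 - 4 * D).natAbs + h j i))
      (fun _ _ => Nat.zero_le _) (mem_univ j)
    exact h1.trans h2
  obtain ⟨Q', X', c, hQ'pos, hQQ', hX'X, hQ'p, hc⟩ := eqzQ hD s hsinj Q X Bf exL hQpos hlow (by
    intro P m hm
    rw [hexL] at hm
    rcases List.mem_append.1 hm with h1 | h1
    · exact hfl1 P m h1
    · split_ifs at h1 with h2
      · exact hex m h1
      · simp at h1)
  have hMQ' : M0 ∣ Q' := hMQ.trans hQQ'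
  -- the constants of the vertices
  have hcpos : ∀ P, 0 < c P := fun P => (hc P).1
  have hcQ' : ∀ P, c P ∣ Q' := fun P => (hc P).2.1
  have hcd : ∀ P n, c P ∣ vq D (Q' * n + (X' + s P)) := fun P => (hc P).2.2.1
  have hcq : ∀ P n p, p.Prime → p ∣ Q' → ¬ p ∣ vq D (Q' * n + (X' + s P)) / c P :=
    fun P => (hc P).2.2.2.1
  have hcv : ∀ P n p, p.Prime → p ∣ Q →
      (vq D (Q' * n + (X' + s P))).factorization p = (vq D (X + s P)).factorization p :=
    fun P => (hc P).2.2.2.2.1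
  have hcfac : ∀ P p, p.Prime → p ∣ M0 → (c P).factorization p = (A P).factorization p := by
    intro P p hp hd
    have h1 := hcv P 0 p hp (hd.trans hMQ)
    rw [hvM P p hp hd] at h1
    rw [← h1, ← Nat.div_mul_cancel (hcd P 0)]
    rw [Nat.factorization_mul (Nat.div_pos (Nat.le_of_dvd (vq_pos hD _) (hcd P 0)) (hcpos P)).ne'
      (hcpos P).ne', Finsupp.add_apply,
      Nat.factorization_eq_zero_of_not_dvd (hcq P 0 p hp (hd.trans hMQ')), zero_add]
  have hApos : ∀ P, 0 < A P := by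
    intro P
    rw [hA]
    split_ifs
    · exact hALpos
    · exact hARpos
  have hAM : ∀ P, A P ∣ M0 := by
    intro P
    rw [hA]
    split_ifs
    · exact hALM
    · exact hARM
  have hAc : ∀ P, A P ∣ c P := by
    intro P
    rw [← Nat.factorization_le_iff_dvd (hApos P).ne' (hcpos P).ne']
    intro p
    by_cases hp : p.Prime ∧ p ∣ M0
    · rw [hcfac P p hp.1 hp.2]
    · have : (A P).factorization p = 0 := by
        rcases not_and_or.1 hp with h1 | h1
        · exact Nat.factorization_eq_zero_of_not_prime _ h1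
        · exact Nat.factorization_eq_zero_of_not_dvd (fun h2 => h1 (h2.trans (hAM P)))
      rw [this]
      exact Nat.zero_le _
  obtain ⟨c', hc'⟩ : ∃ c' : Pt 1 b → ℕ, ∀ P, c P = A P * c' P := by
    choose c' hc' using hAc
    exact ⟨c', hc'⟩
  have hc'pos : ∀ P, 0 < c' P := by
    intro P
    have h1 := hcpos P
    rw [hc'] at h1
    exact Nat.pos_of_mul_pos_left h1
  have hc'M : ∀ P p, p.Prime → p ∣ c' P → ¬ p ∣ M0 := by
    intro P p hp hd hM
    have h1 := hcfac P p hp hM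
    rw [hc', Nat.factorization_mul (hApos P).ne' (hc'pos P).ne', Finsupp.add_apply] at h1
    have h2 := (hp.dvd_iff_one_le_factorization (hc'pos P).ne').1 hd
    omega
  have hc'F : ∀ P, Fm f (c' P) = Φ0 * (((if P.1 = 0 then ex else []) : List ℕ).map f).prod := by
    intro P
    have h1 := (hc P).2.2.2.2.2 f hf0
    have hQS : Q.primeFactors = M0.primeFactors ∪ Sd := by
      ext p
      rw [mem_union, Nat.mem_primeFactors, Nat.mem_primeFactors, hSdm]
      constructor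
      · rintro ⟨hp, hd, -⟩
        rcases hQp p hp hd with h2 | h2
        · exact Or.inl ⟨hp, h2, hM0.ne'⟩
        · exact Or.inr ⟨hp, h2⟩
      · rintro (⟨hp, hd, -⟩ | ⟨hp, j, i, hd⟩)
        · exact ⟨hp, hd.trans hMQ, hQpos.ne'⟩
        · exact ⟨hp, hd.trans (hhQ j i), hQpos.ne'⟩
    have hdisj : Disjoint M0.primeFactors Sd := by
      rw [disjoint_left]
      intro p hp1 hp2
      obtain ⟨hp, j, i, hd⟩ := (hSdm p).1 hp2
      exact hhM0 j i p hp hd (Nat.dvd_of_mem_primeFactors hp1)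
    have h2 : ∏ p ∈ M0.primeFactors, f ((vq D (X + s P)).factorization p) = Fm f (A P) := by
      rw [Fm_prod hf0 (S := M0.primeFactors) (Nat.primeFactors_mono (hAM P) hM0.ne')]
      apply prod_congr rfl
      intro p hp
      rw [hvM P p (Nat.prime_of_mem_primeFactors hp) (Nat.dvd_of_mem_primeFactors hp)]
    have hcop : Nat.Coprime (A P) (c' P) := by
      apply cop_of
      intro p hp h3 h4
      exact hc'M P p hp h4 (h3.trans (hAM P))
    rw [hQS, prod_union hdisj, h2, hc', Fm_mul f (hApos P).ne' (hc'pos P).ne' hcop, hexL,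
      List.map_append, List.prod_append] at h1
    have h3 : Fm f (A P) * Fm f (c' P) = Fm f (A P) * (Φ0 *
        (((if P.1 = 0 then ex else []) : List ℕ).map f).prod) := by
      rw [h1, hΦ0, ← hfl2 P f hf0]
      ac_rfl
    exact mul_left_cancel h3
  -- the arguments
  obtain ⟨xx, hxx⟩ : ∃ xx : Pt 1 b → ℕ → ℕ, ∀ P n, xx P n = Q' * n + (X' + s P) :=
    ⟨_, fun _ _ => rfl⟩
  obtain ⟨ν, hν⟩ : ∃ ν : Ln 1 b → ℕ → ℕ, ∀ e n, ν e n =
      (((xx (pt 0 e) n : ℤ) * (xx (pt 1 e) n) - D) / (h (e 1) (e 0) : ℤ)).toNat :=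
    ⟨_, fun _ _ => rfl⟩
  have hQ'D : D.natAbs + 1 ≤ Q' := by
    have h1 : B ≤ BF := by rw [hBF]; exact Nat.self_le_factorial B
    have h2 : BF ≤ Q' := Nat.le_of_dvd hQ'pos (hBM0.trans hMQ')
    omega
  have hxge : ∀ P n, 1 ≤ n → D.natAbs + 1 ≤ xx P n := by
    intro P n hn
    rw [hxx]
    have h1 : Q' ≤ Q' * n := Nat.le_mul_of_pos_right _ hn
    omega
  have hs_pt0 : ∀ e : Ln 1 b, s (pt 0 e) = s0 (e 1) := fun e => by rw [pt0, hsL]
  have hs_pt1 : ∀ e : Ln 1 b, s (pt 1 e) = s1 (e 0) := fun e => by rw [pt1, hsR]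
  have hxy : ∀ e n, xx (pt 0 e) n = xx (pt 1 e) n + h (e 1) (e 0) := by
    intro e n
    rw [hxx, hxx, hs_pt0, hs_pt1, H.eq (e 1) (e 0)]
    ring
  have hDxy : ∀ P P' n, 1 ≤ n → D < (xx P n : ℤ) * (xx P' n) := by
    intro P P' n hn
    have h1 := hxge P n hn
    have h2 := hxge P' n hn
    have h3 : D ≤ |D| := le_abs_self D
    have h4 : ((D.natAbs + 1 : ℕ) : ℤ) ≤ xx P n := by exact_mod_cast h1
    have h5 : ((D.natAbs + 1 : ℕ) : ℤ) ≤ xx P' n := by exact_mod_cast h2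
    have h6 : 0 ≤ |D| := abs_nonneg D
    push_cast at h4 h5
    have h7 : (|D| + 1) * (|D| + 1) ≤ (xx P n : ℤ) * (xx P' n) :=
      mul_le_mul h4 h5 (by linarith) (by linarith)
    have h8 : (|D| + 1) * (|D| + 1) = |D| * |D| + 2 * |D| + 1 := by ring
    have h9 : 0 ≤ |D| * |D| := mul_nonneg h6 h6
    linarith
  obtain ⟨V, hV⟩ : ∃ V : Pt 1 b → ℕ → ℕ, ∀ P n, V P n = vq D (xx P n) / c P := ⟨_, fun _ _ => rfl⟩
  have hVval : ∀ P n, vq D (xx P n) = A P * c' P * V P n := by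
    intro P n
    rw [← hc', hV, Nat.mul_div_cancel']
    rw [hxx]
    exact hcd P n
  have hVQ' : ∀ P n p, p.Prime → p ∣ Q' → ¬ p ∣ V P n := by
    intro P n p hp hd
    rw [hV, hxx]
    exact hcq P n p hp hd
  have hfacx : ∀ (e : Ln 1 b) n p, p.Prime → p ∣ h (e 1) (e 0) →
      (vq D (xx (pt 0 e) n)).factorization p = w (e 1) (e 0) p + 1 := by
    intro e n p hp hd
    rw [hxx, hcv _ n p hp (hd.trans (hhQ _ _)), hs_pt0]
    exact (hres _ _ p hp hd).1
  have hfacy : ∀ (e : Ln 1 b) n p, p.Prime → p ∣ h (e 1) (e 0) →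
      (vq D (xx (pt 1 e) n)).factorization p = 1 := by
    intro e n p hp hd
    rw [hxx, hcv _ n p hp (hd.trans (hhQ _ _)), hs_pt1]
    exact (hres _ _ p hp hd).2.1
  -- integrality, in general
  have hνz : ∀ e n, 1 ≤ n → ((xx (pt 0 e) n : ℤ) * (xx (pt 1 e) n) - D) =
      (h (e 1) (e 0) : ℤ) * (ν e n : ℤ) := by
    intro e n hn
    have hdy : h (e 1) (e 0) ∣ vq D (xx (pt 1 e) n) := by
      apply sqf_dvd (H.sq _ _) (vq_pos hD _).ne'
      intro p hp hd
      exact Nat.dvd_of_factorization_pos (by rw [hfacy e n p hp hd]; norm_num)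
    obtain ⟨Nz, hNz, -⟩ := vq_comp (hhpos _ _) (hxy e n) hdy
    have hhz : (0 : ℤ) < (h (e 1) (e 0) : ℤ) := by exact_mod_cast hhpos _ _
    have hNpos : 0 < Nz := by
      have h1 : (0 : ℤ) < (h (e 1) (e 0) : ℤ) * Nz := by
        rw [← hNz]
        have := hDxy (pt 0 e) (pt 1 e) n hn
        linarith
      exact pos_of_mul_pos_right h1 hhz.le
    have h2 : (ν e n : ℤ) = Nz := by
      rw [hν, hNz, Int.mul_ediv_cancel_left _ hhz.ne', Int.toNat_of_nonneg hNpos.le]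
    rw [h2, hNz]
  obtain ⟨Ss, hSs⟩ : ∃ Ss : ℕ, Ss = Q' + X' + ∑ P, s P := ⟨_, rfl⟩
  have hxle : ∀ P n, 1 ≤ n → xx P n ≤ Ss * n := by
    intro P n hn
    have h1 := single_le_sum (f := fun P => s P) (fun _ _ => Nat.zero_le _) (mem_univ P)
    have h2 : X' + s P ≤ (X' + ∑ P, s P) * n :=
      (Nat.add_le_add_left h1 _).trans (Nat.le_mul_of_pos_right _ hn)
    rw [hxx, hSs]
    calc Q' * n + (X' + s P) ≤ Q' * n + (X' + ∑ P, s P) * n := Nat.add_le_add_left h2 _
      _ = _ := by ring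
  obtain ⟨Cb, hCb⟩ : ∃ Cb : ℕ, Cb = (∑ P, c' P) * (∑ P, c' P) := ⟨_, rfl⟩
  refine ⟨Cb, ?_⟩
  obtain ⟨W, hW⟩ : ∃ W : ℕ, W = Ss ^ 2 + D.natAbs + 1 := ⟨_, rfl⟩
  have hW1 : 1 ≤ W := by omega
  have : Nonempty (Ln 1 b) := ⟨fun _ => ⟨0, by omega⟩⟩
  have hfinal := count_map3 (E := Ln 1 b) W K0 hW1 ν ?_ ?_
    (fun X n => (∀ P, Squarefree (V P n)) ∧
      ∑ P, (V P n).primeFactors.card ≤
        (1 + 1) * b ^ 1 * (C2 * (Nat.log 2 ((1 + 1) * b ^ 1) + 1)) ∧
      ∀ P, ∀ p : ℕ, p.Prime → p ∣ V P n → X < p ^ K0)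
    (fun X n => GoodN f D y0 MB M (2 * K0 + 1 + (K0 + 1)) Cb X
      (Φ0 * Φ0 * Km ^ Cm * f 1 ^ (2 * (T + 1)) / f 1 ^ (2 * Nn) * (ex.map f).prod) n) ?_ ?_
  · -- the exponent of the logarithm
    have hlogX : Tendsto (fun X : ℕ => Real.log (X : ℝ)) atTop atTop :=
      Real.tendsto_log_atTop.comp tendsto_natCast_atTop_atTop
    filter_upwards [hfinal, hlogX.eventually_ge_atTop 1] with X1 h1 h2
    refine le_trans ?_ h1
    apply div_le_div_of_nonneg_left (Real.sqrt_nonneg _) (by positivity)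
    exact pow_le_pow_right₀ h2 (by omega)
  · intro e n n' hn hn' hnn
    have h1 := hνz e n hn
    have h2 := hνz e n' hn'
    rw [hnn, ← h2] at h1
    have h3 : (xx (pt 0 e) n : ℤ) * (xx (pt 1 e) n) = (xx (pt 0 e) n' : ℤ) * (xx (pt 1 e) n') := by
      linarith
    have h4 : xx (pt 0 e) n * xx (pt 1 e) n = xx (pt 0 e) n' * xx (pt 1 e) n' := by
      exact_mod_cast h3
    have hmono : ∀ P a a', a < a' → xx P a < xx P a' := by
      intro P a a' haa
      rw [hxx, hxx]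
      have : Q' * a < Q' * a' := Nat.mul_lt_mul_of_pos_left haa hQ'pos
      omega
    rcases lt_trichotomy n n' with hlt | heq | hgt
    · have h5 := Nat.mul_lt_mul'' (hmono (pt 0 e) _ _ hlt) (hmono (pt 1 e) _ _ hlt)
      omega
    · exact heq
    · have h5 := Nat.mul_lt_mul'' (hmono (pt 0 e) _ _ hgt) (hmono (pt 1 e) _ _ hgt)
      omega
  · intro e n hn
    have h1 := hνz e n hn
    have h2 := hxle (pt 0 e) n hn
    have h3 := hxle (pt 1 e) n hn
    have h4 : (ν e n : ℤ) ≤ (h (e 1) (e 0) : ℤ) * (ν e n : ℤ) := by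
      have h6 : (1 : ℤ) ≤ (h (e 1) (e 0) : ℤ) := by exact_mod_cast hhpos _ _
      have h5 : (0 : ℤ) ≤ (ν e n : ℤ) := Int.natCast_nonneg _
      exact le_mul_of_one_le_left h5 h6
    rw [← h1] at h4
    have h5 : (xx (pt 0 e) n : ℤ) * (xx (pt 1 e) n) ≤ ((Ss * n) * (Ss * n) : ℕ) := by
      exact_mod_cast Nat.mul_le_mul h2 h3
    have h6 : -D ≤ (D.natAbs : ℤ) := by
      rw [Int.natCast_natAbs]
      exact neg_le_abs D
    have h7 : (D.natAbs : ℤ) ≤ (D.natAbs * n ^ 2 : ℕ) := by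
      have : D.natAbs ≤ D.natAbs * n ^ 2 := Nat.le_mul_of_pos_right _ (pow_pos hn 2)
      exact_mod_cast this
    have h8 : (ν e n : ℤ) ≤ ((W * n ^ 2 : ℕ) : ℤ) := by
      have e1 : ((W * n ^ 2 : ℕ) : ℤ) = ((Ss * n) * (Ss * n) : ℕ) + (D.natAbs * n ^ 2 : ℕ) +
          ((n ^ 2 : ℕ) : ℤ) := by
        rw [hW]
        push_cast
        ring
      rw [e1]
      have h9 : (0 : ℤ) ≤ ((n ^ 2 : ℕ) : ℤ) := Int.natCast_nonneg _
      linarith
    exact_mod_cast h8
  · have h1 := hS2 (Pt 1 b) hcardP (fun _ => D) Q' (fun P => X' + s P) c (fun _ => hD) hQ'pos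
      hcd (fun P p hp hd => hd.trans (hcQ' P)) (fun P n p hp hd => hcq P n p hp hd)
      (by
        intro p hp hpb
        exact (hM1 p hp (by rw [pow_one] at hpb; omega)).trans hMQ')
    filter_upwards [h1] with X1 hX1
    refine hX1.trans (le_of_eq ?_)
    rw [← Set.ncard_coe_finset]
    congr 2
    ext n
    rw [mem_coe, mem_filter, mem_Icc, Set.mem_ofPred_eq, and_assoc]
    simp only [hV, hxx]
  · filter_upwards [eventually_ge_atTop ((4 * W + Bf + 1) ^ K0)] with X1 hX1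
    intro n hn1 hnX hgood
    obtain ⟨hsq, hsum, hrough⟩ := hgood
    obtain ⟨e, he⟩ := hcomb (fun P => (V P n).primeFactors.card) (by omega)
    refine ⟨e, fun X2 hX2 => ?_⟩
    obtain ⟨x, hx⟩ : ∃ x, x = xx (pt 0 e) n := ⟨_, rfl⟩
    obtain ⟨y, hy⟩ : ∃ y, y = xx (pt 1 e) n := ⟨_, rfl⟩
    obtain ⟨j, hj⟩ : ∃ j, j = e 1 := ⟨_, rfl⟩
    obtain ⟨i, hi⟩ : ∃ i, i = e 0 := ⟨_, rfl⟩
    have hbigV : ∀ P p, p.Prime → p ∣ V P n → 4 * W + Bf + 1 < p := by
      intro P p hp hd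
      have h1 := hrough P p hp hd
      by_contra hle
      have h3 := Nat.pow_le_pow_left (not_lt.1 hle) K0
      omega
    have hA0 : A (pt 0 e) = AL := by rw [hA, pt0, if_pos rfl]
    have hA1 : A (pt 1 e) = AR := by rw [hA, pt1, if_neg (by norm_num)]
    have hxy' : x = y + h j i := by rw [hx, hy, hj, hi]; exact hxy e n
    have hvx : vq D x = AL * c' (pt 0 e) * V (pt 0 e) n := by rw [hx, ← hA0]; exact hVval _ n
    have hvy : vq D y = AR * c' (pt 1 e) * V (pt 1 e) n := by rw [hy, ← hA1]; exact hVval _ n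
    have hc'Q' : ∀ P, c' P ∣ Q' := by
      intro P
      refine dvd_trans ?_ (hcQ' P)
      rw [hc']
      exact dvd_mul_left _ _
    have hno : ∀ p : ℕ, p.Prime → ¬ p ∣ h j i → ¬ p ∣ M0 → p ∣ vq D x → ¬ p ∣ vq D y := by
      intro p hp hph hpM hpx hpy
      by_cases hbig : Bf < p
      · -- large primes
        have hb := hBfe j i
        have e0 : (x : ℤ) - y = h j i := by
          have : (x : ℤ) = ((y + h j i : ℕ) : ℤ) := by rw [hxy']
          push_cast at this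
          linarith
        revert hpx
        apply other_root hp hpy
        · rw [e0]
          intro h2
          exact hph (by exact_mod_cast h2)
        · rw [e0]
          apply nd
          · intro h0
            have h2 := ns_mul hD (w := 2) (u := (h j i : ℤ)) (by linarith)
            norm_num at h2
          · omega
      · -- primes of other lines
        have hpQ' : p ∣ Q' := by
          rw [hvx] at hpx
          rcases (hp.dvd_mul).1 hpx with h1 | h1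
          · rcases (hp.dvd_mul).1 h1 with h2 | h2
            · exact (h2.trans hALM).trans hMQ'
            · exact h2.trans (hc'Q' _)
          · have := hbigV _ p hp h1
            omega
        have hpQ : p ∣ Q := by
          rcases hQ'p p hp hpQ' with h1 | h1
          · exact h1
          · omega
        rcases hQp p hp hpQ with h1 | ⟨j', i', h1⟩
        · exact hpM h1
        · obtain ⟨-, -, h4, h5⟩ := hres j' i' p hp h1
          have hjj : j = j' := by
            by_contra hne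
            have h6 := h4 j hne
            have h7 := hcv (pt 0 e) n p hp hpQ
            rw [hs_pt0, ← hj, h6] at h7
            have h8 : (vq D x).factorization p = 0 := by rw [hx, hxx, hs_pt0, ← hj]; exact h7
            have h9 := (hp.dvd_iff_one_le_factorization (vq_pos hD x).ne').1 hpx
            omega
          have hii : i = i' := by
            by_contra hne
            have h6 := h5 i hne
            have h7 := hcv (pt 1 e) n p hp hpQ
            rw [hs_pt1, ← hi, h6] at h7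
            have h8 : (vq D y).factorization p = 0 := by rw [hy, hxx, hs_pt1, ← hi]; exact h7
            have h9 := (hp.dvd_iff_one_le_factorization (vq_pos hD y).ne').1 hpy
            omega
          rw [← hjj, ← hii] at h1
          exact hph h1
    obtain ⟨N, hN, cc, hvN, hccle, hssq, hccM, hFN⟩ := combine f hf0 hD (w j i) hxy' (H.sq j i)
      (by rw [hx, hy]; exact hDxy _ _ n hn1) hvx hvy
      (fun p hp hd => hd.trans hALM) (fun p hp hd => hd.trans hARM)
      (fun p hp hd => hhM0 j i p hp hd) (fun p hp hd => hc'M _ p hp hd)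
      (fun p hp hd => hc'M _ p hp hd) (hc'Q' _) (hc'Q' _) ((hhQ j i).trans hQQ') hMQ'
      (fun p hp hd => hVQ' _ n p hp hd) (fun p hp hd => hVQ' _ n p hp hd) (hsq _) (hsq _)
      (by
        intro p hp hd
        rw [hx, hj, hi]
        rw [hj, hi] at hd
        exact hfacx e n p hp hd)
      (by
        intro p hp hd
        rw [hy]
        rw [hj, hi] at hd
        exact hfacy e n p hp hd) hno
    have hNν : ν e n = N := by
      have h1 := hνz e n hn1
      rw [← hx, ← hy, hN, ← hj, ← hi] at h1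
      have h2 : (0 : ℤ) < (h j i : ℤ) := by exact_mod_cast hhpos _ _
      have h3 := mul_left_cancel₀ h2.ne' h1
      exact_mod_cast h3.symm
    show GoodN f D y0 MB M (2 * K0 + 1 + (K0 + 1)) Cb X2 _ (ν e n)
    rw [hNν]
    refine ⟨?_, ?_, cc, V (pt 0 e) n * V (pt 1 e) n, ?_, ?_, hssq, ?_, ?_, ?_⟩
    · -- the size
      have hyB : B ≤ y := by
        have h1 : B ≤ BF := by rw [hBF]; exact Nat.self_le_factorial B
        have h2 : BF ≤ Q' := Nat.le_of_dvd hQ'pos (hBM0.trans hMQ')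
        have h3 : Q' ≤ Q' * n := Nat.le_mul_of_pos_right _ hn1
        have h4 : Q' * n ≤ y := by rw [hy, hxx]; exact Nat.le_add_right _ _
        exact h1.trans (h2.trans (h3.trans h4))
      have hyM : (M : ℤ) + |D| ≤ y := by
        have h1 : ((M + D.natAbs : ℕ) : ℤ) ≤ y := by
          have : M + D.natAbs ≤ y := by omega
          exact_mod_cast this
        push_cast at h1
        exact h1
      have hh1 : (1 : ℤ) ≤ (h j i : ℤ) := by exact_mod_cast hhpos j i
      have hxz : (x : ℤ) = y + h j i := by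
        have : (x : ℤ) = ((y + h j i : ℕ) : ℤ) := by rw [hxy']
        push_cast at this
        exact this
      have h5 : (h j i : ℤ) * M ≤ (h j i : ℤ) * N := by
        rw [← hN, hxz]
        have h6 : D ≤ |D| := le_abs_self D
        have h7 : 0 ≤ |D| := abs_nonneg D
        have h8 : (h j i : ℤ) * (M + |D|) ≤ (h j i : ℤ) * y :=
          mul_le_mul_of_nonneg_left hyM (by linarith)
        have h9 : (0 : ℤ) ≤ (y : ℤ) * y := by positivity
        have h10 : |D| ≤ (h j i : ℤ) * |D| := le_mul_of_one_le_left h7 hh1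
        have e1 : (h j i : ℤ) * (M + |D|) = (h j i : ℤ) * M + (h j i : ℤ) * |D| := by ring
        have e2 : ((y : ℤ) + h j i) * y - D = (y : ℤ) * y + (h j i : ℤ) * y - D := by ring
        linarith
      have h6 : (M : ℤ) ≤ N := le_of_mul_le_mul_left h5 (by linarith)
      exact_mod_cast h6
    · -- the congruence
      have hx1 : (M0 : ℤ) ∣ (x : ℤ) - (y0 + 1) := by
        have h1 : x ≡ y0 + 1 [MOD M0] := by
          rw [hx, hxx, hs_pt0]
          have h2 : Q' * n ≡ 0 [MOD M0] := (Nat.modEq_zero_iff_dvd).2 (hMQ'.mul_right _)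
          have h3 := h2.add (((hX'X.of_dvd hMQ).trans hXM).add (H.s0one (e 1)))
          simpa using h3
        have := (Nat.modEq_iff_dvd).1 h1.symm
        push_cast at this
        exact this
      have hy1 : (M0 : ℤ) ∣ (y : ℤ) - y0 := by
        have h1 : y ≡ y0 [MOD M0] := by
          rw [hy, hxx, hs_pt1]
          have h2 : Q' * n ≡ 0 [MOD M0] := (Nat.modEq_zero_iff_dvd).2 (hMQ'.mul_right _)
          have h3 := h2.add (((hX'X.of_dvd hMQ).trans hXM).add (H.s1zero (e 0)))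
          simpa using h3
        exact (Nat.modEq_iff_dvd).1 h1.symm
      have hh1 : (M0 : ℤ) ∣ (h j i : ℤ) - 1 := by
        have := (Nat.modEq_iff_dvd).1 (H.one j i).symm
        push_cast at this
        exact this
      have h4 : (M0 : ℤ) ∣ (N : ℤ) - ((y0 : ℤ) ^ 2 + y0 - D) := by
        have e1 : (N : ℤ) - ((y0 : ℤ) ^ 2 + y0 - D) = ((x : ℤ) - (y0 + 1)) * y +
            (y0 + 1) * ((y : ℤ) - y0) - ((h j i : ℤ) - 1) * N - ((x : ℤ) * y - D - h j i * N) := by
          ring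
        rw [e1, hN, sub_self, sub_zero]
        exact dvd_sub (dvd_add (hx1.mul_right _) (hy1.mul_left _)) (hh1.mul_right _)
      exact (show (MB : ℤ) ∣ (M0 : ℤ) by exact_mod_cast hMBM0).trans h4
    · rw [← hAL, ← hAR, hvN]
    · refine hccle.trans ?_
      rw [hCb]
      exact Nat.mul_le_mul
        (single_le_sum (f := fun P => c' P) (fun _ _ => Nat.zero_le _) (mem_univ _))
        (single_le_sum (f := fun P => c' P) (fun _ _ => Nat.zero_le _) (mem_univ _))
    · intro p hp hpS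
      obtain ⟨P, hP⟩ : ∃ P, p ∣ V P n := by
        rcases (hp.dvd_mul).1 hpS with h1 | h1
        · exact ⟨_, h1⟩
        · exact ⟨_, h1⟩
      have h1 := hrough P p hp hP
      have h2 := hbigV P p hp hP
      have h3 : 4 * W < p := by omega
      calc X2 < 4 * W * X1 ^ 2 := hX2
        _ ≤ p * (p ^ K0) ^ 2 := Nat.mul_le_mul h3.le (Nat.pow_le_pow_left h1.le 2)
        _ = p ^ (2 * K0 + 1) := by ring
        _ ≤ p ^ (2 * K0 + 1 + (K0 + 1)) := Nat.pow_le_pow_right hp.pos (Nat.le_add_right _ _)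
    · intro p hp hpd
      have h1 := hccM p hp hpd
      by_contra hle
      exact h1 (hM1 p hp (by omega))
    · -- the value
      have hU0 := he 0
      have hU1 := he 1
      beta_reduce at hU0 hU1
      have hρe : e = ![i, j] := by
        funext l
        fin_cases l
        · exact hi.symm
        · exact hj.symm
      have hcnt' := hcnt j i
      rw [← hρe] at hcnt'
      have hlo := H.lo j i
      rw [hw2 j i (kap f) (kap_zero f hf0), mix_prod f Lp Lm hrel (hcntle j i), ← hKm,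
        hc'F, hc'F] at hFN
      have hp0 : (pt 0 e : Pt 1 b).1 = 0 := rfl
      have hp1 : ¬ (pt 1 e : Pt 1 b).1 = 0 := by
        show ¬ (1 : Fin 2) = 0
        norm_num
      rw [if_pos hp0, if_neg hp1, List.map_nil, List.prod_nil, mul_one] at hFN
      obtain ⟨U0, hU0d⟩ : ∃ U0, U0 = (V (pt 0 e) n).primeFactors.card := ⟨_, rfl⟩
      obtain ⟨U1, hU1d⟩ : ∃ U1, U1 = (V (pt 1 e) n).primeFactors.card := ⟨_, rfl⟩
      rw [← hU0d, ← hU1d] at hFN
      rw [← hU0d] at hU0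
      rw [← hU1d] at hU1
      have hcount : U0 + U1 + cnt j i + 2 * Nn = 2 * (T + 1) + 2 * (h j i).primeFactors.card := by
        omega
      have hpw : f 1 ^ (U0 + U1) * f 1 ^ cnt j i * f 1 ^ (2 * Nn) =
          f 1 ^ (2 * (T + 1)) * f 1 ^ (2 * (h j i).primeFactors.card) := by
        rw [← pow_add, ← pow_add, hcount, pow_add]
      rw [div_mul_eq_mul_div, eq_div_iff_mul_eq']
      apply mul_right_cancel (b := f 1 ^ (2 * (h j i).primeFactors.card))
      calc Fm f (cc * (V (pt 0 e) n * V (pt 1 e) n)) * f 1 ^ (2 * Nn) *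
            f 1 ^ (2 * (h j i).primeFactors.card)
          = (Fm f (cc * (V (pt 0 e) n * V (pt 1 e) n)) *
            f 1 ^ (2 * (h j i).primeFactors.card)) * f 1 ^ (2 * Nn) := by ac_rfl
        _ = (Φ0 * (ex.map f).prod * Φ0 * f 1 ^ (U0 + U1) * (f 1 ^ cnt j i * Km ^ Cm)) *
            f 1 ^ (2 * Nn) := by rw [hFN]
        _ = (f 1 ^ (U0 + U1) * f 1 ^ cnt j i * f 1 ^ (2 * Nn)) *
            (Φ0 * Φ0 * Km ^ Cm * (ex.map f).prod) := by ac_rfl
        _ = _ := by
            rw [hpw]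
            ac_rfl

end Pool.Agent.Y887.QE
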