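import Mathlib
import Pool.Agent.Y887.QE.Mn2

/-!
Prescribed values of prime independent multiplicative functions at the values of all irreducible
quadratic polynomials.
-/

set_option autoImplicit false

namespace Pool.Agent.Y887.QE

open Finset Filter Pool.Agent.Y887.DK
open Pool.Agent.Y887.DE (kap kap_gadget)

/-- elements of the monoid generated by the values -/
theorem monoid_list {Γ : Type} [CommGroup Γ] (f : ℕ → Γ) (δ : Γ)
    (hδ : δ ∈ Submonoid.closure (f '' {j | 1 ≤ j})) :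
    ∃ ex : List ℕ, (∀ m ∈ ex, 1 ≤ m) ∧ (ex.map f).prod = δ := by
  induction hδ using Submonoid.closure_induction with
  | mem x hx =>
    obtain ⟨k, hk, rfl⟩ := hx
    exact ⟨[k], by simpa using hk, by simp⟩
  | one => exact ⟨[], by simp, by simp⟩
  | mul x y _ _ hx hy =>
    obtain ⟨U, h1, h3⟩ := hx
    obtain ⟨U', h1', h3'⟩ := hy
    refine ⟨U ++ U', ?_, ?_⟩
    · intro k hk
      rcases List.mem_append.1 hk with h | h
      · exact h1 k h
      · exact h1' k h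
    · rw [List.map_append, List.prod_append, h3, h3']

theorem quadratic {Γ : Type} [CommGroup Γ] (f : ℕ → Γ) (hf0 : f 0 = 1) (u v : Multiset ℕ)
    (hu : ∀ j ∈ u, 1 ≤ j) (hv : ∀ j ∈ v, 1 ≤ j) (hsum : u.sum = v.sum + 1)
    (huv : (u.map f).prod = (v.map f).prod) :
    ∃ (Φ : Γ) (K : ℕ), ∀ α β γ : ℤ, 0 < α → ¬ IsSquare (β ^ 2 - 4 * α * γ) →
      ∃ m0 : ℕ, 0 < m0 ∧ ∀ δ ∈ Submonoid.closure (f '' {j | 1 ≤ j}), ∀ M : ℕ, ∃ C : ℕ,
        ∀ᶠ X : ℕ in atTop, √(X : ℝ) / Real.log X ^ K ≤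
          ({n : ℕ | n ≤ X ∧ ∃ c s : ℕ, α * n ^ 2 + β * n + γ = ((m0 * (c * s) : ℕ) : ℤ) ∧
            Fm f (c * s) = Φ * δ ∧ (∀ p : ℕ, p.Prime → p ∣ c * s → M < p) ∧ c ≤ C ∧
            Squarefree s ∧ ∀ p : ℕ, p.Prime → p ∣ s → X < p ^ K}.ncard : ℝ) := by
  classical
  obtain ⟨Lp, Lm, -, -, hrel⟩ := kap_gadget f u v hu hv hsum huv
  obtain ⟨Φ, K, hmain⟩ := main f hf0 Lp Lm hrel
  refine ⟨Φ, K, ?_⟩
  intro α β γ hα hdisc
  obtain ⟨D, hD⟩ : ∃ D : ℤ, D = β ^ 2 - 4 * α * γ := ⟨_, rfl⟩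
  rw [← hD] at hdisc
  -- the base point
  obtain ⟨y0, hy0⟩ : ∃ y0 : ℕ, (y0 : ℤ) = β + 4 * α * |β| := by
    have h1 : 0 ≤ β + 4 * α * |β| := by
      have h2 := neg_abs_le β
      have h3 := abs_nonneg β
      nlinarith
    exact ⟨(β + 4 * α * |β|).toNat, Int.toNat_of_nonneg h1⟩
  have h4α : (4 * α) ∣ (y0 : ℤ) ^ 2 - D := by
    rw [hy0, hD]
    refine ⟨|β| * (2 * β + 4 * α * |β|) + γ, ?_⟩
    ring
  obtain ⟨a, ha⟩ : ∃ a : ℕ, α = (a : ℤ) := ⟨α.toNat, (Int.toNat_of_nonneg hα.le).symm⟩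
  have hapos : 0 < a := by
    rw [ha] at hα
    exact_mod_cast hα
  have h4a : 4 * a ∣ vq D y0 := by
    rw [dvd_vq]
    push_cast
    rw [← ha]
    exact h4α
  obtain ⟨q, hq⟩ := h4a
  have hv0 := vq_pos hdisc y0
  have hv1 := vq_pos hdisc (y0 + 1)
  have hqpos : 0 < q := by
    rw [hq] at hv0
    exact Nat.pos_of_mul_pos_left hv0
  refine ⟨vq D (y0 + 1) * q, Nat.mul_pos hv1 hqpos, ?_⟩
  intro δ hδ M
  obtain ⟨ex, hex1, hex2⟩ := monoid_list f δ hδ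
  obtain ⟨M', hM'⟩ : ∃ M' : ℕ, M' = M + β.natAbs + D.natAbs + 1 := ⟨_, rfl⟩
  obtain ⟨C, hC⟩ := hmain D hdisc y0 (2 * a) (by omega) ex hex1 M'
  refine ⟨C, ?_⟩
  filter_upwards [hC, eventually_ge_atTop β.natAbs] with X hX hXβ
  refine hX.trans ?_
  rw [hex2]
  obtain ⟨W, hW⟩ : ∃ W : Set ℕ, W = {n : ℕ | n ≤ X ∧ ∃ c s : ℕ,
    α * n ^ 2 + β * n + γ = ((vq D (y0 + 1) * q * (c * s) : ℕ) : ℤ) ∧
            Fm f (c * s) = Φ * δ ∧ (∀ p : ℕ, p.Prime → p ∣ c * s → M < p) ∧ c ≤ C ∧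
            Squarefree s ∧ ∀ p : ℕ, p.Prime → p ∣ s → X < p ^ K} := ⟨_, rfl⟩
  rw [← hW]
  have hWfin : W.Finite := by
    rw [hW]
    exact (Set.finite_Iic X).subset fun n hn => hn.1
  -- every good argument is `2 a n + β`
  have key : ∀ N : ℕ, N ≤ X → GoodN f D y0 (2 * a) M' K C X (Φ * δ) N →
      ∃ n ∈ W, (N : ℤ) = 2 * a * n + β := by
    intro N hNX hgood
    obtain ⟨hMN, hdvd, c, s, hval, hcC, hss, hrough, hMp, hF⟩ := hgood
    have hNβ : (β.natAbs : ℤ) + D.natAbs + 1 ≤ N := by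
      have : β.natAbs + D.natAbs + 1 ≤ N := by omega
      exact_mod_cast this
    rw [Int.natCast_natAbs, Int.natCast_natAbs] at hNβ
    have h1 : (2 * a : ℤ) ∣ (N : ℤ) - β := by
      have h2 : (2 * a : ℤ) ∣ ((y0 : ℤ) ^ 2 + y0 - D) - β := by
        rw [← ha, hy0, hD]
        refine ⟨2 * |β| * (2 * β + 4 * α * |β|) + 2 * γ + 2 * |β|, ?_⟩
        ring
      have h3 := dvd_add (show (2 * a : ℤ) ∣ (N : ℤ) - ((y0 : ℤ) ^ 2 + y0 - D) by
        exact_mod_cast hdvd) h2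
      have e : (N : ℤ) - ((y0 : ℤ) ^ 2 + y0 - D) + (((y0 : ℤ) ^ 2 + y0 - D) - β) = N - β := by
        ring
      rwa [e] at h3
    obtain ⟨nz, hnz⟩ := h1
    have ha0 : (0 : ℤ) < a := by exact_mod_cast hapos
    have hnz0 : 0 ≤ nz := by
      by_contra hneg
      push Not at hneg
      have h2 : (2 * a : ℤ) * nz < 0 := mul_neg_of_pos_of_neg (by linarith) hneg
      have h3 := le_abs_self β
      have h4 := abs_nonneg D
      linarith
    obtain ⟨n, hn⟩ : ∃ n : ℕ, nz = (n : ℤ) := ⟨nz.toNat, (Int.toNat_of_nonneg hnz0).symm⟩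
    rw [hn] at hnz
    have hNn : (N : ℤ) = 2 * a * n + β := by linarith
    refine ⟨n, ?_, hNn⟩
    rw [hW]
    have hquad : (N : ℤ) ^ 2 - D = 4 * a * (α * n ^ 2 + β * n + γ) := by
      rw [hNn, hD, ha]
      ring
    have hpos : 0 < (N : ℤ) ^ 2 - D := by
      have h2 := le_abs_self D
      have h3 := abs_nonneg β
      have h4 : (1 : ℤ) ≤ N := by
        have := abs_nonneg D
        linarith
      nlinarith
    have hvN : ((vq D N : ℕ) : ℤ) = (N : ℤ) ^ 2 - D := by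
      unfold vq
      rw [Int.natCast_natAbs, abs_of_pos hpos]
    refine ⟨?_, c, s, ?_, hF, ?_, hcC, hss, hrough⟩
    · -- the size of `n`
      have h2 : (n : ℤ) ≤ X := by
        have h3 : (N : ℤ) ≤ X := by exact_mod_cast hNX
        have h4 : ((β.natAbs : ℕ) : ℤ) ≤ X := by exact_mod_cast hXβ
        rw [Int.natCast_natAbs] at h4
        have h5 := neg_abs_le β
        have h6 : (2 * (n : ℤ)) ≤ 2 * a * n := by
          have : (1 : ℤ) ≤ a := by linarith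
          have h7 : (0 : ℤ) ≤ (n : ℤ) := Int.natCast_nonneg n
          nlinarith
        linarith
      exact_mod_cast h2
    · have h2 : (4 * (a : ℤ)) * (α * n ^ 2 + β * n + γ) =
          (4 * (a : ℤ)) * ((vq D (y0 + 1) * q * (c * s) : ℕ) : ℤ) := by
        rw [← hquad, ← hvN, hval, hq]
        push_cast
        ring
      exact mul_left_cancel₀ (by linarith) h2
    · intro p hp hd
      have := hMp p hp hd
      omega
  have hex3 : ∀ N : ℕ, ∃ n : ℕ, (N ≤ X ∧ GoodN f D y0 (2 * a) M' K C X (Φ * δ) N) →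
      n ∈ W ∧ (N : ℤ) = 2 * a * n + β := by
    intro N
    by_cases hN : N ≤ X ∧ GoodN f D y0 (2 * a) M' K C X (Φ * δ) N
    · obtain ⟨n, h1, h2⟩ := key N hN.1 hN.2
      exact ⟨n, fun _ => ⟨h1, h2⟩⟩
    · exact ⟨0, fun h => absurd h hN⟩
  choose g hg using hex3
  have hle : {N : ℕ | N ≤ X ∧ GoodN f D y0 (2 * a) M' K C X (Φ * δ) N}.ncard ≤ W.ncard := by
    refine Set.ncard_le_ncard_of_injOn g ?_ ?_ hWfin
    · intro N hN
      exact (hg N hN).1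
    · intro N hN N' hN' heq
      have h1 := (hg N hN).2
      have h2 := (hg N' hN').2
      rw [heq] at h1
      have h3 : (N : ℤ) = N' := by rw [h1, h2]
      exact_mod_cast h3
  exact_mod_cast hle

/-- the same without the normalisation `f 0 = 1` -/
theorem quadratic2 {Γ : Type} [CommGroup Γ] (f : ℕ → Γ) (u v : Multiset ℕ)
    (hu : ∀ j ∈ u, 1 ≤ j) (hv : ∀ j ∈ v, 1 ≤ j) (hsum : u.sum = v.sum + 1)
    (huv : (u.map f).prod = (v.map f).prod) :
    ∃ (Φ : Γ) (K : ℕ), ∀ α β γ : ℤ, 0 < α → ¬ IsSquare (β ^ 2 - 4 * α * γ) →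
      ∃ m0 : ℕ, 0 < m0 ∧ ∀ δ ∈ Submonoid.closure (f '' {j | 1 ≤ j}), ∀ M : ℕ, ∃ C : ℕ,
        ∀ᶠ X : ℕ in atTop, √(X : ℝ) / Real.log X ^ K ≤
          ({n : ℕ | n ≤ X ∧ ∃ c s : ℕ, α * n ^ 2 + β * n + γ = ((m0 * (c * s) : ℕ) : ℤ) ∧
            Fm f (c * s) = Φ * δ ∧ (∀ p : ℕ, p.Prime → p ∣ c * s → M < p) ∧ c ≤ C ∧
            Squarefree s ∧ ∀ p : ℕ, p.Prime → p ∣ s → X < p ^ K}.ncard : ℝ) := by
  classical
  obtain ⟨f', hf'0, hf'⟩ : ∃ f' : ℕ → Γ, f' 0 = 1 ∧ ∀ k, 1 ≤ k → f' k = f k := by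
    refine ⟨fun k => if k = 0 then 1 else f k, by simp, fun k hk => ?_⟩
    have : k ≠ 0 := by omega
    simp [this]
  have hp' : (u.map f').prod = (v.map f').prod := by
    rw [Multiset.map_congr rfl (fun k hk => hf' k (hu k hk)), huv,
      Multiset.map_congr rfl (fun k hk => hf' k (hv k hk))]
  have himg : f '' {j | 1 ≤ j} = f' '' {j | 1 ≤ j} := by
    apply Set.image_congr
    intro j hj
    exact (hf' j hj).symm
  have hFm : ∀ n, Fm f n = Fm f' n := by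
    intro n
    unfold Fm
    apply prod_congr rfl
    intro p hp
    rw [hf']
    exact ((Nat.prime_of_mem_primeFactors hp).dvd_iff_one_le_factorization (by
      rintro rfl
      simp at hp)).1 (Nat.dvd_of_mem_primeFactors hp)
  rw [himg]
  simp only [hFm]
  exact quadratic f' hf'0 u v hu hv hsum hp'

end Pool.Agent.Y887.QE
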